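import Pool.Agent.RIG.Star

set_option autoImplicit false

/-! An automorphism of `[c j, (c j)_j]` which fixes `[c (2j), (c j)_j]` pointwise and moves
`(c 0)_j`. -/

namespace Pool.Agent.RIG

open Pool.Agent.Helper87.ML Pool.Agent.Helper87.ML2 OrderDual

universe u

variable {L : Type u} [Lattice L] {s : L → L}

section

variable [IsModularLattice L] (hF : LF L) (hSD : SD' L) (hs : IsUp s) {z t : L} (hK : Key s z t)
include hF hSD hs hK

/-- restriction of automorphisms: the induced groups decrease -/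
lemma ind_anti (j n n' : ℕ) (hjn : 2 * j ≤ n) (hn : n ≤ n') {c : ℕ → L} (hc : Str s c n')
    (hz : z ≤ c 0) (ht : s^[j] (c n') ≤ t) (h1 : c j ≤ c (2 * j))
    (h2 : s^[j] (c j) ≤ s^[j] (c n')) (h3 : s^[j] (c j) ≤ s^[j] (c n)) :
    Ind (c j) (s^[j] (c n')) (c (2 * j)) (s^[j] (c j)) h1 h2 ≤
      Ind (c j) (s^[j] (c n)) (c (2 * j)) (s^[j] (c j)) h1 h3 := by
  rintro φ ⟨g, hg⟩
  have hc1 : Str s (fun i => c (j + i)) (n' - j) := hc.tail j (by omega)
  have e1 : j + (n' - j) = n' := by omega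
  have e2 : j + (n - j) = n := by omega
  have k := chain_auto hF hSD hs hK j hc1 (hz.trans (hc.mono (Nat.zero_le _) (by omega)))
    (by show s^[j] (c (j + (n' - j))) ≤ t; rw [e1]; exact ht)
    (g.cast rfl (by show _ = s^[j] (c (j + (n' - j))); rw [e1]) rfl
      (by show _ = s^[j] (c (j + (n' - j))); rw [e1]))
  simp only [IIso.cast_f] at k
  have k1 := (k (n - j) (by omega)).1
  rw [e2] at k1
  have k2 := (k 0 (by omega)).2
  rw [Nat.add_zero] at k2
  have hjn' : c j ≤ s^[j] (c n) := (hc.mono (by omega) hn).trans (le_it hs j _)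
  have hnn' : s^[j] (c n) ≤ s^[j] (c n') := it_mono hs j (hc.mono hn le_rfl)
  refine ⟨(g.restr le_rfl hjn' hnn').cast rfl rfl k2 k1, fun y => ?_⟩
  rw [IIso.cast_f]
  exact hg y

theorem star_core (j M : ℕ) {c c' : ℕ → L} (hc : Str s c ((M + 2) * j))
    (hc' : Str s c' ((M + 2) * j)) (hcc : ∀ i, j ≤ i → c i = c' i) (hz : z ≤ c 0)
    (hz' : z ≤ c' 0) (ht : s^[j] (c ((M + 2) * j)) ≤ t)
    (hM : Nat.card (Set.Icc (c (2 * j)) (s^[j] (c j)) ≃o Set.Icc (c (2 * j)) (s^[j] (c j))) < 2 ^ M)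
    : ∃ f : IIso (c j) (s^[j] (c j)) (c j) (s^[j] (c j)),
      (∀ y, c (2 * j) ≤ y → y ≤ s^[j] (c j) → f.f y = y) ∧
      f.f (s^[j] (c 0)) = s^[j] (c' 0) := by
  have e2M : (M + 2) * j = M * j + 2 * j := by ring
  have h1 : c j ≤ c (2 * j) := hc.mono (by omega) (by omega)
  have h0j : c 0 ≤ c j := hc.mono (Nat.zero_le _) (by omega)
  have h0jj : s^[j] (c 0) ≤ s^[j] (c j) := it_mono hs j h0j
  have hjj : c (2 * j) ≤ s^[j] (c j) := by
    have := hc.le_it' hs j j (by omega)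
    rwa [← two_mul] at this
  have hj0 : c j ≤ s^[j] (c 0) := by
    have := hc.le_it' hs 0 j (by omega)
    rwa [Nat.zero_add] at this
  have _fin : Finite (Set.Icc (c (2 * j)) (s^[j] (c j))) := (hF _ _).to_subtype
  have _fin2 : Finite (Set.Icc (c (2 * j)) (s^[j] (c j)) ≃o Set.Icc (c (2 * j)) (s^[j] (c j))) :=
    Finite.of_injective (fun e => (e : _ → _)) (fun e e' h => by
      ext x
      exact congrArg Subtype.val (congrFun h x))
  have hup : ∀ m, s^[j] (c j) ≤ s^[j] (c (j + m)) ∨ (M + 2) * j < j + m := fun m => by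
    by_cases hm : j + m ≤ (M + 2) * j
    · exact Or.inl (it_mono hs j (hc.mono (by omega) hm))
    · exact Or.inr (by omega)
  -- the groups
  have hle : ∀ i, (i + 2) * j ≤ (M + 2) * j → s^[j] (c j) ≤ s^[j] (c ((i + 2) * j)) :=
    fun i hi => it_mono hs j (hc.mono (by
      have : (i + 2) * j = i * j + 2 * j := by ring
      omega) hi)
  classical
  let H : ℕ → Subgroup (Set.Icc (c (2 * j)) (s^[j] (c j)) ≃o Set.Icc (c (2 * j)) (s^[j] (c j))) :=
    fun i => if h : (i + 2) * j ≤ (M + 2) * j then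
      Ind (c j) (s^[j] (c ((i + 2) * j))) (c (2 * j)) (s^[j] (c j)) h1 (hle i h) else ⊥
  have hH : ∀ i, H (i + 1) ≤ H i := by
    intro i
    by_cases h : (i + 1 + 2) * j ≤ (M + 2) * j
    · have e : (i + 1 + 2) * j = (i + 2) * j + j := by ring
      have e' : (i + 2) * j = i * j + 2 * j := by ring
      have h' : (i + 2) * j ≤ (M + 2) * j := by omega
      show (if h : _ then _ else _) ≤ (if h : _ then _ else _)
      rw [dif_pos h, dif_pos h']
      have hcn : Str s c ((i + 1 + 2) * j) := by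
        have := hc.tail 0 (k := (i + 1 + 2) * j) (by omega)
        simpa using this
      exact ind_anti hF hSD hs hK j _ _ (by omega) (by omega) hcn hz
        ((it_mono hs j (hc.mono h le_rfl)).trans ht) h1 _ _
    · show (if h : _ then _ else _) ≤ _
      rw [dif_neg h]
      exact bot_le
  obtain ⟨i, hiM, hi⟩ := stat H hH M hM
  have e : (i + 1 + 2) * j = (i + 2) * j + j := by ring
  have e' : (i + 2) * j = i * j + 2 * j := by ring
  have hle2 : (i + 1 + 2) * j ≤ (M + 2) * j := Nat.mul_le_mul_right j (by omega)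
  have hle1 : (i + 2) * j ≤ (M + 2) * j := by omega
  change (if h : _ then _ else _) = (if h : _ then _ else _) at hi
  rw [dif_pos hle2, dif_pos hle1] at hi
  -- the number `n`
  obtain ⟨n, hn⟩ : ∃ n, n = (i + 2) * j := ⟨_, rfl⟩
  have hn2 : 2 * j ≤ n := by omega
  have hnM : n + j ≤ (M + 2) * j := by omega
  have hcn : Str s c (n + j) := by
    have := hc.tail 0 (k := n + j) (by omega)
    simpa using this
  have hcn' : Str s c' (n + j) := by
    have := hc'.tail 0 (k := n + j) (by omega)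
    simpa using this
  have htn : s^[j] (c (n + j)) ≤ t := (it_mono hs j (hc.mono hnM le_rfl)).trans ht
  have h2 : s^[j] (c j) ≤ s^[j] (c (n + j)) := it_mono hs j (hc.mono (by omega) hnM)
  have h3 : s^[j] (c j) ≤ s^[j] (c n) := it_mono hs j (hc.mono (by omega) (by omega))
  have h4 : c 0 ≤ c (2 * j) := h0j.trans h1
  have heq : Ind (c j) (s^[j] (c (n + j))) (c (2 * j)) (s^[j] (c j)) h1 h2 =
      Ind (c j) (s^[j] (c n)) (c (2 * j)) (s^[j] (c j)) h1 h3 := by
    subst hn
    have e3 : (i + 2) * j + j = (i + 1 + 2) * j := e.symm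
    simp only [e3]
    exact hi
  have hind := ind_eq hF hSD hs hK j n hn2 hcn hz htn h1 h2 h3 h4 heq
  obtain ⟨h, hh⟩ := exists_h hF hSD hs hK j n (by omega) hcn hcn' hcc hz hz' htn
  have hhj : h.f (c j) = c j := by rw [(hh j (by omega)).1, ← hcc j le_rfl]
  have hh2j : h.f (c (2 * j)) = c (2 * j) := by
    rw [(hh (2 * j) (by omega)).1, ← hcc (2 * j) (by omega)]
  have hhjj : h.f (s^[j] (c j)) = s^[j] (c j) := by
    rw [(hh j (by omega)).2, ← hcc j le_rfl]
  have hh0 : h.f (s^[j] (c 0)) = s^[j] (c' 0) := (hh 0 (Nat.zero_le _)).2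
  have h0n : c 0 ≤ s^[j] (c n) := (hcn.mono (Nat.zero_le _) (by omega)).trans (le_it hs j _)
  have h0n' : c' 0 ≤ s^[j] (c n) := by
    rw [hcc n (by omega)]
    exact (hcn'.mono (Nat.zero_le _) (by omega)).trans (le_it hs j _)
  have hjn : c j ≤ s^[j] (c n) := (hcn.mono (by omega) (by omega)).trans (le_it hs j _)
  have hhn : h.f (s^[j] (c n)) = s^[j] (c n) := h.top h0n h0n'
  -- the automorphism induced by `h`
  let φh : Set.Icc (c (2 * j)) (s^[j] (c j)) ≃o Set.Icc (c (2 * j)) (s^[j] (c j)) :=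
    ((h.restr h4 hjj h3).cast rfl rfl hh2j hhjj).toIso
  have hφh : ∀ y : Set.Icc (c (2 * j)) (s^[j] (c j)), (φh y : L) = h.f y := fun y => by
    show ((h.restr h4 hjj h3).cast rfl rfl hh2j hhjj).f y = h.f y
    rw [IIso.cast_f]
    rfl
  have hφ1 : φh ∈ Ind (c j) (s^[j] (c n)) (c (2 * j)) (s^[j] (c j)) h1 h3 := by
    refine ⟨(h.restr h0j hjn le_rfl).cast rfl rfl hhj hhn, fun y => ?_⟩
    rw [IIso.cast_f, hφh]
    rfl
  obtain ⟨g, hg⟩ := hind hφ1
  have hcn0 : Str s c n := by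
    have := hc.tail 0 (k := n) (by omega)
    simpa using this
  have hgc := chain_auto hF hSD hs hK j hcn0 hz
    ((it_mono hs j (hcn.mono (by omega) le_rfl)).trans htn) g
  have gj : g.g (c j) = c j := g.g_eq h0j hjn (hgc j (by omega)).2
  have g0 : g.g (s^[j] (c 0)) = s^[j] (c 0) :=
    g.g_eq (h0j.trans hj0) (h0jj.trans h3) (hgc 0 (Nat.zero_le _)).1
  have gjj : g.g (s^[j] (c j)) = s^[j] (c j) :=
    g.g_eq (h0j.trans (le_it hs j _)) h3 (hgc j (by omega)).1
  have g2j : g.g (c (2 * j)) = c (2 * j) :=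
    g.g_eq h4 (hjj.trans h3) (hgc (2 * j) (by omega)).2
  let F := g.symm.trans h
  have hF1 : ∀ y, F.f y = h.f (g.g y) := fun y => rfl
  have Fj : F.f (c j) = c j := by rw [hF1, gj, hhj]
  have Fjj : F.f (s^[j] (c j)) = s^[j] (c j) := by rw [hF1, gjj, hhjj]
  refine ⟨(F.restr h0j (le_it hs j _) h3).cast rfl rfl Fj Fjj, ?_, ?_⟩
  · intro y hy1 hy2
    rw [IIso.cast_f]
    show h.f (g.g y) = y
    -- `g.g y` is in the interval
    have k1 : c (2 * j) ≤ g.g y := by
      have := (g.symm.le (c (2 * j)) y h4 (hjj.trans h3) (h4.trans hy1) (hy2.trans h3)).2 hy1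
      have e3 : g.symm.f (c (2 * j)) = c (2 * j) := g2j
      rw [e3] at this
      exact this
    have k2 : g.g y ≤ s^[j] (c j) := by
      have := (g.symm.le y (s^[j] (c j)) (h4.trans hy1) (hy2.trans h3)
        (h0j.trans (le_it hs j _)) h3).2 hy2
      have e3 : g.symm.f (s^[j] (c j)) = s^[j] (c j) := gjj
      rw [e3] at this
      exact this
    have k3 := hg ⟨g.g y, k1, k2⟩
    rw [hφh] at k3
    have k4 : g.f (g.g y) = y := g.fg y (h4.trans hy1) (hy2.trans h3)
    rw [← k3]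
    exact k4
  · rw [IIso.cast_f]
    show h.f (g.g (s^[j] (c 0))) = s^[j] (c' 0)
    rw [g0, hh0]

end

end Pool.Agent.RIG
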