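import Pool.Agent.RIG.CI
import Pool.Agent.RIG.Core

set_option autoImplicit false

/-! Transvections of `[z, z_j]`. -/

namespace Pool.Agent.RIG

open Pool.Agent.Helper87.ML Pool.Agent.Helper87.ML2 OrderDual

universe u

variable {L : Type u} [Lattice L] {s : L → L}

lemma Str.append {b v : ℕ → L} {j m : ℕ} (hb : Str s b j) (hv : Str s v m) (h0 : b j = v 0)
    (h : 1 ≤ j → 1 ≤ m → ¬ v 1 ≤ s (b (j - 1))) :
    Str s (fun i => if i < j then b i else v (i - j)) (j + m) := by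
  constructor
  · intro i hi
    show (if i < j then b i else v (i - j)) ⋖ (if i + 1 < j then b (i + 1) else v (i + 1 - j))
    by_cases h1 : i + 1 < j
    · rw [if_pos h1, if_pos (show i < j by omega)]
      exact hb.1 i (by omega)
    · rw [if_neg h1]
      by_cases h2 : i < j
      · rw [if_pos h2]
        have h3 : i + 1 - j = 0 := by omega
        have h4 : i + 1 = j := by omega
        rw [h3, ← h0, ← h4]
        exact hb.1 i (by omega)
      · rw [if_neg h2]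
        have h3 : i + 1 - j = (i - j) + 1 := by omega
        rw [h3]
        exact hv.1 (i - j) (by omega)
  · intro i hi
    show ¬ (if i + 2 < j then b (i + 2) else v (i + 2 - j)) ≤ s (if i < j then b i else v (i - j))
    by_cases h1 : i + 2 < j
    · rw [if_pos h1, if_pos (show i < j by omega)]
      exact hb.2 i (by omega)
    · rw [if_neg h1]
      by_cases h2 : i + 1 < j
      · rw [if_pos (show i < j by omega)]
        have h3 : i + 2 - j = 0 := by omega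
        have h4 : i + 2 = j := by omega
        rw [h3, ← h0, ← h4]
        exact hb.2 i (by omega)
      · by_cases h3 : i < j
        · rw [if_pos h3]
          have h4 : i + 2 - j = 1 := by omega
          have h5 : i = j - 1 := by omega
          rw [h4, h5]
          exact h (by omega) (by omega)
        · rw [if_neg h3]
          have h4 : i + 2 - j = (i - j) + 2 := by omega
          rw [h4]
          exact hv.2 (i - j) (by omega)

section

variable {a b c d x y : L}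

lemma IAnti.map_sup (φ : IAnti a b c d) (h1 : a ≤ x) (h2 : x ≤ b) (h3 : a ≤ y) (h4 : y ≤ b) :
    φ.f (x ⊔ y) = φ.f x ⊓ φ.f y := by
  have hx := φ.fm x h1 h2
  have hy := φ.fm y h3 h4
  have h5 : a ≤ x ⊔ y := h1.trans le_sup_left
  have h6 : x ⊔ y ≤ b := sup_le h2 h4
  apply le_antisymm
  · apply le_inf
    · rw [φ.le _ _ h5 h6 h1 h2]; exact le_sup_left
    · rw [φ.le _ _ h5 h6 h3 h4]; exact le_sup_right
  · have h7 : c ≤ φ.f x ⊓ φ.f y := le_inf hx.1 hy.1
    have h8 : φ.f x ⊓ φ.f y ≤ d := inf_le_left.trans hx.2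
    have h9 := φ.gm _ h7 h8
    rw [← φ.fg _ h7 h8, φ.le _ _ h9.1 h9.2 h5 h6]
    apply sup_le
    · rw [← φ.le _ _ h9.1 h9.2 h1 h2, φ.fg _ h7 h8]; exact inf_le_left
    · rw [← φ.le _ _ h9.1 h9.2 h3 h4, φ.fg _ h7 h8]; exact inf_le_right

/-- anti-isomorphic intervals have the same number of automorphisms -/
lemma card_aut (hF : LF L) (φ : IAnti a b c d) :
    Nat.card (Set.Icc a b ≃o Set.Icc a b) ≤ Nat.card (Set.Icc c d ≃o Set.Icc c d) := by
  have _fin : Finite (Set.Icc c d) := (hF _ _).to_subtype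
  have _fin2 : Finite (Set.Icc c d ≃o Set.Icc c d) :=
    Finite.of_injective (fun e => (e : _ → _)) (fun e e' h => by
      ext x
      exact congrArg Subtype.val (congrFun h x))
  apply Nat.card_le_card_of_injective
    (f := fun e : Set.Icc a b ≃o Set.Icc a b => (φ.symm.trans ((IIso.ofIso e).transAnti φ)).toIso)
  intro e e' h
  ext x
  have h1 := φ.fm x x.2.1 x.2.2
  have h2 : φ.f ((IIso.ofIso e).f (φ.g (φ.f x))) = φ.f ((IIso.ofIso e').f (φ.g (φ.f x))) := by
    have := DFunLike.congr_fun h (⟨φ.f x, h1⟩ : Set.Icc c d)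
    exact congrArg Subtype.val this
  rw [φ.gf _ x.2.1 x.2.2] at h2
  have h3 := (IIso.ofIso e).fm x x.2.1 x.2.2
  have h4 := (IIso.ofIso e').fm x x.2.1 x.2.2
  have h5 := φ.inj h3.1 h3.2 h4.1 h4.2 h2
  have h6 : ∀ e : Set.Icc a b ≃o Set.Icc a b, (IIso.ofIso e).f x = e x := fun e => by
    unfold IIso.ofIso
    exact dif_pos (show a ≤ (x : L) ∧ (x : L) ≤ b from x.2)
  rw [h6, h6] at h5
  exact h5

end

section

variable [IsModularLattice L] (hF : LF L) (hSD : SD' L) (hs : IsUp s) {z t : L} (hK : Key s z t)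
include hF hSD hs hK

/-- the straight chain from `w` to `x = z_j`, where `w_j = l` -/
lemma down_chain (j : ℕ) {l : L} (h1 : s^[j] z ≤ l) (h2 : l ≤ s^[j] (s^[j] z))
    (ht : s^[j] (s^[j] (s^[j] z)) ≤ t) (hl : CI l (s^[j] (s^[j] z)) j) :
    ∃ b : ℕ → L, z ≤ b 0 ∧ s^[j] (b 0) = l ∧ b j = s^[j] z ∧ Str s b j := by
  obtain ⟨w, hw1, hw2, hw3⟩ := surj hF hSD hs hK j h1 h2 ht
  have htx : s^[j] (s^[j] z) ≤ t := (le_it hs j _).trans ht
  have hwx : w ≤ s^[j] (s^[j] z) := hw2.trans (le_it hs j _)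
  obtain ⟨e⟩ := exists_anti hSD hwx
  have k1 := keyj_top hSD hs hK j hw1 hw2 htx e
  have k2 := e.top hwx hwx
  have e1 : IAnti l (s^[j] (s^[j] z)) w (s^[j] z) :=
    (e.restr (show w ≤ l by rw [← hw3]; exact le_it hs j w) h2 le_rfl).cast rfl rfl k2
      (by rw [← hw3]; exact k1)
  obtain ⟨b, hb0, hbj, hb⟩ := (hl.anti e1).str hF hs
  exact ⟨b, hb0 ▸ hw1, by rw [hb0]; exact hw3, hbj, hb⟩

/-- the dual transvections of `[x, x_j]`, `x = z_j` -/
theorem tr_dual (j M : ℕ) (hj : 1 ≤ j) {c l l' : L} (ht : s^[(M + 3) * j] z ≤ t)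
    (hc : CI (s^[j] z) c j) (h1 : c ⊓ l = s^[j] z) (h2 : c ⊔ l = s^[j] (s^[j] z))
    (h1' : c ⊓ l' = s^[j] z) (h2' : c ⊔ l' = s^[j] (s^[j] z))
    (hM : Nat.card (Set.Icc c (s^[j] (s^[j] z)) ≃o Set.Icc c (s^[j] (s^[j] z))) < 2 ^ M) :
    ∃ f : IIso (s^[j] z) (s^[j] (s^[j] z)) (s^[j] z) (s^[j] (s^[j] z)),
      (∀ y, c ≤ y → y ≤ s^[j] (s^[j] z) → f.f y = y) ∧ f.f l = l' := by
  obtain ⟨x, hx⟩ : ∃ x, x = s^[j] z := ⟨_, rfl⟩
  have hl : CI l (s^[j] (s^[j] z)) j := by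
    have h3 : CI (c ⊓ l) c j := by rw [h1]; exact hc
    have h4 := h3.diamond
    rwa [h2] at h4
  have hl' : CI l' (s^[j] (s^[j] z)) j := by
    have h3 : CI (c ⊓ l') c j := by rw [h1']; exact hc
    have h4 := h3.diamond
    rwa [h2'] at h4
  have ht3 : s^[j] (s^[j] (s^[j] z)) ≤ t := by
    rw [it_add, it_add]
    refine (it_le_it hs ?_ z).trans ht
    have : (M + 3) * j = M * j + 3 * j := by ring
    omega
  have hlx : s^[j] z ≤ l := by rw [← h1]; exact inf_le_right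
  have hlx' : s^[j] z ≤ l' := by rw [← h1']; exact inf_le_right
  have hcx : c ≤ s^[j] (s^[j] z) := by rw [← h2]; exact le_sup_left
  obtain ⟨b, hb0, hbl, hbj, hb⟩ := down_chain hF hSD hs hK j hlx hl.le ht3 hl
  obtain ⟨b', hb0', hbl', hbj', hb'⟩ := down_chain hF hSD hs hK j hlx' hl'.le ht3 hl'
  obtain ⟨v, hv0, hvj, hv⟩ := hc.str hF hs
  have hzv : z ≤ v 0 := by rw [hv0]; exact le_it hs j z
  obtain ⟨v', hv', hvv⟩ := Str.ext hF hSD hs hK hv hj hzv (M * j) (by
    rw [hvj]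
    have h3 : s^[M * j + 1] c ≤ s^[M * j + 1] (s^[j] (s^[j] z)) := it_mono hs _ hcx
    rw [it_add, it_add] at h3
    refine h3.trans ((it_le_it hs ?_ z).trans ht)
    have : (M + 3) * j = M * j + 3 * j := by ring
    omega)
  have hv0' : v' 0 = s^[j] z := by rw [hvv 0 (Nat.zero_le _), hv0]
  have hvj' : v' j = c := by rw [hvv j le_rfl, hvj]
  -- the point of `c` over `x`
  have hv1 : ¬ v' 1 ≤ s^[j] z := by
    intro h3
    have h4 := hv'.1 0 (by omega)
    rw [hv0'] at h4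
    exact h4.lt.not_ge h3
  have hv1c : v' 1 ≤ c := by rw [← hvj']; exact hv'.mono hj (by omega)
  have hj1 : j - 1 + 1 = j := by omega
  have hstr : ∀ (b : ℕ → L) (l : L), s^[j] (b 0) = l → c ⊓ l = s^[j] z → b j = s^[j] z →
      Str s b j → ∃ C : ℕ → L, Str s C ((M + 2) * j) ∧ C 0 = b 0 ∧
        ∀ i, j ≤ i → C i = v' (i - j) := by
    intro b l hbl h1 hbj hb
    refine ⟨fun i => if i < j then b i else v' (i - j), ?_, if_pos (by omega), fun i hi =>
      if_neg (by omega)⟩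
    have e1 : (M + 2) * j = j + (j + M * j) := by ring
    rw [e1]
    apply Str.append hb hv' (hbj.trans hv0'.symm)
    intro _ _ h3
    apply hv1
    have h4 : b (j - 1) ≤ s^[j - 1] (b 0) := by
      have := hb.le_it' hs 0 (j - 1) (by omega)
      rwa [Nat.zero_add] at this
    have h5 : s (b (j - 1)) ≤ s^[j] (b 0) := by
      have h6 := s_mono hs h4
      rwa [← Function.iterate_succ_apply' s, Nat.succ_eq_add_one, hj1] at h6
    rw [← h1]
    apply le_inf hv1c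
    rw [← hbl]
    exact h3.trans h5
  obtain ⟨C, hS, c0, cj⟩ := hstr b l hbl h1 hbj hb
  obtain ⟨C', hS', c0', cj'⟩ := hstr b' l' hbl' h1' hbj' hb'
  have Cj : C j = s^[j] z := by rw [cj j le_rfl, Nat.sub_self, hv0']
  have C2j : C (2 * j) = c := by
    have e1 : 2 * j - j = j := by omega
    rw [cj (2 * j) (by omega), e1, hvj']
  have hK' : s^[j] (C ((M + 2) * j)) ≤ t := by
    have e0 : (M + 2) * j = M * j + 2 * j := by ring
    have e1 : j + (M + 1) * j = (M + 2) * j := by ring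
    have h3 := hS.le_it' hs j ((M + 1) * j) (by omega)
    rw [e1, Cj] at h3
    have h4 := it_mono hs j h3
    rw [it_add, it_add] at h4
    refine h4.trans ((it_le_it hs (le_of_eq ?_) z).trans ht)
    ring
  have hM' : Nat.card (Set.Icc (C (2 * j)) (s^[j] (C j)) ≃o Set.Icc (C (2 * j)) (s^[j] (C j))) <
      2 ^ M := by
    rw [C2j, Cj]; exact hM
  obtain ⟨f, hf1, hf2⟩ := star_core hF hSD hs hK j M hS hS'
    (fun i hi => by rw [cj i hi, cj' i hi]) (by rw [c0]; exact hb0) (by rw [c0']; exact hb0') hK'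
    hM'
  refine ⟨f.cast Cj (by rw [Cj]) Cj (by rw [Cj]), ?_, ?_⟩
  · intro y hy1 hy2
    rw [IIso.cast_f]
    apply hf1 y
    · rw [C2j]; exact hy1
    · rw [Cj]; exact hy2
  · rw [IIso.cast_f]
    rw [c0, c0', hbl, hbl'] at hf2
    exact hf2

/-- transvections of `[z, z_j]` -/
theorem tr (j M : ℕ) (hj : 1 ≤ j) {l c c' : L} (ht : s^[(M + 3) * j] z ≤ t)
    (hc : CI z c j) (h1 : c ⊓ l = z) (h2 : c ⊔ l = s^[j] z)
    (h1' : c' ⊓ l = z) (h2' : c' ⊔ l = s^[j] z)
    (hM : Nat.card (Set.Icc z l ≃o Set.Icc z l) < 2 ^ M) :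
    ∃ f : IIso z (s^[j] z) z (s^[j] z), (∀ y, z ≤ y → y ≤ l → f.f y = y) ∧ f.f c = c' := by
  have hzl : z ≤ l := by
    have : c ⊓ l ≤ l := inf_le_right
    rwa [h1] at this
  have hlx : l ≤ s^[j] z := by rw [← h2]; exact le_sup_right
  have hzc : z ≤ c := by
    have : c ⊓ l ≤ c := inf_le_left
    rwa [h1] at this
  have hcx : c ≤ s^[j] z := by rw [← h2]; exact le_sup_left
  have hzc' : z ≤ c' := by
    have : c' ⊓ l ≤ c' := inf_le_left
    rwa [h1'] at this
  have hcx' : c' ≤ s^[j] z := by rw [← h2']; exact le_sup_left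
  have hzx : z ≤ s^[j] z := le_it hs j z
  have hxx : s^[j] z ≤ s^[j] (s^[j] z) := le_it hs j _
  have ht2 : s^[j] (s^[j] z) ≤ t := by
    rw [it_add]
    refine (it_le_it hs ?_ z).trans ht
    have : (M + 3) * j = M * j + 3 * j := by ring
    omega
  obtain ⟨ψ⟩ := cube_iso hSD hs hK j le_rfl hzx ht2
  obtain ⟨δ⟩ := exists_anti hSD hxx
  let A : IAnti z (s^[j] z) (s^[j] z) (s^[j] (s^[j] z)) := ψ.transAnti δ
  have Ab : A.f z = s^[j] (s^[j] z) := A.bot hzx hxx
  have At : A.f (s^[j] z) = s^[j] z := A.top hzx hxx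
  have hcl : CI l (s^[j] z) j := by
    have h3 : CI (c ⊓ l) c j := by rw [h1]; exact hc
    have h4 := h3.diamond
    rwa [h2] at h4
  have hA : CI (s^[j] z) (A.f l) j := by
    have h3 := hcl.anti (A.restr hzl hlx le_rfl)
    rwa [At] at h3
  have k1 : ∀ {c : L}, z ≤ c → c ≤ s^[j] z → c ⊓ l = z → c ⊔ l = s^[j] z →
      A.f l ⊓ A.f c = s^[j] z ∧ A.f l ⊔ A.f c = s^[j] (s^[j] z) := by
    intro c hzc hcx h1 h2
    constructor
    · rw [← A.map_sup hzl hlx hzc hcx, sup_comm, h2, At]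
    · rw [← A.map_inf hzl hlx hzc hcx, inf_comm, h1, Ab]
  have hM' : Nat.card (Set.Icc (A.f l) (s^[j] (s^[j] z)) ≃o
      Set.Icc (A.f l) (s^[j] (s^[j] z))) < 2 ^ M :=
    (card_aut hF ((A.restr le_rfl hzl hlx).cast rfl rfl rfl Ab).symm).trans_lt hM
  obtain ⟨f, hf1, hf2⟩ := tr_dual hF hSD hs hK j M hj ht hA (k1 hzc hcx h1 h2).1
    (k1 hzc hcx h1 h2).2 (k1 hzc' hcx' h1' h2').1 (k1 hzc' hcx' h1' h2').2 hM'
  refine ⟨A.trans (f.transAnti A.symm), ?_, ?_⟩
  · intro y hy1 hy2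
    show A.g (f.f (A.f y)) = y
    rw [hf1 (A.f y) ((A.le l y hzl hlx hy1 (hy2.trans hlx)).2 hy2)
      (A.fm y hy1 (hy2.trans hlx)).2, A.gf y hy1 (hy2.trans hlx)]
  · show A.g (f.f (A.f c)) = c'
    rw [hf2, A.gf c' hzc' hcx']

end

/-- transvections of `[z, z_j]` -/
theorem tr_main [IsModularLattice L] (hF : LF L) (hSD : SD' L) (hs : IsUp s) {z : L} {n j M : ℕ}
    (hz : ∀ y, z ≤ y → s y ≤ s^[(M + 3) * j] z → Order.krullDim (Set.Icc y (s y)) = n)
    {l c c' : L} (h1 : c ⊓ l = z) (h2 : c ⊔ l = s^[j] z)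
    (h1' : c' ⊓ l = z) (h2' : c' ⊔ l = s^[j] z)
    (hc : IsChain (· ≤ ·) (Set.Icc z c)) (hcj : (Set.Icc z c).ncard = j + 1)
    (hM : Nat.card (Set.Icc z l ≃o Set.Icc z l) < 2 ^ M) :
    ∃ f : IIso z (s^[j] z) z (s^[j] z), (∀ y, z ≤ y → y ≤ l → f.f y = y) ∧ f.f c = c' := by
  rcases Nat.eq_zero_or_pos j with rfl | hj
  · refine ⟨IIso.refl _ _, fun _ _ _ => rfl, ?_⟩
    show c = c'
    have k1 : z ≤ c := by
      have : c ⊓ l ≤ c := inf_le_left
      rwa [h1] at this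
    have k2 : c ≤ z := by
      have : c ≤ c ⊔ l := le_sup_left
      rwa [h2] at this
    have k1' : z ≤ c' := by
      have : c' ⊓ l ≤ c' := inf_le_left
      rwa [h1'] at this
    have k2' : c' ≤ z := by
      have : c' ≤ c' ⊔ l := le_sup_left
      rwa [h2'] at this
    exact le_antisymm (k2.trans k1') (k2'.trans k1)
  · have hK : Key s z (s^[(M + 3) * j] z) := key_of_dim hSD hs n hz
    have hCI : CI z c j := by
      refine ⟨fun y w k1 k2 k3 k4 => ?_, hcj⟩
      by_cases h : y = w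
      · exact Or.inl h.le
      · exact hc ⟨k1, k2⟩ ⟨k3, k4⟩ h
    exact tr hF hSD hs hK j M hj le_rfl hCI h1 h2 h1' h2' hM

end Pool.Agent.RIG
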