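import Pool.Agent.Helper87.ML2.Gen
import Pool.Agent.Helper87.ML.Order

set_option autoImplicit false

/-! Isomorphisms and anti-isomorphisms between intervals, given by functions on the lattice. -/

namespace Pool.Agent.RIG

open Pool.Agent.Helper87.ML Pool.Agent.Helper87.ML2 OrderDual

universe u

variable {L : Type u} [Lattice L]

/-- isomorphism of `[a, b]` onto `[c, d]` -/
structure IIso (a b c d : L) where
  f : L → L
  g : L → L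
  fm : ∀ z, a ≤ z → z ≤ b → c ≤ f z ∧ f z ≤ d
  gm : ∀ z, c ≤ z → z ≤ d → a ≤ g z ∧ g z ≤ b
  gf : ∀ z, a ≤ z → z ≤ b → g (f z) = z
  fg : ∀ z, c ≤ z → z ≤ d → f (g z) = z
  le : ∀ z w, a ≤ z → z ≤ b → a ≤ w → w ≤ b → (f z ≤ f w ↔ z ≤ w)

/-- anti-isomorphism of `[a, b]` onto `[c, d]` -/
structure IAnti (a b c d : L) where
  f : L → L
  g : L → L
  fm : ∀ z, a ≤ z → z ≤ b → c ≤ f z ∧ f z ≤ d
  gm : ∀ z, c ≤ z → z ≤ d → a ≤ g z ∧ g z ≤ b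
  gf : ∀ z, a ≤ z → z ≤ b → g (f z) = z
  fg : ∀ z, c ≤ z → z ≤ d → f (g z) = z
  le : ∀ z w, a ≤ z → z ≤ b → a ≤ w → w ≤ b → (f z ≤ f w ↔ w ≤ z)

variable {a b c d x y z w v : L}

namespace IAnti

/-- the inverse -/
def symm (φ : IAnti a b c d) : IAnti c d a b where
  f := φ.g
  g := φ.f
  fm := φ.gm
  gm := φ.fm
  gf := φ.fg
  fg := φ.gf
  le z w h1 h2 h3 h4 := by
    have h5 := φ.gm z h1 h2
    have h6 := φ.gm w h3 h4
    rw [← φ.le (φ.g w) (φ.g z) h6.1 h6.2 h5.1 h5.2, φ.fg z h1 h2, φ.fg w h3 h4]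

/-- the composition of two anti-isomorphisms -/
def trans (φ : IAnti a b c d) (ψ : IAnti c d x y) : IIso a b x y where
  f z := ψ.f (φ.f z)
  g z := φ.g (ψ.g z)
  fm z h1 h2 := ψ.fm _ (φ.fm z h1 h2).1 (φ.fm z h1 h2).2
  gm z h1 h2 := φ.gm _ (ψ.gm z h1 h2).1 (ψ.gm z h1 h2).2
  gf z h1 h2 := by rw [ψ.gf _ (φ.fm z h1 h2).1 (φ.fm z h1 h2).2, φ.gf z h1 h2]
  fg z h1 h2 := by rw [φ.fg _ (ψ.gm z h1 h2).1 (ψ.gm z h1 h2).2, ψ.fg z h1 h2]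
  le z w h1 h2 h3 h4 := by
    have h5 := φ.fm z h1 h2
    have h6 := φ.fm w h3 h4
    rw [ψ.le _ _ h5.1 h5.2 h6.1 h6.2, φ.le _ _ h3 h4 h1 h2]

/-- restriction -/
def restr (φ : IAnti a b c d) (hx : a ≤ x) (hxy : x ≤ y) (hy : y ≤ b) :
    IAnti x y (φ.f y) (φ.f x) where
  f := φ.f
  g := φ.g
  fm z h1 h2 := ⟨(φ.le y z (hx.trans hxy) hy (hx.trans h1) (h2.trans hy)).2 h2,
    (φ.le z x (hx.trans h1) (h2.trans hy) hx (hxy.trans hy)).2 h1⟩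
  gm z h1 h2 := by
    have h3 := φ.fm x hx (hxy.trans hy)
    have h4 := φ.fm y (hx.trans hxy) hy
    have h5 := φ.gm z (h4.1.trans h1) (h2.trans h3.2)
    constructor
    · rw [← φ.le (φ.g z) x h5.1 h5.2 hx (hxy.trans hy), φ.fg z (h4.1.trans h1) (h2.trans h3.2)]
      exact h2
    · rw [← φ.le y (φ.g z) (hx.trans hxy) hy h5.1 h5.2, φ.fg z (h4.1.trans h1) (h2.trans h3.2)]
      exact h1
  gf z h1 h2 := φ.gf z (hx.trans h1) (h2.trans hy)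
  fg z h1 h2 := φ.fg z ((φ.fm y (hx.trans hxy) hy).1.trans h1)
    (h2.trans (φ.fm x hx (hxy.trans hy)).2)
  le z w h1 h2 h3 h4 := φ.le z w (hx.trans h1) (h2.trans hy) (hx.trans h3) (h4.trans hy)

lemma bot (φ : IAnti a b c d) (hab : a ≤ b) (hcd : c ≤ d) : φ.f a = d := by
  apply le_antisymm (φ.fm a le_rfl hab).2
  have h1 := φ.gm d hcd le_rfl
  have h2 := (φ.le _ _ h1.1 h1.2 le_rfl hab).2 h1.1
  exact (φ.fg d hcd le_rfl).ge.trans h2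

lemma top (φ : IAnti a b c d) (hab : a ≤ b) (hcd : c ≤ d) : φ.f b = c := by
  apply le_antisymm _ (φ.fm b hab le_rfl).1
  have h1 := φ.gm c le_rfl hcd
  have h2 := (φ.le _ _ hab le_rfl h1.1 h1.2).2 h1.2
  exact h2.trans (φ.fg c le_rfl hcd).le

lemma inj (φ : IAnti a b c d) (h1 : a ≤ z) (h2 : z ≤ b) (h3 : a ≤ w) (h4 : w ≤ b)
    (h : φ.f z = φ.f w) : z = w := by
  rw [← φ.gf z h1 h2, h, φ.gf w h3 h4]

lemma lt (φ : IAnti a b c d) (h1 : a ≤ z) (h2 : z ≤ b) (h3 : a ≤ w) (h4 : w ≤ b) :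
    φ.f z < φ.f w ↔ w < z := by
  rw [lt_iff_le_not_ge, lt_iff_le_not_ge, φ.le z w h1 h2 h3 h4, φ.le w z h3 h4 h1 h2]

lemma cov (φ : IAnti a b c d) (h1 : a ≤ z) (h2 : w ≤ b) (h : z ⋖ w) : φ.f w ⋖ φ.f z := by
  have h3 := h1.trans h.le
  have h4 := h.le.trans h2
  refine ⟨(φ.lt h3 h2 h1 h4).2 h.lt, fun t ht1 ht2 => ?_⟩
  have h5 := φ.fm w h3 h2
  have h6 := φ.fm z h1 h4
  have h7 : c ≤ t := h5.1.trans ht1.le
  have h8 : t ≤ d := ht2.le.trans h6.2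
  have h9 := φ.gm t h7 h8
  rw [← φ.fg t h7 h8] at ht1 ht2
  rw [φ.lt h3 h2 h9.1 h9.2] at ht1
  rw [φ.lt h9.1 h9.2 h1 h4] at ht2
  exact h.2 ht2 ht1

end IAnti

lemma IAnti.g_eq (φ : IAnti a b c d) (h1 : a ≤ z) (h2 : z ≤ b) (h : φ.f z = w) : φ.g w = z := by
  rw [← h]; exact φ.gf z h1 h2

namespace IIso

lemma g_eq (φ : IIso a b c d) (h1 : a ≤ z) (h2 : z ≤ b) (h : φ.f z = w) : φ.g w = z := by
  rw [← h]; exact φ.gf z h1 h2

/-- the inverse -/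
def symm (φ : IIso a b c d) : IIso c d a b where
  f := φ.g
  g := φ.f
  fm := φ.gm
  gm := φ.fm
  gf := φ.fg
  fg := φ.gf
  le z w h1 h2 h3 h4 := by
    have h5 := φ.gm z h1 h2
    have h6 := φ.gm w h3 h4
    rw [← φ.le (φ.g z) (φ.g w) h5.1 h5.2 h6.1 h6.2, φ.fg z h1 h2, φ.fg w h3 h4]

/-- composition -/
def trans (φ : IIso a b c d) (ψ : IIso c d x y) : IIso a b x y where
  f z := ψ.f (φ.f z)
  g z := φ.g (ψ.g z)
  fm z h1 h2 := ψ.fm _ (φ.fm z h1 h2).1 (φ.fm z h1 h2).2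
  gm z h1 h2 := φ.gm _ (ψ.gm z h1 h2).1 (ψ.gm z h1 h2).2
  gf z h1 h2 := by rw [ψ.gf _ (φ.fm z h1 h2).1 (φ.fm z h1 h2).2, φ.gf z h1 h2]
  fg z h1 h2 := by rw [φ.fg _ (ψ.gm z h1 h2).1 (ψ.gm z h1 h2).2, ψ.fg z h1 h2]
  le z w h1 h2 h3 h4 := by
    have h5 := φ.fm z h1 h2
    have h6 := φ.fm w h3 h4
    rw [ψ.le _ _ h5.1 h5.2 h6.1 h6.2, φ.le _ _ h1 h2 h3 h4]

/-- restriction -/
def restr (φ : IIso a b c d) (hx : a ≤ x) (hxy : x ≤ y) (hy : y ≤ b) :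
    IIso x y (φ.f x) (φ.f y) where
  f := φ.f
  g := φ.g
  fm z h1 h2 := ⟨(φ.le x z hx (hxy.trans hy) (hx.trans h1) (h2.trans hy)).2 h1,
    (φ.le z y (hx.trans h1) (h2.trans hy) (hx.trans hxy) hy).2 h2⟩
  gm z h1 h2 := by
    have h3 := φ.fm x hx (hxy.trans hy)
    have h4 := φ.fm y (hx.trans hxy) hy
    have h5 := φ.gm z (h3.1.trans h1) (h2.trans h4.2)
    constructor
    · rw [← φ.le x (φ.g z) hx (hxy.trans hy) h5.1 h5.2, φ.fg z (h3.1.trans h1) (h2.trans h4.2)]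
      exact h1
    · rw [← φ.le (φ.g z) y h5.1 h5.2 (hx.trans hxy) hy, φ.fg z (h3.1.trans h1) (h2.trans h4.2)]
      exact h2
  gf z h1 h2 := φ.gf z (hx.trans h1) (h2.trans hy)
  fg z h1 h2 := φ.fg z ((φ.fm x hx (hxy.trans hy)).1.trans h1)
    (h2.trans (φ.fm y (hx.trans hxy) hy).2)
  le z w h1 h2 h3 h4 := φ.le z w (hx.trans h1) (h2.trans hy) (hx.trans h3) (h4.trans hy)

lemma bot (φ : IIso a b c d) (hab : a ≤ b) (hcd : c ≤ d) : φ.f a = c := by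
  apply le_antisymm _ (φ.fm a le_rfl hab).1
  have h1 := φ.gm c le_rfl hcd
  have h2 := (φ.le _ _ le_rfl hab h1.1 h1.2).2 h1.1
  exact h2.trans (φ.fg c le_rfl hcd).le

lemma top (φ : IIso a b c d) (hab : a ≤ b) (hcd : c ≤ d) : φ.f b = d := by
  apply le_antisymm (φ.fm b hab le_rfl).2
  have h1 := φ.gm d hcd le_rfl
  have h2 := (φ.le _ _ h1.1 h1.2 hab le_rfl).2 h1.2
  exact (φ.fg d hcd le_rfl).ge.trans h2

lemma inj (φ : IIso a b c d) (h1 : a ≤ z) (h2 : z ≤ b) (h3 : a ≤ w) (h4 : w ≤ b)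
    (h : φ.f z = φ.f w) : z = w := by
  rw [← φ.gf z h1 h2, h, φ.gf w h3 h4]

lemma lt (φ : IIso a b c d) (h1 : a ≤ z) (h2 : z ≤ b) (h3 : a ≤ w) (h4 : w ≤ b) :
    φ.f z < φ.f w ↔ z < w := by
  rw [lt_iff_le_not_ge, lt_iff_le_not_ge, φ.le z w h1 h2 h3 h4, φ.le w z h3 h4 h1 h2]

lemma cov (φ : IIso a b c d) (h1 : a ≤ z) (h2 : w ≤ b) (h : z ⋖ w) : φ.f z ⋖ φ.f w := by
  have h3 := h1.trans h.le
  have h4 := h.le.trans h2
  refine ⟨(φ.lt h1 h4 h3 h2).2 h.lt, fun t ht1 ht2 => ?_⟩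
  have h5 := φ.fm z h1 h4
  have h6 := φ.fm w h3 h2
  have h7 : c ≤ t := h5.1.trans ht1.le
  have h8 : t ≤ d := ht2.le.trans h6.2
  have h9 := φ.gm t h7 h8
  rw [← φ.fg t h7 h8] at ht1 ht2
  rw [φ.lt h1 h4 h9.1 h9.2] at ht1
  rw [φ.lt h9.1 h9.2 h3 h2] at ht2
  exact h.2 ht1 ht2

/-- change of the endpoints -/
def cast (φ : IIso a b c d) {a' b' c' d' : L} (ha : a = a') (hb : b = b') (hc : c = c')
    (hd : d = d') : IIso a' b' c' d' := by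
  subst ha hb hc hd; exact φ

@[simp] lemma cast_f (φ : IIso a b c d) {a' b' c' d' : L} (ha : a = a') (hb : b = b')
    (hc : c = c') (hd : d = d') : (φ.cast ha hb hc hd).f = φ.f := by
  subst ha hb hc hd; rfl

@[simp] lemma cast_g (φ : IIso a b c d) {a' b' c' d' : L} (ha : a = a') (hb : b = b')
    (hc : c = c') (hd : d = d') : (φ.cast ha hb hc hd).g = φ.g := by
  subst ha hb hc hd; rfl

/-- the isomorphism of the subtypes -/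
def toIso (φ : IIso a b c d) : Set.Icc a b ≃o Set.Icc c d where
  toFun z := ⟨φ.f z, φ.fm z z.2.1 z.2.2⟩
  invFun z := ⟨φ.g z, φ.gm z z.2.1 z.2.2⟩
  left_inv z := Subtype.ext (φ.gf z z.2.1 z.2.2)
  right_inv z := Subtype.ext (φ.fg z z.2.1 z.2.2)
  map_rel_iff' := by
    intro z w
    exact φ.le z w z.2.1 z.2.2 w.2.1 w.2.2

open Classical in
/-- from an isomorphism of the subtypes -/
noncomputable def ofIso (e : Set.Icc a b ≃o Set.Icc c d) : IIso a b c d where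
  f z := if h : a ≤ z ∧ z ≤ b then (e ⟨z, h⟩ : L) else z
  g z := if h : c ≤ z ∧ z ≤ d then (e.symm ⟨z, h⟩ : L) else z
  fm z h1 h2 := by
    rw [dif_pos ⟨h1, h2⟩]; exact (e ⟨z, h1, h2⟩).2
  gm z h1 h2 := by
    rw [dif_pos ⟨h1, h2⟩]; exact (e.symm ⟨z, h1, h2⟩).2
  gf z h1 h2 := by
    have h := (e ⟨z, h1, h2⟩).2
    rw [dif_pos (show a ≤ z ∧ z ≤ b from ⟨h1, h2⟩), dif_pos ⟨h.1, h.2⟩]
    exact congrArg Subtype.val (e.symm_apply_apply ⟨z, h1, h2⟩)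
  fg z h1 h2 := by
    have h := (e.symm ⟨z, h1, h2⟩).2
    rw [dif_pos (show c ≤ z ∧ z ≤ d from ⟨h1, h2⟩), dif_pos ⟨h.1, h.2⟩]
    exact congrArg Subtype.val (e.apply_symm_apply ⟨z, h1, h2⟩)
  le z w h1 h2 h3 h4 := by
    rw [dif_pos ⟨h1, h2⟩, dif_pos ⟨h3, h4⟩]
    exact e.le_iff_le (x := ⟨z, h1, h2⟩) (y := ⟨w, h3, h4⟩)

/-- an isomorphism followed by an anti-isomorphism -/
def transAnti (φ : IIso a b c d) (ψ : IAnti c d x y) : IAnti a b x y where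
  f z := ψ.f (φ.f z)
  g z := φ.g (ψ.g z)
  fm z h1 h2 := ψ.fm _ (φ.fm z h1 h2).1 (φ.fm z h1 h2).2
  gm z h1 h2 := φ.gm _ (ψ.gm z h1 h2).1 (ψ.gm z h1 h2).2
  gf z h1 h2 := by rw [ψ.gf _ (φ.fm z h1 h2).1 (φ.fm z h1 h2).2, φ.gf z h1 h2]
  fg z h1 h2 := by rw [φ.fg _ (ψ.gm z h1 h2).1 (ψ.gm z h1 h2).2, ψ.fg z h1 h2]
  le z w h1 h2 h3 h4 := by
    have h5 := φ.fm z h1 h2
    have h6 := φ.fm w h3 h4
    rw [ψ.le _ _ h5.1 h5.2 h6.1 h6.2, φ.le _ _ h3 h4 h1 h2]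

end IIso

/-- change of the endpoints -/
def IAnti.cast (φ : IAnti a b c d) {a' b' c' d' : L} (ha : a = a') (hb : b = b') (hc : c = c')
    (hd : d = d') : IAnti a' b' c' d' := by
  subst ha hb hc hd; exact φ

@[simp] lemma IAnti.cast_f (φ : IAnti a b c d) {a' b' c' d' : L} (ha : a = a') (hb : b = b')
    (hc : c = c') (hd : d = d') : (φ.cast ha hb hc hd).f = φ.f := by
  subst ha hb hc hd; rfl

@[simp] lemma IAnti.cast_g (φ : IAnti a b c d) {a' b' c' d' : L} (ha : a = a') (hb : b = b')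
    (hc : c = c') (hd : d = d') : (φ.cast ha hb hc hd).g = φ.g := by
  subst ha hb hc hd; rfl

open Classical in
/-- the anti-automorphisms given by self-duality -/
noncomputable def antiOf (e : Set.Icc a b ≃o (Set.Icc a b)ᵒᵈ) : IAnti a b a b where
  f z := if h : a ≤ z ∧ z ≤ b then (ofDual (e ⟨z, h⟩) : Set.Icc a b) else z
  g z := if h : a ≤ z ∧ z ≤ b then (e.symm (toDual ⟨z, h⟩) : Set.Icc a b) else z
  fm z h1 h2 := by
    rw [dif_pos ⟨h1, h2⟩]; exact (ofDual (e ⟨z, h1, h2⟩)).2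
  gm z h1 h2 := by
    rw [dif_pos ⟨h1, h2⟩]; exact (e.symm (toDual ⟨z, h1, h2⟩)).2
  gf z h1 h2 := by
    have h := (ofDual (e ⟨z, h1, h2⟩)).2
    rw [dif_pos (show a ≤ z ∧ z ≤ b from ⟨h1, h2⟩), dif_pos ⟨h.1, h.2⟩]
    exact congrArg Subtype.val (e.symm_apply_apply ⟨z, h1, h2⟩)
  fg z h1 h2 := by
    have h := (e.symm (toDual ⟨z, h1, h2⟩)).2
    rw [dif_pos (show a ≤ z ∧ z ≤ b from ⟨h1, h2⟩), dif_pos ⟨h.1, h.2⟩]
    exact congrArg (fun t : (Set.Icc a b)ᵒᵈ => ((ofDual t : Set.Icc a b) : L))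
      (e.apply_symm_apply (toDual ⟨z, h1, h2⟩))
  le z w h1 h2 h3 h4 := by
    rw [dif_pos ⟨h1, h2⟩, dif_pos ⟨h3, h4⟩]
    exact e.le_iff_le (x := ⟨w, h3, h4⟩) (y := ⟨z, h1, h2⟩)

/-- every interval is anti-isomorphic to itself -/
lemma exists_anti (hSD : SD' L) {a b : L} (hab : a ≤ b) : Nonempty (IAnti a b a b) := by
  obtain ⟨e⟩ := hSD a b hab
  exact ⟨antiOf e⟩

/-- anti-isomorphic intervals are isomorphic -/
lemma iso_of_anti (hSD : SD' L) (hcd : c ≤ d) (φ : IAnti a b c d) : Nonempty (IIso a b c d) := by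
  obtain ⟨ψ⟩ := exists_anti hSD hcd
  exact ⟨φ.trans ψ⟩

lemma isPlane_iiso (hab : a ≤ b) (φ : IIso a b c d) (h : IsPlane a b) : IsPlane c d :=
  isPlane_congr hab φ.toIso h

end Pool.Agent.RIG
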