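import Pool.Agent.RIG.KeyJ

set_option autoImplicit false

/-! Straight chains. -/

namespace Pool.Agent.RIG

open Pool.Agent.Helper87.ML Pool.Agent.Helper87.ML2 OrderDual

universe u

variable {L : Type u} [Lattice L] {s : L → L}

/-- `[u, u⁺]` is complemented: between `x < y ≤ u⁺` there is a cover of `u` below `y` and not below
`x` -/
lemma exists_cov_off [IsModularLattice L] (hF : LF L) (hs : IsUp s) {u x y : L} (hux : u ≤ x)
    (hxy : x < y) (hy : y ≤ s u) : ∃ p, u ⋖ p ∧ p ≤ y ∧ ¬ p ≤ x := by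
  have huy : u ≤ y := hux.trans hxy.le
  have hfin : {w | (u ≤ w ∧ w ≤ s u) ∧ w ⊓ y = u}.Finite :=
    (hF u (s u)).subset fun w hw => hw.1
  obtain ⟨w, ⟨⟨⟨huw, hws⟩, hwy⟩, hmax⟩⟩ := hfin.exists_maximal
    ⟨u, ⟨le_rfl, le_s hs u⟩, inf_eq_left.2 huy⟩
  -- `w ⊔ y = u⁺`
  have h1 : w ⊔ y = s u := by
    apply le_antisymm (sup_le hws hy)
    apply s_le hs (huw.trans le_sup_left)
    intro p hp
    by_contra hcon
    have h2 : p ⊓ (w ⊔ y) = u := by
      have h3 : u ≤ p ⊓ (w ⊔ y) := le_inf hp.le (huw.trans le_sup_left)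
      rcases eq_or_lt_of_le h3 with h4 | h4
      · exact h4.symm
      · exfalso
        rcases eq_or_lt_of_le (inf_le_left : p ⊓ (w ⊔ y) ≤ p) with h5 | h5
        · exact hcon (inf_eq_left.1 h5)
        · exact hp.2 h4 h5
    have h3 : (w ⊔ p) ⊓ (w ⊔ y) = w := by
      rw [sup_inf_assoc_of_le p (le_sup_left : w ≤ w ⊔ y), h2]
      exact sup_eq_left.2 huw
    have h4 : (w ⊔ p) ⊓ y = u := by
      apply le_antisymm
      · have h5 : (w ⊔ p) ⊓ y ≤ w :=
          le_trans (inf_le_inf le_rfl (le_sup_right : y ≤ w ⊔ y)) h3.le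
        exact (le_inf h5 inf_le_right).trans hwy.le
      · exact le_inf (huw.trans le_sup_left) huy
    have h5 : w ⊔ p ≤ w := hmax ⟨⟨huw.trans le_sup_left, sup_le hws (cov_le_s hs hp)⟩, h4⟩
      le_sup_left
    exact hcon ((le_sup_right.trans h5).trans le_sup_left)
  -- a cover not below `x ⊔ w`
  obtain ⟨p, hp, hpx⟩ : ∃ p, u ⋖ p ∧ ¬ p ≤ x ⊔ w := by
    by_contra hcon
    push Not at hcon
    have h2 : s u ≤ x ⊔ w := s_le hs (hux.trans le_sup_left) hcon
    have h3 : (x ⊔ w) ⊓ y = x := by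
      rw [sup_inf_assoc_of_le w hxy.le, hwy]
      exact sup_eq_left.2 hux
    have h4 : y ≤ (x ⊔ w) ⊓ y := le_inf (hy.trans h2) le_rfl
    rw [h3] at h4
    exact hxy.not_ge h4
  have hpw : ¬ p ≤ w := fun h => hpx (h.trans le_sup_right)
  have h2 : w ⊔ (p ⊔ w) ⊓ y = p ⊔ w := by
    have h3 : w ⊔ (p ⊔ w) ⊓ y = (w ⊔ y) ⊓ (p ⊔ w) := by
      rw [inf_comm (p ⊔ w) y, ← sup_inf_assoc_of_le y (le_sup_right : w ≤ p ⊔ w)]
    rw [h3, h1]
    exact inf_eq_right.2 (sup_le (cov_le_s hs hp) hws)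
  have h3 : w ⋖ p ⊔ w := by
    apply covBy_sup_of_inf_covBy_left
    have h4 : p ⊓ w = u := by
      have h5 : u ≤ p ⊓ w := le_inf hp.le huw
      rcases eq_or_lt_of_le h5 with h6 | h6
      · exact h6.symm
      · exfalso
        rcases eq_or_lt_of_le (inf_le_left : p ⊓ w ≤ p) with h7 | h7
        · exact hpw (inf_eq_left.1 h7)
        · exact hp.2 h6 h7
    rw [h4]; exact hp
  refine ⟨(p ⊔ w) ⊓ y, ?_, inf_le_right, ?_⟩
  · have h4 : ((p ⊔ w) ⊓ y) ⊓ w = u := by
      rw [inf_assoc, inf_comm y w, hwy]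
      exact inf_eq_right.2 (huw.trans le_sup_right)
    have h5 : ((p ⊔ w) ⊓ y) ⊓ w ⋖ (p ⊔ w) ⊓ y := by
      apply inf_covBy_of_covBy_sup_right
      rw [sup_comm, h2]; exact h3
    rwa [h4] at h5
  · intro h
    apply hpx
    calc p ≤ p ⊔ w := le_sup_left
      _ = w ⊔ (p ⊔ w) ⊓ y := h2.symm
      _ ≤ x ⊔ w := sup_le le_sup_right (h.trans le_sup_left)

/-- a straight chain: covers, two steps are never below the join of the covers -/
def Str (s : L → L) (c : ℕ → L) (m : ℕ) : Prop :=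
  (∀ i, i < m → c i ⋖ c (i + 1)) ∧ ∀ i, i + 2 ≤ m → ¬ c (i + 2) ≤ s (c i)

namespace Str

variable {c : ℕ → L} {m : ℕ}

lemma tail (h : Str s c m) (a : ℕ) {k : ℕ} (hk : a + k ≤ m) : Str s (fun i => c (a + i)) k :=
  ⟨fun i hi => h.1 (a + i) (by omega), fun i hi => h.2 (a + i) (by omega)⟩

lemma mono (h : Str s c m) {i k : ℕ} (hik : i ≤ k) (hk : k ≤ m) : c i ≤ c k := by
  induction k, hik using Nat.le_induction with
  | base => exact le_rfl
  | succ k hik ih => exact (ih (by omega)).trans (h.1 k (by omega)).le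

lemma lt (h : Str s c m) {i k : ℕ} (hik : i < k) (hk : k ≤ m) : c i < c k :=
  (h.1 i (by omega)).lt.trans_le (h.mono (Nat.succ_le_of_lt hik) hk)

lemma lt_iff (h : Str s c m) {i k : ℕ} (hi : i ≤ m) (hk : k ≤ m) : c i < c k ↔ i < k := by
  refine ⟨fun h1 => ?_, fun h1 => h.lt h1 hk⟩
  by_contra hcon
  exact h1.not_ge (h.mono (not_lt.1 hcon) hi)

lemma inj (h : Str s c m) {i k : ℕ} (hi : i ≤ m) (hk : k ≤ m) (he : c i = c k) : i = k := by
  rcases lt_trichotomy i k with h1 | h1 | h1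
  · exact absurd he (h.lt h1 hk).ne
  · exact h1
  · exact absurd he (h.lt h1 hi).ne'

variable [IsModularLattice L]

/-- the interval between two members of a straight chain -/
lemma icc (hF : LF L) (hs : IsUp s) (h : Str s c m) : ∀ (n i k : ℕ), i + n = k → k ≤ m →
    ∀ y, c i ≤ y → y ≤ c k → ∃ t, i ≤ t ∧ t ≤ k ∧ y = c t := by
  intro n
  induction n with
  | zero =>
    intro i k hik hk y h1 h2
    have : i = k := by omega
    subst this
    exact ⟨i, le_rfl, le_rfl, le_antisymm h2 h1⟩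
  | succ n ih =>
    intro i k hik hk y h1 h2
    rcases eq_or_lt_of_le h1 with h3 | h3
    · exact ⟨i, le_rfl, by omega, h3.symm⟩
    obtain ⟨a, ha, hay⟩ := lf_cov hF h3
    have hi := h.1 i (by omega)
    by_cases hac : a = c (i + 1)
    · obtain ⟨t, ht1, ht2, ht3⟩ := ih (i + 1) k (by omega) hk y (hac ▸ hay) h2
      exact ⟨t, by omega, ht2, ht3⟩
    · exfalso
      have hinf : a ⊓ c (i + 1) = c i := by
        have h5 : c i ≤ a ⊓ c (i + 1) := le_inf ha.le hi.le
        rcases eq_or_lt_of_le h5 with h6 | h6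
        · exact h6.symm
        · exfalso
          rcases eq_or_lt_of_le (inf_le_left : a ⊓ c (i + 1) ≤ a) with h7 | h7
          · have h8 : a ≤ c (i + 1) := inf_eq_left.1 h7
            rcases eq_or_lt_of_le h8 with h9 | h9
            · exact hac h9
            · exact hi.2 ha.lt h9
          · exact ha.2 h6 h7
      have h4 : c (i + 1) ⋖ a ⊔ c (i + 1) := by
        apply covBy_sup_of_inf_covBy_left
        rw [hinf]; exact ha
      obtain ⟨t, ht1, ht2, ht3⟩ := ih (i + 1) k (by omega) hk (a ⊔ c (i + 1)) le_sup_right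
        (sup_le (hay.trans h2) (h.mono (by omega) hk))
      rw [ht3] at h4
      have h5 : t = i + 2 := by
        have h6 : i + 1 < t := (h.lt_iff (by omega) (by omega)).1 h4.lt
        by_contra hcon
        have h7 : i + 2 < t := by omega
        exact h4.2 (h.1 (i + 1) (by omega)).lt (h.lt h7 (by omega))
      subst h5
      apply h.2 i (by omega)
      rw [← ht3]
      exact sup_le (cov_le_s hs ha) (cov_le_s hs hi)

lemma le_it' (hs : IsUp s) (h : Str s c m) (i j : ℕ) (hk : i + j ≤ m) :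
    c (i + j) ≤ s^[j] (c i) := by
  induction j with
  | zero => exact le_rfl
  | succ j ih =>
    rw [Function.iterate_succ_apply']
    have h1 := h.1 (i + j) (by omega)
    exact (cov_le_s hs h1).trans (s_mono hs (ih (by omega)))

/-- `c (i + j + 1)` is not below `s^[j] (c i)` -/
lemma not_le_it (hF : LF L) (hs : IsUp s) (h : Str s c m) (i j : ℕ) (hk : i + j + 1 ≤ m) :
    ¬ c (i + j + 1) ≤ s^[j] (c i) := by
  induction j with
  | zero => exact fun h1 => (h.1 i (by omega)).lt.not_ge h1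
  | succ j ih =>
    intro hcon
    have ih' := ih (by omega)
    have hy0 := h.le_it' hs i j (by omega)
    rw [Function.iterate_succ_apply'] at hcon
    set y := s^[j] (c i) with hy
    have e1 : i + (j + 1) + 1 = i + j + 2 := by ring
    rw [e1] at hcon hk
    have hc01 := h.1 (i + j) (by omega)
    have hc12 := h.1 (i + j + 1) (by omega)
    have hc12' : c (i + j + 1) ≤ c (i + j + 2) := hc12.le
    have hc02 : c (i + j) ≤ c (i + j + 2) := hc01.le.trans hc12'
    have hicc : ∀ r, c (i + j) ≤ r → r ≤ c (i + j + 2) →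
        r = c (i + j) ∨ r = c (i + j + 1) ∨ r = c (i + j + 2) := by
      intro r h1 h2
      obtain ⟨t, ht1, ht2, rfl⟩ := icc hF hs h 2 (i + j) (i + j + 2) rfl hk r h1 h2
      have : t = i + j ∨ t = i + j + 1 ∨ t = i + j + 2 := by omega
      rcases this with rfl | rfl | rfl
      · exact Or.inl rfl
      · exact Or.inr (Or.inl rfl)
      · exact Or.inr (Or.inr rfl)
    have h2y : ¬ c (i + j + 2) ≤ y := fun h1 => ih' (hc12'.trans h1)
    -- `y ⊔ c (i+j+1) < y ⊔ c (i+j+2)`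
    have h3 : y ⊔ c (i + j + 1) < y ⊔ c (i + j + 2) := by
      apply lt_of_le_of_ne (sup_le_sup_left hc12' y)
      intro he
      have h4 : c (i + j + 2) ≤ c (i + j + 1) ⊔ y := by
        rw [sup_comm, he]; exact le_sup_right
      have h5 : (c (i + j + 1) ⊔ y) ⊓ c (i + j + 2) = c (i + j + 1) ⊔ y ⊓ c (i + j + 2) :=
        sup_inf_assoc_of_le y hc12'
      rw [inf_eq_right.2 h4] at h5
      rcases hicc (y ⊓ c (i + j + 2)) (le_inf hy0 hc02) inf_le_right with h6 | h6 | h6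
      · rw [h6, sup_eq_left.2 hc01.le] at h5
        exact hc12.lt.ne' h5
      · exact ih' (h6.symm.le.trans inf_le_left)
      · exact h2y (h6.symm.le.trans inf_le_left)
    obtain ⟨p, hp1, hp2, hp3⟩ := exists_cov_off hF hs (le_sup_left : y ≤ y ⊔ c (i + j + 1)) h3
      (sup_le (le_s hs y) hcon)
    have h4 : p = y ⊔ c (i + j + 2) ⊓ p := by
      rw [← sup_inf_assoc_of_le (c (i + j + 2)) hp1.le]
      exact (inf_eq_right.2 hp2).symm
    rcases hicc (c (i + j + 2) ⊓ p) (le_inf hc02 (hy0.trans hp1.le)) inf_le_left with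
      h6 | h6 | h6
    · rw [h6, sup_eq_left.2 hy0] at h4
      exact hp1.lt.ne' h4
    · rw [h6] at h4
      exact hp3 h4.le
    · rw [h6] at h4
      have h7 : y < y ⊔ c (i + j + 1) := lt_of_le_of_ne le_sup_left fun h8 => ih' (by
        rw [h8]; exact le_sup_right)
      rw [h4] at hp1
      exact hp1.2 h7 h3

/-- the intersection with an iterated socle -/
lemma inf_it (hF : LF L) (hs : IsUp s) (h : Str s c m) (i j k : ℕ) (h1 : i + j ≤ k) (hk : k ≤ m) :
    c k ⊓ s^[j] (c i) = c (i + j) := by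
  have h2 := h.le_it' hs i j (by omega)
  obtain ⟨t, ht1, ht2, ht3⟩ := icc hF hs h (k - (i + j)) (i + j) k (by omega) hk
    (c k ⊓ s^[j] (c i)) (le_inf (h.mono h1 hk) h2) inf_le_left
  rw [ht3]
  congr 1
  by_contra hcon
  apply h.not_le_it hF hs i j (by omega)
  calc c (i + j + 1) ≤ c t := h.mono (by omega) (by omega)
    _ = c k ⊓ s^[j] (c i) := ht3.symm
    _ ≤ s^[j] (c i) := inf_le_right

end Str

/-- strictly decreasing self-maps of `{0, …, m}` -/
lemma anti_nat (m : ℕ) (f : ℕ → ℕ) (h1 : ∀ i ≤ m, f i ≤ m)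
    (h2 : ∀ i k, i < k → k ≤ m → f k < f i) : ∀ i ≤ m, f i = m - i := by
  have h3 : ∀ i ≤ m, f i + i ≤ m := by
    intro i
    induction i with
    | zero => intro hi; have := h1 0 hi; omega
    | succ i ih =>
      intro hi
      have := ih (by omega)
      have := h2 i (i + 1) (by omega) hi
      omega
  have h4 : ∀ k i, i + k = m → k ≤ f i := by
    intro k
    induction k with
    | zero => intro i _; omega
    | succ k ih =>
      intro i hi
      have := ih (i + 1) (by omega)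
      have := h2 i (i + 1) (by omega) (by omega)
      omega
  intro i hi
  have := h3 i hi
  have := h4 (m - i) i (by omega)
  omega

section

variable [IsModularLattice L] (hF : LF L) (hSD : SD' L) (hs : IsUp s) {z t : L} (hK : Key s z t)
include hF hSD hs hK

lemma chain_anti1 (j : ℕ) {c : ℕ → L} {m : ℕ} (hc : Str s c m) (hz : z ≤ c 0)
    (ht : s^[j] (c m) ≤ t) (d : IAnti (c 0) (s^[j] (c m)) (c 0) (s^[j] (c m))) :
    ∀ i ≤ m, d.f (s^[j] (c i)) = c (m - i) := by
  have h0m : c 0 ≤ c m := hc.mono (Nat.zero_le m) le_rfl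
  have k1 := keyj_top hSD hs hK j hz h0m ht d
  have hin : ∀ i ≤ m, c 0 ≤ s^[j] (c i) ∧ s^[j] (c i) ≤ s^[j] (c m) := fun i hi =>
    ⟨(hc.mono (Nat.zero_le i) hi).trans (le_it hs j _), it_mono hs j (hc.mono hi le_rfl)⟩
  have h1 : ∀ i, ∃ k, i ≤ m → k ≤ m ∧ d.f (s^[j] (c i)) = c k := by
    intro i
    by_cases hi : i ≤ m
    · have h2 := d.fm _ (hin i hi).1 (hin i hi).2
      have h3 : d.f (s^[j] (c i)) ≤ c m :=
        ((d.le _ _ (hin i hi).1 (hin i hi).2 (hin 0 (Nat.zero_le m)).1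
          (hin 0 (Nat.zero_le m)).2).2 (it_mono hs j (hc.mono (Nat.zero_le i) hi))).trans k1.le
      obtain ⟨k, -, hk, he⟩ := hc.icc hF hs m 0 m (by omega) le_rfl _ h2.1 h3
      exact ⟨k, fun _ => ⟨hk, he⟩⟩
    · exact ⟨0, fun h => absurd h hi⟩
  choose f hf using h1
  have h2 : ∀ i k, i < k → k ≤ m → f k < f i := by
    intro i k hik hk
    have hi : i ≤ m := by omega
    have h3 : s^[j] (c i) < s^[j] (c k) :=
      it_lt hSD hs hK j (hz.trans (hc.mono (Nat.zero_le i) hi)) (hc.lt hik hk)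
        ((hin k hk).2.trans ht)
    rw [← hc.lt_iff (hf k hk).1 (hf i hi).1, ← (hf k hk).2, ← (hf i hi).2,
      d.lt (hin k hk).1 (hin k hk).2 (hin i hi).1 (hin i hi).2]
    exact h3
  intro i hi
  rw [(hf i hi).2, anti_nat m f (fun i hi => (hf i hi).1) h2 i hi]

/-- anti-automorphisms of `[c 0, (c m)_j]` -/
lemma chain_anti (j : ℕ) {c : ℕ → L} {m : ℕ} (hc : Str s c m) (hz : z ≤ c 0)
    (ht : s^[j] (c m) ≤ t) (d : IAnti (c 0) (s^[j] (c m)) (c 0) (s^[j] (c m))) :
    ∀ i ≤ m, d.f (s^[j] (c i)) = c (m - i) ∧ d.f (c i) = s^[j] (c (m - i)) := by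
  intro i hi
  refine ⟨chain_anti1 hF hSD hs hK j hc hz ht d i hi, ?_⟩
  have h1 : d.g (s^[j] (c (m - i))) = c (m - (m - i)) :=
    chain_anti1 hF hSD hs hK j hc hz ht d.symm (m - i) (by omega)
  have h2 : m - (m - i) = i := by omega
  rw [h2] at h1
  have h3 := d.fg (s^[j] (c (m - i)))
    ((hc.mono (Nat.zero_le _) (Nat.sub_le m i)).trans (le_it hs j _))
    (it_mono hs j (hc.mono (Nat.sub_le m i) le_rfl))
  rwa [h1] at h3

/-- automorphisms of `[c 0, (c m)_j]` fix the chain -/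
lemma chain_auto (j : ℕ) {c : ℕ → L} {m : ℕ} (hc : Str s c m) (hz : z ≤ c 0)
    (ht : s^[j] (c m) ≤ t) (g : IIso (c 0) (s^[j] (c m)) (c 0) (s^[j] (c m))) :
    ∀ i ≤ m, g.f (s^[j] (c i)) = s^[j] (c i) ∧ g.f (c i) = c i := by
  intro i hi
  have h0 : c 0 ≤ s^[j] (c m) := (hc.mono (Nat.zero_le m) le_rfl).trans (le_it hs j _)
  obtain ⟨d⟩ := exists_anti hSD h0
  have h1 := chain_anti hF hSD hs hK j hc hz ht (g.transAnti d) i hi
  have h2 := chain_anti hF hSD hs hK j hc hz ht d i hi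
  have h3 : c 0 ≤ s^[j] (c i) ∧ s^[j] (c i) ≤ s^[j] (c m) :=
    ⟨(hc.mono (Nat.zero_le i) hi).trans (le_it hs j _), it_mono hs j (hc.mono hi le_rfl)⟩
  have h4 : c 0 ≤ c i ∧ c i ≤ s^[j] (c m) :=
    ⟨hc.mono (Nat.zero_le i) hi, (hc.mono hi le_rfl).trans (le_it hs j _)⟩
  have h5 := g.fm _ h3.1 h3.2
  have h6 := g.fm _ h4.1 h4.2
  constructor
  · apply d.inj h5.1 h5.2 h3.1 h3.2
    exact h1.1.trans h2.1.symm
  · apply d.inj h6.1 h6.2 h4.1 h4.2
    exact h1.2.trans h2.2.symm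

end

end Pool.Agent.RIG
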