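import Pool.Agent.RIG.KeyJ
import Pool.Agent.RIG.Chain

set_option autoImplicit false

/-! Intervals which are chains with `m + 1` elements. -/

namespace Pool.Agent.RIG

open Pool.Agent.Helper87.ML Pool.Agent.Helper87.ML2 OrderDual

universe u

variable {L : Type u} [Lattice L] {s : L → L}

/-- `[a, b]` is a chain with `m + 1` elements -/
def CI (a b : L) (m : ℕ) : Prop :=
  (∀ y w, a ≤ y → y ≤ b → a ≤ w → w ≤ b → y ≤ w ∨ w ≤ y) ∧ (Set.Icc a b).ncard = m + 1

variable {a b c d : L} {m : ℕ}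

lemma CI.le (h : CI a b m) : a ≤ b := by
  by_contra hcon
  have h1 := h.2
  rw [Set.Icc_eq_empty hcon, Set.ncard_empty] at h1
  omega

lemma ncard_iso (φ : IIso a b c d) : (Set.Icc c d).ncard = (Set.Icc a b).ncard := by
  have h1 : Set.Icc c d = φ.f '' Set.Icc a b := by
    ext y
    constructor
    · rintro ⟨h1, h2⟩
      have h3 := φ.gm y h1 h2
      exact ⟨φ.g y, h3, φ.fg y h1 h2⟩
    · rintro ⟨x, hx, rfl⟩
      exact φ.fm x hx.1 hx.2
  rw [h1]
  apply Set.InjOn.ncard_image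
  intro x hx y hy h
  exact φ.inj hx.1 hx.2 hy.1 hy.2 h

lemma ncard_anti (φ : IAnti a b c d) : (Set.Icc c d).ncard = (Set.Icc a b).ncard := by
  have h1 : Set.Icc c d = φ.f '' Set.Icc a b := by
    ext y
    constructor
    · rintro ⟨h1, h2⟩
      have h3 := φ.gm y h1 h2
      exact ⟨φ.g y, h3, φ.fg y h1 h2⟩
    · rintro ⟨x, hx, rfl⟩
      exact φ.fm x hx.1 hx.2
  rw [h1]
  apply Set.InjOn.ncard_image
  intro x hx y hy h
  exact φ.inj hx.1 hx.2 hy.1 hy.2 h

lemma CI.iso (h : CI a b m) (φ : IIso a b c d) : CI c d m := by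
  refine ⟨fun y w h1 h2 h3 h4 => ?_, (ncard_iso φ).trans h.2⟩
  have h5 := φ.gm y h1 h2
  have h6 := φ.gm w h3 h4
  rcases h.1 _ _ h5.1 h5.2 h6.1 h6.2 with h7 | h7
  · left
    exact (φ.symm.le y w h1 h2 h3 h4).1 h7
  · right
    exact (φ.symm.le w y h3 h4 h1 h2).1 h7

lemma CI.anti (h : CI a b m) (φ : IAnti a b c d) : CI c d m := by
  refine ⟨fun y w h1 h2 h3 h4 => ?_, (ncard_anti φ).trans h.2⟩
  have h5 := φ.gm y h1 h2
  have h6 := φ.gm w h3 h4
  rcases h.1 _ _ h5.1 h5.2 h6.1 h6.2 with h7 | h7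
  · right
    exact (φ.symm.le y w h1 h2 h3 h4).1 h7
  · left
    exact (φ.symm.le w y h3 h4 h1 h2).1 h7

/-- the diamond isomorphism -/
lemma CI.diamond [IsModularLattice L] {p q : L} (h : CI (p ⊓ q) p m) : CI q (p ⊔ q) m := by
  let e := infIccOrderIsoIccSup p q
  exact h.iso (IIso.ofIso e)

lemma CI.seq (hF : LF L) : ∀ (m : ℕ) (a : L), CI a b m →
    ∃ v : ℕ → L, v 0 = a ∧ v m = b ∧ (∀ i, i < m → v i ⋖ v (i + 1)) ∧ ∀ i, i ≤ m → a ≤ v i := by
  intro m
  induction m with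
  | zero =>
    intro a h
    have hab := h.le
    obtain ⟨y, hy⟩ := Set.ncard_eq_one.1 h.2
    have h1 : a ∈ Set.Icc a b := ⟨le_rfl, hab⟩
    have h2 : b ∈ Set.Icc a b := ⟨hab, le_rfl⟩
    rw [hy] at h1 h2
    have h3 : b = a := h2.trans h1.symm
    exact ⟨fun _ => a, rfl, h3.symm, fun i hi => absurd hi (by omega), fun _ _ => le_rfl⟩
  | succ m ih =>
    intro a h
    have hab : a < b := by
      apply lt_of_le_of_ne h.le
      rintro rfl
      have h1 := h.2
      rw [Set.Icc_self, Set.ncard_singleton] at h1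
      omega
    obtain ⟨p, hp, hpb⟩ := lf_cov hF hab
    have h1 : Set.Icc a b = insert a (Set.Icc p b) := by
      ext y
      constructor
      · rintro ⟨h1, h2⟩
        rcases h.1 y p h1 h2 hp.le hpb with h3 | h3
        · rcases eq_or_lt_of_le h1 with h4 | h4
          · exact Or.inl h4.symm
          · right
            rcases eq_or_lt_of_le h3 with h5 | h5
            · exact ⟨h5.ge, h2⟩
            · exact absurd h5 (hp.2 h4)
        · exact Or.inr ⟨h3, h2⟩
      · rintro (rfl | h1)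
        · exact ⟨le_rfl, hab.le⟩
        · exact ⟨hp.le.trans h1.1, h1.2⟩
    have h2 := h.2
    rw [h1, Set.ncard_insert_of_notMem (fun h3 => hp.lt.not_ge h3.1) (hF p b)] at h2
    have h3 : CI p b m := ⟨fun y w k1 k2 k3 k4 => h.1 y w (hp.le.trans k1) k2 (hp.le.trans k3) k4,
      by omega⟩
    obtain ⟨v, hv0, hvm, hv, hv'⟩ := ih p h3
    refine ⟨fun i => Nat.casesOn i a v, rfl, hvm, ?_, ?_⟩
    · intro i hi
      rcases i with _ | i
      · show a ⋖ v 0
        rw [hv0]; exact hp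
      · exact hv i (by omega)
    · intro i hi
      rcases i with _ | i
      · exact le_rfl
      · exact hp.le.trans (hv' i (by omega))

/-- a chain interval gives a straight chain -/
lemma CI.str [IsModularLattice L] (hF : LF L) (hs : IsUp s) (h : CI a b m) :
    ∃ v : ℕ → L, v 0 = a ∧ v m = b ∧ Str s v m := by
  obtain ⟨v, hv0, hvm, hv, hv'⟩ := CI.seq hF m a h
  refine ⟨v, hv0, hvm, hv, fun i hi hcon => ?_⟩
  have h1 := hv i (by omega)
  have h2 := hv (i + 1) (by omega)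
  obtain ⟨p, hp1, hp2, hp3⟩ := exists_cov_off hF hs h1.le h2.lt hcon
  have hmono : ∀ k, i + 2 ≤ k → k ≤ m → v (i + 2) ≤ v k := by
    intro k hk
    induction k, hk using Nat.le_induction with
    | base => exact fun _ => le_rfl
    | succ k hk ih => exact fun h3 => (ih (by omega)).trans (hv k (by omega)).le
  have h2b : v (i + 2) ≤ b := by
    rw [← hvm]; exact hmono m hi le_rfl
  have hai := hv' i (by omega)
  rcases h.1 p (v (i + 1)) (hai.trans hp1.le) (hp2.trans h2b) (hai.trans h1.le)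
    (h2.le.trans h2b) with h3 | h3
  · exact hp3 h3
  · rcases eq_or_lt_of_le h3 with h4 | h4
    · exact hp3 h4.ge
    · exact hp1.2 h1.lt h4

/-- straight chains can be prolonged upwards -/
lemma Str.ext [IsModularLattice L] (hF : LF L) (hSD : SD' L) (hs : IsUp s) {z t : L}
    (hK : Key s z t) {v : ℕ → L} (h : Str s v m) (hm : 1 ≤ m) (hz : z ≤ v 0) :
    ∀ k, s^[k + 1] (v m) ≤ t → ∃ v', Str s v' (m + k) ∧ ∀ i, i ≤ m → v' i = v i := by
  intro k
  induction k with
  | zero => exact fun _ => ⟨v, h, fun _ _ => rfl⟩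
  | succ k ih =>
    intro ht
    obtain ⟨v', hv', he⟩ := ih ((it_le_it hs (Nat.le_succ _) _).trans ht)
    -- the last two members
    have e1 : m + k - 1 + 1 = m + k := by omega
    have h1 := hv'.1 (m + k - 1) (by omega)
    rw [e1] at h1
    have h2 : v' (m + k) ≤ s^[k] (v m) := by
      have := hv'.le_it' hs m k le_rfl
      rwa [he m le_rfl] at this
    have h3 : s (v' (m + k)) ≤ t := by
      have h4 : s (v' (m + k)) ≤ s^[k + 1] (v m) := by
        rw [Function.iterate_succ_apply']; exact s_mono hs h2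
      exact h4.trans ((it_le_it hs (Nat.le_succ _) _).trans ht)
    have h5 : z ≤ v' (m + k - 1) := by
      have := hv'.mono (Nat.zero_le (m + k - 1)) (by omega)
      rw [he 0 (Nat.zero_le _)] at this
      exact hz.trans this
    have h6 : s (v' (m + k - 1)) < s (v' (m + k)) :=
      it_lt hSD hs hK 1 h5 h1.lt h3
    obtain ⟨p, hp1, hp2, hp3⟩ := exists_cov_off hF hs (cov_le_s hs h1) h6 le_rfl
    refine ⟨fun i => if i ≤ m + k then v' i else p, ⟨?_, ?_⟩, ?_⟩
    · intro i hi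
      show (if i ≤ m + k then v' i else p) ⋖ (if i + 1 ≤ m + k then v' (i + 1) else p)
      rw [if_pos (show i ≤ m + k by omega)]
      by_cases h7 : i + 1 ≤ m + k
      · rw [if_pos h7]
        exact hv'.1 i (by omega)
      · rw [if_neg h7]
        have h8 : i = m + k := by omega
        rw [h8]; exact hp1
    · intro i hi
      show ¬ (if i + 2 ≤ m + k then v' (i + 2) else p) ≤ s (if i ≤ m + k then v' i else p)
      rw [if_pos (show i ≤ m + k by omega)]
      by_cases h7 : i + 2 ≤ m + k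
      · rw [if_pos h7]
        exact hv'.2 i h7
      · rw [if_neg h7]
        have h8 : i = m + k - 1 := by omega
        rw [h8]; exact hp3
    · intro i hi
      show (if i ≤ m + k then v' i else p) = v i
      rw [if_pos (show i ≤ m + k by omega)]
      exact he i hi

section

variable [IsModularLattice L] (hF : LF L) (hSD : SD' L) (hs : IsUp s) {z t : L} (hK : Key s z t)
include hF hSD hs hK

/-- every `l ≥ z_j` is `w_j` for some `w ≥ z` -/
lemma surj0 (j : ℕ) {l : L} (h1 : s^[j] z ≤ l) (ht : s^[j] l ≤ t) :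
    ∃ w, z ≤ w ∧ w ≤ l ∧ s^[j] w = l := by
  have hzx : z ≤ s^[j] z := le_it hs j z
  have hzl : z ≤ l := hzx.trans h1
  obtain ⟨d⟩ := exists_anti hSD hzl
  have hw := d.fm (s^[j] z) hzx h1
  have hdz : d.f z = l := d.bot hzl hzl
  have a1 : IAnti z (s^[j] z) (d.f (s^[j] z)) l :=
    (d.restr le_rfl hzx h1).cast rfl rfl rfl hdz
  obtain ⟨φ⟩ := iso_of_anti hSD hw.2 a1
  obtain ⟨w, hwd⟩ : ∃ w, w = d.f (s^[j] z) := ⟨_, rfl⟩
  rw [← hwd] at hw φ
  have h3 : l ≤ s^[j] w := by
    have h4 := iso_it_le hs φ j le_rfl hw.2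
    rwa [φ.top hzx hw.2] at h4
  have h5 : s^[j] w ≤ t := (it_mono hs j hw.2).trans ht
  obtain ⟨ψ⟩ := cube_iso hSD hs hK j le_rfl hw.1 h5
  have h6 : (Set.Icc w (s^[j] w)).ncard = (Set.Icc w l).ncard :=
    (ncard_iso ψ).trans (ncard_iso φ).symm
  have h7 : Set.Icc w l = Set.Icc w (s^[j] w) :=
    Set.eq_of_subset_of_ncard_le (fun y hy => ⟨hy.1, hy.2.trans h3⟩) h6.le (hF _ _)
  have h8 : s^[j] w ∈ Set.Icc w l := by
    rw [h7]; exact ⟨le_it hs j w, le_rfl⟩
  exact ⟨w, hw.1, hw.2, le_antisymm h8.2 h3⟩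

/-- every element of `[z_j, z_(2j)]` is `w_j` for some `w` in `[z, z_j]` -/
lemma surj (j : ℕ) {l : L} (h1 : s^[j] z ≤ l) (h2 : l ≤ s^[j] (s^[j] z))
    (ht : s^[j] (s^[j] (s^[j] z)) ≤ t) : ∃ w, z ≤ w ∧ w ≤ s^[j] z ∧ s^[j] w = l := by
  obtain ⟨w, h3, h4, h5⟩ := surj0 hF hSD hs hK j h1 ((it_mono hs j h2).trans ht)
  refine ⟨w, h3, ?_, h5⟩
  apply it_refl hSD hs hK j h3 (le_it hs j z) (h5 ▸ (h2.trans ((le_it hs j _).trans ht)))
    ((le_it hs j _).trans ht)
  rw [h5]; exact h2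

end

end Pool.Agent.RIG
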