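import Pool.Agent.RIG.Plane
import Pool.Agent.Helper87.ML2.Plane

set_option autoImplicit false

/-! Automorphism groups of finite projective planes which are transitive on antiflags are doubly
transitive on the points. -/

namespace Pool.Agent.RIG

open Pool.Agent.Helper87.ML Pool.Agent.Helper87.ML2 OrderDual

universe u

variable {P : Type u} [Lattice P] [BoundedOrder P]

lemma atom_map (φ : P ≃o P) {a : P} (h : ⊥ ⋖ a) : ⊥ ⋖ φ a := by
  have := (apply_covBy_apply_iff φ).2 h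
  rwa [φ.map_bot] at this

lemma coatom_map (φ : P ≃o P) {a : P} (h : a ⋖ ⊤) : φ a ⋖ ⊤ := by
  have := (apply_covBy_apply_iff φ).2 h
  rwa [φ.map_top] at this

section

variable [Finite P] (hP : IsPlane (⊥ : P) ⊤)
  (h2 : ∀ m a b : P, m ⋖ ⊤ → ⊥ ⋖ a → ⊥ ⋖ b → ¬ a ≤ m → ¬ b ≤ m →
    ∃ φ : P ≃o P, φ m = m ∧ φ a = b)
  (h3 : ∀ m m' : P, m ⋖ ⊤ → m' ⋖ ⊤ → ∃ φ : P ≃o P, φ m = m')

omit [Finite P] in
include h2 h3 in
/-- the stabiliser of a point is transitive on the lines off the point -/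
lemma off_trans {p m m' : P} (hp : ⊥ ⋖ p) (hm : m ⋖ ⊤) (hm' : m' ⋖ ⊤) (hpm : ¬ p ≤ m)
    (hpm' : ¬ p ≤ m') : ∃ φ : P ≃o P, φ p = p ∧ φ m = m' := by
  obtain ⟨ψ, hψ⟩ := h3 m m' hm hm'
  have h4 : ¬ ψ p ≤ m' := by
    rw [← hψ, ψ.le_iff_le]; exact hpm
  obtain ⟨φ, h5, h6⟩ := h2 m' (ψ p) p hm' (atom_map ψ hp) hp h4 hpm'
  exact ⟨ψ.trans φ, h6, by rw [OrderIso.trans_apply, hψ, h5]⟩

include hP h2 h3 in
/-- points collinear with `p` are in the same orbit of the stabiliser of `p` -/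
lemma same_orbit {p a a' l : P} (hp : ⊥ ⋖ p) (ha : ⊥ ⋖ a) (ha' : ⊥ ⋖ a') (hpa : a ≠ p)
    (hpa' : a' ≠ p) (hl : l ⋖ ⊤) (hpl : p ≤ l) (hal : a ≤ l) (hal' : a' ≤ l) :
    ∃ φ : P ≃o P, φ p = p ∧ φ a = a' := by
  classical
  have hfin : Fintype P := Fintype.ofFinite P
  by_contra hcon
  -- the orbit
  let D : Finset P := Finset.univ.filter fun b => ∃ φ : P ≃o P, φ p = p ∧ φ a = b
  have hD : ∀ b, b ∈ D ↔ ∃ φ : P ≃o P, φ p = p ∧ φ a = b := fun b => by simp [D]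
  have haD : a ∈ D := (hD a).2 ⟨OrderIso.refl P, rfl, rfl⟩
  have haD' : a' ∉ D := fun h => hcon ((hD a').1 h)
  have hDat : ∀ b ∈ D, ⊥ ⋖ b := by
    intro b hb
    obtain ⟨φ, -, rfl⟩ := (hD b).1 hb
    exact atom_map φ ha
  have hDp : ∀ b ∈ D, b ≠ p := by
    intro b hb h
    obtain ⟨φ, h4, rfl⟩ := (hD b).1 hb
    exact hpa (φ.injective (h.trans h4.symm))
  -- constant number of points on the lines off `p`
  have hcst : ∀ m m' : P, m ⋖ ⊤ → m' ⋖ ⊤ → ¬ p ≤ m → ¬ p ≤ m' →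
      (D.filter fun b => b ≤ m).card ≤ (D.filter fun b => b ≤ m').card := by
    intro m m' hm hm' hpm hpm'
    obtain ⟨φ, h4, h5⟩ := off_trans h2 h3 hp hm hm' hpm hpm'
    apply Finset.card_le_card_of_injOn (fun b => φ b)
    · intro b hb
      simp only [Finset.coe_filter, Set.mem_ofPred_eq] at hb ⊢
      obtain ⟨ψ, h6, h7⟩ := (hD b).1 hb.1
      refine ⟨(hD _).2 ⟨ψ.trans φ, by rw [OrderIso.trans_apply, h6, h4], by
        rw [OrderIso.trans_apply, h7]⟩, ?_⟩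
      rw [← h5, φ.le_iff_le]; exact hb.2
    · intro b _ b' _ h
      exact φ.injective h
  -- the number of points of the orbit off `l`, seen from a point `x` of `l`
  have hcount : ∀ x, ⊥ ⋖ x → x ≤ l → x ≠ p → ∀ c k : ℕ,
      (∀ n, x ≤ n → n ⋖ ⊤ → n ≠ l → (D.filter fun b => b ≤ n ∧ b ≠ x).card = c) →
      (Finset.univ.filter fun n => x ≤ n ∧ n ⋖ (⊤ : P) ∧ n ≠ l).card = k →
      (D.filter fun b => ¬ b ≤ l).card = k * c := by
    intro x hx hxl hxp c k hc hk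
    rw [← hk]
    have hmaps : ∀ b ∈ D.filter (fun b => ¬ b ≤ l), x ⊔ b ∈
        (Finset.univ.filter fun n => x ≤ n ∧ n ⋖ (⊤ : P) ∧ n ≠ l) := by
      intro b hb
      simp only [Finset.mem_filter, Finset.mem_univ, true_and] at hb ⊢
      have hxb : x ≠ b := fun h => hb.2 (h ▸ hxl)
      refine ⟨le_sup_left, (sup_points hP hx (hDat b hb.1) hxb).2, ?_⟩
      intro h
      exact hb.2 (h ▸ le_sup_right)
    rw [Finset.card_eq_sum_card_fiberwise hmaps, Finset.sum_const_nat]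
    intro n hn
    simp only [Finset.mem_filter, Finset.mem_univ, true_and] at hn
    rw [← hc n hn.1 hn.2.1 hn.2.2]
    congr 1
    ext b
    simp only [Finset.mem_filter]
    constructor
    · rintro ⟨⟨h4, h5⟩, h6⟩
      exact ⟨h4, by rw [← h6]; exact le_sup_right, fun h => h5 (h ▸ hxl)⟩
    · rintro ⟨h4, h5, h6⟩
      have h7 : x ⊔ b = n := sup_points_eq hP hx (hDat b h4) (Ne.symm h6) hn.2.1 hn.1 h5
      refine ⟨⟨h4, fun h => ?_⟩, h7⟩
      have h8 : x ⊔ b = l := sup_points_eq hP hx (hDat b h4) (Ne.symm h6) hl hxl h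
      exact hn.2.2 (h7.symm.trans h8)
  -- lines through a point of `l` other than `p` are off `p`
  have hoff : ∀ x, ⊥ ⋖ x → x ≤ l → x ≠ p → ∀ n, x ≤ n → n ⋖ ⊤ → n ≠ l → ¬ p ≤ n := by
    intro x hx hxl hxp n hxn hn hnl hpn
    have h4 := sup_points_eq hP hx hp hxp hn hxn hpn
    have h5 := sup_points_eq hP hx hp hxp hl hxl hpl
    exact hnl (h4.symm.trans h5)
  -- the number of lines
  have hF : LF P := fun x y => Set.toFinite _
  have hk : ∀ x, ⊥ ⋖ x → x ≤ l →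
      (Finset.univ.filter fun n => x ≤ n ∧ n ⋖ (⊤ : P) ∧ n ≠ l).card + 1 =
        (pts (⊥ : P) l).ncard := by
    intro x hx hxl
    rw [← plane_pencil hF hP hx le_top bot_le hl]
    have h4 : {n | x ≤ n ∧ n ⋖ (⊤ : P)} = (insert l (Finset.univ.filter fun n => x ≤ n ∧
        n ⋖ (⊤ : P) ∧ n ≠ l) : Finset P) := by
      ext n
      simp only [Set.mem_ofPred_eq, Finset.coe_insert, Finset.coe_filter, Finset.mem_univ, true_and,
        Set.mem_insert_iff]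
      constructor
      · rintro ⟨h5, h6⟩
        by_cases h7 : n = l
        · exact Or.inl h7
        · exact Or.inr ⟨h5, h6, h7⟩
      · rintro (rfl | ⟨h5, h6, -⟩)
        · exact ⟨hxl, hl⟩
        · exact ⟨h5, h6⟩
    rw [h4, Set.ncard_coe_finset, Finset.card_insert_of_notMem (by simp)]
  have hk3 : 3 ≤ (pts (⊥ : P) l).ncard := by
    obtain ⟨x, y, z, ⟨hx, hy, hz⟩, ⟨hxl, hyl, hzl⟩, hxy, hxz, hyz⟩ := hP.2.2.2.1 l bot_le hl
    rw [← Set.ncard_eq_three.2 ⟨x, y, z, hxy, hxz, hyz, rfl⟩]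
    apply Set.ncard_le_ncard _ (pts_fin hF _ _)
    rintro w (rfl | rfl | rfl)
    · exact ⟨hx, hxl⟩
    · exact ⟨hy, hyl⟩
    · exact ⟨hz, hzl⟩
  have hka := hk a ha hal
  have hka' := hk a' ha' hal'
  obtain ⟨n0, hn0⟩ : (Finset.univ.filter fun n => a ≤ n ∧ n ⋖ (⊤ : P) ∧ n ≠ l).Nonempty := by
    rw [← Finset.card_pos]; omega
  simp only [Finset.mem_filter, Finset.mem_univ, true_and] at hn0
  -- the constant
  have hn0p := hoff a ha hal hpa n0 hn0.1 hn0.2.1 hn0.2.2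
  set c := (D.filter fun b => b ≤ n0).card with hcdef
  have hcc : ∀ m, m ⋖ ⊤ → ¬ p ≤ m → (D.filter fun b => b ≤ m).card = c := fun m hm hpm =>
    le_antisymm (hcst m n0 hm hn0.2.1 hpm hn0p) (hcst n0 m hn0.2.1 hm hn0p hpm)
  have hc1 : 1 ≤ c := by
    rw [hcdef, Nat.succ_le_iff, Finset.card_pos]
    exact ⟨a, by simp [haD, hn0.1]⟩
  have e1 := hcount a ha hal hpa (c - 1) _ (by
    intro n h4 h5 h6
    rw [← hcc n h5 (hoff a ha hal hpa n h4 h5 h6)]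
    have h7 : (D.filter fun b => b ≤ n ∧ b ≠ a) = (D.filter fun b => b ≤ n).erase a := by
      ext b
      simp only [Finset.mem_filter, Finset.mem_erase]
      tauto
    rw [h7, Finset.card_erase_of_mem (by simp [haD, h4])]) rfl
  have e2 := hcount a' ha' hal' hpa' c _ (by
    intro n h4 h5 h6
    rw [← hcc n h5 (hoff a' ha' hal' hpa' n h4 h5 h6)]
    congr 1
    ext b
    simp only [Finset.mem_filter]
    constructor
    · rintro ⟨h7, h8, -⟩; exact ⟨h7, h8⟩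
    · rintro ⟨h7, h8⟩
      exact ⟨h7, h8, fun h => haD' (h ▸ h7)⟩) rfl
  rw [e1] at e2
  have e3 : (Finset.univ.filter fun n => a ≤ n ∧ n ⋖ (⊤ : P) ∧ n ≠ l).card =
      (Finset.univ.filter fun n => a' ≤ n ∧ n ⋖ (⊤ : P) ∧ n ≠ l).card := by omega
  rw [← e3] at e2
  have e4 : 0 < (Finset.univ.filter fun n => a ≤ n ∧ n ⋖ (⊤ : P) ∧ n ≠ l).card := by omega
  have e5 := Nat.eq_of_mul_eq_mul_left e4 e2
  omega

include hP h2 h3 in
/-- antiflag transitive groups are transitive on the points of a line -/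
lemma line_trans {m a b : P} (hm : m ⋖ ⊤) (ha : ⊥ ⋖ a) (hb : ⊥ ⋖ b) (ham : a ≤ m) (hbm : b ≤ m) :
    ∃ φ : P ≃o P, φ m = m ∧ φ a = b := by
  -- a third point
  obtain ⟨c, hc, hcm, hca, hcb⟩ : ∃ c, ⊥ ⋖ c ∧ c ≤ m ∧ c ≠ a ∧ c ≠ b := by
    obtain ⟨x, y, z, ⟨hx, hy, hz⟩, ⟨hxm, hym, hzm⟩, hxy, hxz, hyz⟩ := hP.2.2.2.1 m bot_le hm
    by_cases c1 : x = a ∨ x = b
    · by_cases c2 : y = a ∨ y = b
      · refine ⟨z, hz, hzm, ?_, ?_⟩
        · rintro rfl
          rcases c1 with c1 | c1 <;> rcases c2 with c2 | c2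
          · exact hxy (c1.trans c2.symm)
          · exact hxz c1
          · exact hyz c2
          · exact hxy (c1.trans c2.symm)
        · rintro rfl
          rcases c1 with c1 | c1 <;> rcases c2 with c2 | c2
          · exact hxy (c1.trans c2.symm)
          · exact hyz c2
          · exact hxz c1
          · exact hxz c1
      · push Not at c2
        exact ⟨y, hy, hym, c2.1, c2.2⟩
    · push Not at c1
      exact ⟨x, hx, hxm, c1.1, c1.2⟩
  obtain ⟨φ, h4, h5⟩ := same_orbit hP h2 h3 hc ha hb (Ne.symm hca) (Ne.symm hcb) hm hcm ham hbm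
  refine ⟨φ, ?_, h5⟩
  have h6 := sup_points_eq hP hc ha hca hm hcm ham
  have h7 := sup_points_eq hP hc hb hcb hm hcm hbm
  calc φ m = φ (c ⊔ a) := by rw [h6]
    _ = φ c ⊔ φ a := φ.map_sup _ _
    _ = m := by rw [h4, h5, h7]

include hP h2 h3 in
theorem two_trans (h1 : ∀ a b : P, ⊥ ⋖ a → ⊥ ⋖ b → ∃ φ : P ≃o P, φ a = b) {a b c d : P}
    (ha : ⊥ ⋖ a) (hb : ⊥ ⋖ b) (hc : ⊥ ⋖ c) (hd : ⊥ ⋖ d) (hab : a ≠ b) (hcd : c ≠ d) :
    ∃ φ : P ≃o P, φ a = c ∧ φ b = d := by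
  obtain ⟨φ0, h4⟩ := h1 a c ha hc
  have hb' := atom_map φ0 hb
  have hcb' : c ≠ φ0 b := by
    rw [← h4]; exact fun h => hab (φ0.injective h)
  have l1 := (sup_points hP hc hb' hcb').2
  have l2 := (sup_points hP hc hd hcd).2
  obtain ⟨ψ, h5⟩ := h3 _ _ l1 l2
  have hψc : ψ c ≤ c ⊔ d := by
    rw [← h5, ψ.le_iff_le]; exact le_sup_left
  obtain ⟨χ, h6, h7⟩ := line_trans hP h2 h3 l2 (atom_map ψ hc) hc hψc le_sup_left
  -- `g = χ ψ` fixes `c` and maps the line `c b'` to `c d`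
  have hg1 : χ (ψ c) = c := h7
  have hg2 : χ (ψ (φ0 b)) ≤ c ⊔ d := by
    calc χ (ψ (φ0 b)) ≤ χ (ψ (c ⊔ φ0 b)) := by
          rw [χ.le_iff_le, ψ.le_iff_le]; exact le_sup_right
      _ = c ⊔ d := by rw [h5, h6]
  have hgb := atom_map χ (atom_map ψ hb')
  have hgc : χ (ψ (φ0 b)) ≠ c := by
    intro h
    apply hcb'
    apply ψ.injective
    apply χ.injective
    rw [h, hg1]
  obtain ⟨ω, h8, h9⟩ := same_orbit hP h2 h3 hc hgb hd hgc (Ne.symm hcd) l2 le_sup_left hg2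
    le_sup_right
  refine ⟨((φ0.trans ψ).trans χ).trans ω, ?_, ?_⟩
  · simp only [OrderIso.trans_apply]
    rw [h4, hg1, h8]
  · simp only [OrderIso.trans_apply]
    exact h9

end

end Pool.Agent.RIG
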