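import Pool.Agent.RIG.Shift
import Pool.Agent.RIG.Count

set_option autoImplicit false

/-! Planes at depth four in modular lattices with self-dual intervals have doubly transitive
automorphism groups. -/

namespace Pool.Agent.RIG

open Pool.Agent.Helper87.ML Pool.Agent.Helper87.ML2 OrderDual

universe u

variable {L : Type u} [Lattice L]

/-- the top of a plane is the join of the points -/
lemma plane_le_of_points (hF : LF L) {v t x : L} (h : IsPlane v t) (hvx : v ≤ x) (hvt : v ≤ t)
    (hx : ∀ p, v ⋖ p → p ≤ t → p ≤ x) : t ≤ x := by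
  by_contra hcon
  have h1 : x ⊓ t < t := lt_of_le_of_ne inf_le_right (fun h => hcon (inf_eq_right.1 h))
  obtain ⟨m, h2, h3⟩ := lf_cov' hF h1
  have hvm : v ≤ m := (le_inf hvx hvt).trans h2
  obtain ⟨-, -, -, -, p, q, r, ⟨hp, hq, hr⟩, ⟨hpt, hqt, hrt⟩, -, hno⟩ := h
  exact hno m hvm h3 ⟨(le_inf (hx p hp hpt) hpt).trans h2, (le_inf (hx q hq hqt) hqt).trans h2,
    (le_inf (hx r hr hrt) hrt).trans h2⟩

variable {s : L → L} [IsModularLattice L]

/-- the lines of the plane over `z⁺` come from covers -/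
lemma lines_up (hF : LF L) (hSD : SD' L) (hs : IsUp s) {z m : L} (hz : IsPlane z (s z))
    (hz1 : IsPlane (s z) (s (s z))) (hreg : ∀ y, z ≤ y → y ≤ s (s z) → IsPlane y (s y))
    (hm : s z ≤ m) (hm2 : m ⋖ s (s z)) : ∃ w, w ⋖ s z ∧ z ≤ w ∧ s w = m := by
  have hz0 := le_s hs z
  have hzm : z ≤ m := hz0.trans hm
  obtain ⟨d⟩ := exists_anti hSD hzm
  have hdz : d.f z = m := d.bot hzm hzm
  have hw := d.fm (s z) hz0 hm
  set w := d.f (s z) with hwdef
  -- `[w, m]` is a plane
  have h1 : IsPlane w m := by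
    have e1 := d.restr le_rfl hz0 hm
    rw [hdz] at e1
    obtain ⟨e2⟩ := iso_of_anti hSD hw.2 e1
    exact isPlane_iiso hz0 e2 hz
  have h2 : m ≤ s w := plane_le_of_points hF h1 (le_s hs w) hw.2 fun p hp _ => cov_le_s hs hp
  have h3 : IsPlane w (s w) := hreg w hw.1 (hw.2.trans hm2.le)
  have h4 : m = s w := plane_top_eq h1 h2 h3
  -- `w ≤ z⁺`
  have h5 : w ≤ s z := by
    have h6 : w ⊔ s z = s z := by
      apply plane_meet hF hz1 le_sup_right (sup_le (hw.2.trans hm2.le) (le_s hs _))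
      intro c hc hc2
      refine sup_le ?_ hc
      by_cases hcm : c = m
      · rw [hcm]; exact hw.2
      · have h7 : c ⊓ m ⋖ m := by
          apply inf_covBy_of_covBy_sup_left
          have h8 : c ⊔ m = s (s z) := by
            have h9 : c < c ⊔ m := by
              apply lt_of_le_of_ne le_sup_left
              intro h10
              have h11 : m ≤ c := by rw [h10]; exact le_sup_right
              rcases eq_or_lt_of_le h11 with h12 | h12
              · exact hcm h12.symm
              · exact hm2.2 h12 hc2.lt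
            rcases eq_or_lt_of_le (sup_le hc2.le hm2.le) with h10 | h10
            · exact h10
            · exact absurd h10 (hc2.2 h9)
          rw [h8]; exact hc2
        have hzc : z ≤ c ⊓ m := le_inf (hz0.trans hc) hzm
        have h8 := d.symm.cov hzc le_rfl h7
        have h9 : d.symm.f m = z := d.symm.top hzm hzm
        rw [h9] at h8
        have h10 := cov_le_s hs h8
        have h11 := d.gm (c ⊓ m) hzc inf_le_right
        have h12 := (d.le (s z) (d.g (c ⊓ m)) hz0 hm h11.1 h11.2).2 h10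
        rw [d.fg (c ⊓ m) hzc inf_le_right] at h12
        exact h12.trans inf_le_left
    exact sup_eq_right.1 h6
  refine ⟨w, ?_, hw.1, h4.symm⟩
  -- `w` is covered by `z⁺`
  have h6 : w ≠ s z := by
    intro h
    rw [h] at h4
    exact hm2.lt.ne h4
  rcases h1.1 (s z) h5 hm with h7 | h7 | h7 | h7
  · exact absurd h7.symm h6
  · exact h7
  · exact absurd (plane_point_lt hz1 h7 hm2 le_rfl) (lt_irrefl _)
  · rw [← h7] at hm2
    obtain ⟨p, m', hp, hpm, hm'⟩ := plane_chain4 hz1
    exact absurd (hpm.trans hm'.lt) (hm2.2 hp.lt)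

/-- the hypothesis: `[y, y⁺]` is a plane for all `y` in `[z, z⁺⁺⁺]` -/
def Deep (s : L → L) (z : L) : Prop := ∀ y, z ≤ y → y ≤ s (s (s z)) → IsPlane y (s y)

/-- isomorphism of two intervals transports the double transitivity -/
lemma deep_aux (hF : LF L) (hSD : SD' L) (hs : IsUp s) {z : L} (hz : Deep s z) :
    ∃ x, z ≤ x ∧ IsPlane x (s x) ∧
      (∀ a b, x ⋖ a → x ⋖ b → ∃ φ : IIso x (s x) x (s x), φ.f a = b) ∧
      ∃ m, x ≤ m ∧ m ⋖ s x ∧ ∀ a b, x ⋖ a → x ⋖ b → ¬ a ≤ m → ¬ b ≤ m →
        ∃ φ : IIso x (s x) x (s x), φ.f a = b ∧ φ.f m = m := by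
  have h0 := le_s hs z
  have h1 := le_s hs (s z)
  have h2 := le_s hs (s (s z))
  have pz : IsPlane z (s z) := hz z le_rfl (h0.trans (h1.trans h2))
  have pz1 : IsPlane (s z) (s (s z)) := hz _ h0 (h1.trans h2)
  -- transitivity on the points over `z⁺`
  have tr : ∀ a b, s z ⋖ a → s z ⋖ b → ∃ φ : IIso (s z) (s (s z)) (s z) (s (s z)), φ.f a = b := by
    intro a b ha hb
    have ha2 := cov_le_s hs ha
    have hb2 := cov_le_s hs hb
    obtain ⟨m, hm, hm2, ham, hbm⟩ := plane_line_off2 pz1 ha ha2 hb hb2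
    obtain ⟨w, hw, hzw, hwm⟩ := lines_up hF hSD hs pz pz1
      (fun y hy hy2 => hz y hy (hy2.trans h2)) hm hm2
    rw [← hwm] at ham hbm
    exact move2 hF hSD hs hw ha ham hb hbm
      (hz w hzw (hw.le.trans (h1.trans h2))) pz1
      (hz a (h0.trans ha.le) (ha2.trans h2)) (hz b (h0.trans hb.le) (hb2.trans h2))
  -- the point `x`
  obtain ⟨w, -, hw, -, -⟩ := plane_chain4 pz
  have hw2 := cov_le_s hs hw
  have pw : IsPlane w (s w) := hz w hw.le (hw2.trans (h1.trans h2))
  have hzw : s z < s w := s_lt hs hw.lt pz pw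
  obtain ⟨x, hx, hxz⟩ : ∃ x, w ⋖ x ∧ ¬ x ≤ s z := by
    by_contra hcon
    push Not at hcon
    exact hzw.not_ge (plane_le_of_points hF pw hw2 (le_s hs w) fun p hp _ => hcon p hp)
  have hsw : s w ≤ s (s z) := s_mono hs hw2
  have hx2 : x ≤ s w := cov_le_s hs hx
  have hzx : z ≤ x := hw.le.trans hx.le
  have px : IsPlane x (s x) := hz x hzx (hx2.trans (hsw.trans h2))
  have hwx : s w < s x := s_lt hs hx.lt pw px
  have hsx : s x ≤ s (s (s z)) := s_mono hs (hx2.trans hsw)
  refine ⟨x, hzx, px, ?_, s w, hx2, ?_, ?_⟩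
  · -- transport of the transitivity
    obtain ⟨e1⟩ := block_iso hF hSD hs h0 pz pz1
    obtain ⟨e2⟩ := block_iso hF hSD hs hzx pz px
    let e := e1.symm.trans e2
    intro a b ha hb
    have ha2 := cov_le_s hs ha
    have hb2 := cov_le_s hs hb
    have hbot : e.g x = s z := e.symm.bot (le_s hs x) h1
    have ha' : s z ⋖ e.g a := by
      have := e.symm.cov le_rfl ha2 ha
      rwa [show e.symm.f x = s z from hbot] at this
    have hb' : s z ⋖ e.g b := by
      have := e.symm.cov le_rfl hb2 hb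
      rwa [show e.symm.f x = s z from hbot] at this
    obtain ⟨φ, hφ⟩ := tr _ _ ha' hb'
    refine ⟨(e.symm.trans φ).trans e, ?_⟩
    show e.f (φ.f (e.g a)) = b
    rw [hφ, e.fg b hb.le hb2]
  · -- `w⁺` is a line over `x`
    rcases px.1 (s w) hx2 hwx.le with h | h | h | h
    · exfalso
      obtain ⟨p, m, hp, hpm, hm⟩ := plane_chain4 pw
      rw [h] at hm
      exact hx.2 (hp.lt.trans hpm) hm.lt
    · exfalso
      -- `[w, w⁺]` has length two
      obtain ⟨p, m, hp, hpm, hm⟩ := plane_chain4 pw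
      rcases pw.1 x hx.le hx2 with h4 | h4 | h4 | h4
      · exact hx.lt.ne' h4
      · exact plane_point_not_coatom pw hx h
      · exact plane_point_not_coatom pw hx h4
      · exact h.lt.ne h4
    · exact h
    · exact absurd h hwx.ne
  · intro a b ha hb ham hbm
    have ha2 := cov_le_s hs ha
    have hb2 := cov_le_s hs hb
    exact move3 hF hSD hs hw hx hxz ha ham hb hbm pz pw px
      (hz a (hzx.trans ha.le) (ha2.trans hsx)) (hz b (hzx.trans hb.le) (hb2.trans hsx))

end Pool.Agent.RIG
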