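import Pool.Agent.RIG.Deep

set_option autoImplicit false

/-! Planes at depth four: assembly. -/

namespace Pool.Agent.RIG

open Pool.Agent.Helper87.ML Pool.Agent.Helper87.ML2 OrderDual

universe u

variable {L : Type u} [Lattice L]

lemma icc_cov {x y : L} {a b : Set.Icc x y} : a ⋖ b ↔ (a : L) ⋖ b := by
  constructor
  · intro h
    refine ⟨h.lt, fun t h1 h2 => ?_⟩
    exact h.2 (c := ⟨t, a.2.1.trans h1.le, h2.le.trans b.2.2⟩) h1 h2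
  · intro h
    exact ⟨h.lt, fun t h1 h2 => h.2 (c := (t : L)) h1 h2⟩

/-- the interval as an interval of itself -/
def selfIcc {x y : L} [BoundedOrder (Set.Icc x y)] :
    Set.Icc x y ≃o Set.Icc (⊥ : Set.Icc x y) ⊤ where
  toFun a := ⟨a, bot_le, le_top⟩
  invFun a := a
  left_inv _ := rfl
  right_inv _ := rfl
  map_rel_iff' := by intro a b; exact Iff.rfl

/-- double transitivity of the automorphism group of the plane `[x, t]` -/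
theorem plane_two_trans (hF : LF L) (hSD : SD' L) {x t : L} (hxt : x ≤ t) (hP : IsPlane x t)
    (h1 : ∀ a b, x ⋖ a → a ≤ t → x ⋖ b → b ≤ t → ∃ φ : IIso x t x t, φ.f a = b)
    (h2 : ∃ m, x ≤ m ∧ m ⋖ t ∧ ∀ a b, x ⋖ a → a ≤ t → x ⋖ b → b ≤ t → ¬ a ≤ m → ¬ b ≤ m →
      ∃ φ : IIso x t x t, φ.f a = b ∧ φ.f m = m)
    {a b c d : L} (ha : x ⋖ a) (hb : x ⋖ b) (hc : x ⋖ c) (hd : x ⋖ d) (hat : a ≤ t) (hbt : b ≤ t)
    (hct : c ≤ t) (hdt : d ≤ t) (hab : a ≠ b) (hcd : c ≠ d) :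
    ∃ φ : IIso x t x t, φ.f a = c ∧ φ.f b = d := by
  classical
  have : Fact (x ≤ t) := ⟨hxt⟩
  have : Finite (Set.Icc x t) := (hF x t).to_subtype
  have hbot : ((⊥ : Set.Icc x t) : L) = x := rfl
  have htop : ((⊤ : Set.Icc x t) : L) = t := rfl
  have hP' : IsPlane (⊥ : Set.Icc x t) ⊤ := isPlane_congr hxt selfIcc hP
  have g1 : ∀ a b : Set.Icc x t, ⊥ ⋖ a → ⊥ ⋖ b → ∃ φ : Set.Icc x t ≃o Set.Icc x t, φ a = b := by
    intro a b ha hb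
    obtain ⟨φ, hφ⟩ := h1 a b (icc_cov.1 ha) a.2.2 (icc_cov.1 hb) b.2.2
    exact ⟨φ.toIso, Subtype.ext hφ⟩
  obtain ⟨δ⟩ := hSD x t hxt
  have g3 : ∀ m m' : Set.Icc x t, m ⋖ ⊤ → m' ⋖ ⊤ →
      ∃ φ : Set.Icc x t ≃o Set.Icc x t, φ m = m' := by
    intro m m' hm hm'
    have key : ∀ m : Set.Icc x t, m ⋖ ⊤ → ⊥ ⋖ ofDual (δ m) := by
      intro m hm
      have h4 : δ m ⋖ δ ⊤ := (apply_covBy_apply_iff δ).2 hm
      rw [δ.map_top] at h4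
      exact h4.toDual
    obtain ⟨φ, hφ⟩ := g1 _ _ (key m hm) (key m' hm')
    refine ⟨(δ.trans φ.dual).trans δ.symm, ?_⟩
    simp only [OrderIso.trans_apply]
    rw [OrderIso.symm_apply_eq]
    exact congrArg toDual hφ
  obtain ⟨m0, hm0, hm0t, h5⟩ := h2
  have g2 : ∀ m a b : Set.Icc x t, m ⋖ ⊤ → ⊥ ⋖ a → ⊥ ⋖ b → ¬ a ≤ m → ¬ b ≤ m →
      ∃ φ : Set.Icc x t ≃o Set.Icc x t, φ m = m ∧ φ a = b := by
    intro m a b hm ha hb ham hbm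
    obtain ⟨ψ, hψ⟩ := g3 m ⟨m0, hm0, hm0t.le⟩ hm (icc_cov.2 hm0t)
    have k1 : ¬ ψ a ≤ ⟨m0, hm0, hm0t.le⟩ := by rw [← hψ, ψ.le_iff_le]; exact ham
    have k2 : ¬ ψ b ≤ ⟨m0, hm0, hm0t.le⟩ := by rw [← hψ, ψ.le_iff_le]; exact hbm
    obtain ⟨φ, h6, h7⟩ := h5 (ψ a) (ψ b) (icc_cov.1 (atom_map ψ ha)) (ψ a).2.2
      (icc_cov.1 (atom_map ψ hb)) (ψ b).2.2 k1 k2
    have h8 : φ.toIso (ψ a) = ψ b := Subtype.ext h6
    have h9 : φ.toIso (ψ m) = ψ m := by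
      rw [hψ]; exact Subtype.ext h7
    refine ⟨(ψ.trans φ.toIso).trans ψ.symm, ?_, ?_⟩
    · simp only [OrderIso.trans_apply]
      rw [h9, ψ.symm_apply_apply]
    · simp only [OrderIso.trans_apply]
      rw [h8, ψ.symm_apply_apply]
  obtain ⟨φ, h6, h7⟩ := two_trans hP' g2 g3 g1 (a := ⟨a, ha.le, hat⟩) (b := ⟨b, hb.le, hbt⟩)
    (c := ⟨c, hc.le, hct⟩) (d := ⟨d, hd.le, hdt⟩) (icc_cov.2 ha) (icc_cov.2 hb) (icc_cov.2 hc)
    (icc_cov.2 hd) (fun h => hab (congrArg Subtype.val h)) (fun h => hcd (congrArg Subtype.val h))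
  refine ⟨IIso.ofIso φ, ?_, ?_⟩
  · show (if h : x ≤ a ∧ a ≤ t then (φ ⟨a, h⟩ : L) else a) = c
    rw [dif_pos ⟨ha.le, hat⟩]
    exact congrArg Subtype.val h6
  · show (if h : x ≤ b ∧ b ≤ t then (φ ⟨b, h⟩ : L) else b) = d
    rw [dif_pos ⟨hb.le, hbt⟩]
    exact congrArg Subtype.val h7

/-- If `[y, y⁺]` is a plane for all `y` in `[z, z⁺⁺⁺]`, the automorphism group of `[z, z⁺]` is
doubly transitive on the covers of `z`. -/
theorem deep_main [IsModularLattice L] (hF : LF L) (hSD : SD' L) {s : L → L} (hs : IsUp s) {z : L}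
    (hz : Deep s z) {a b c d : L} (ha : z ⋖ a) (hb : z ⋖ b) (hc : z ⋖ c) (hd : z ⋖ d)
    (hab : a ≠ b) (hcd : c ≠ d) :
    ∃ φ : Set.Icc z (s z) ≃o Set.Icc z (s z),
      φ ⟨a, ha.le, cov_le_s hs ha⟩ = ⟨c, hc.le, cov_le_s hs hc⟩ ∧
      φ ⟨b, hb.le, cov_le_s hs hb⟩ = ⟨d, hd.le, cov_le_s hs hd⟩ := by
  obtain ⟨x, hzx, px, h1, m, hm, hmt, h2⟩ := deep_aux hF hSD hs hz
  have pz : IsPlane z (s z) := hz z le_rfl ((le_s hs z).trans ((le_s hs _).trans (le_s hs _)))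
  obtain ⟨e⟩ := block_iso hF hSD hs hzx pz px
  have hbot : e.f z = x := e.bot (le_s hs z) (le_s hs x)
  have key : ∀ {a}, z ⋖ a → x ⋖ e.f a := by
    intro a ha
    have := e.cov le_rfl (cov_le_s hs ha) ha
    rwa [hbot] at this
  have hne : ∀ {a b}, z ⋖ a → z ⋖ b → a ≠ b → e.f a ≠ e.f b := fun ha hb hab h =>
    hab (e.inj ha.le (cov_le_s hs ha) hb.le (cov_le_s hs hb) h)
  obtain ⟨φ, h3, h4⟩ := plane_two_trans hF hSD (le_s hs x) px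
    (fun a b ha _ hb _ => h1 a b ha hb)
    ⟨m, hm, hmt, fun a b ha _ hb _ h5 h6 => h2 a b ha hb h5 h6⟩ (key ha) (key hb) (key hc) (key hd)
    (cov_le_s hs (key ha)) (cov_le_s hs (key hb)) (cov_le_s hs (key hc)) (cov_le_s hs (key hd))
    (hne ha hb hab) (hne hc hd hcd)
  refine ⟨((e.trans φ).trans e.symm).toIso, Subtype.ext ?_, Subtype.ext ?_⟩
  · show e.g (φ.f (e.f a)) = c
    rw [h3, e.gf c hc.le (cov_le_s hs hc)]
  · show e.g (φ.f (e.f b)) = d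
    rw [h4, e.gf d hd.le (cov_le_s hs hd)]

end Pool.Agent.RIG
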