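import Pool.Agent.RIG.Chain

set_option autoImplicit false

/-! Groups of automorphisms which are induced on a subinterval; transposition. -/

namespace Pool.Agent.RIG

open Pool.Agent.Helper87.ML Pool.Agent.Helper87.ML2 OrderDual

universe u

variable {L : Type u} [Lattice L] {s : L → L}

section

variable {a b c d x y : L}

lemma IAnti.map_inf (φ : IAnti a b c d) (h1 : a ≤ x) (h2 : x ≤ b) (h3 : a ≤ y) (h4 : y ≤ b) :
    φ.f (x ⊓ y) = φ.f x ⊔ φ.f y := by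
  have hx := φ.fm x h1 h2
  have hy := φ.fm y h3 h4
  have h5 : a ≤ x ⊓ y := le_inf h1 h3
  have h6 : x ⊓ y ≤ b := inf_le_left.trans h2
  apply le_antisymm
  · have h7 : c ≤ φ.f x ⊔ φ.f y := hx.1.trans le_sup_left
    have h8 : φ.f x ⊔ φ.f y ≤ d := sup_le hx.2 hy.2
    have h9 := φ.gm _ h7 h8
    rw [← φ.fg _ h7 h8, φ.le _ _ h5 h6 h9.1 h9.2]
    apply le_inf
    · rw [← φ.le _ _ h1 h2 h9.1 h9.2, φ.fg _ h7 h8]; exact le_sup_left
    · rw [← φ.le _ _ h3 h4 h9.1 h9.2, φ.fg _ h7 h8]; exact le_sup_right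
  · apply sup_le
    · rw [φ.le _ _ h1 h2 h5 h6]; exact inf_le_left
    · rw [φ.le _ _ h3 h4 h5 h6]; exact inf_le_right

lemma IIso.map_sup (φ : IIso a b c d) (h1 : a ≤ x) (h2 : x ≤ b) (h3 : a ≤ y) (h4 : y ≤ b) :
    φ.f (x ⊔ y) = φ.f x ⊔ φ.f y := by
  have hx := φ.fm x h1 h2
  have hy := φ.fm y h3 h4
  have h5 : a ≤ x ⊔ y := h1.trans le_sup_left
  have h6 : x ⊔ y ≤ b := sup_le h2 h4
  apply le_antisymm
  · have h7 : c ≤ φ.f x ⊔ φ.f y := hx.1.trans le_sup_left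
    have h8 : φ.f x ⊔ φ.f y ≤ d := sup_le hx.2 hy.2
    have h9 := φ.gm _ h7 h8
    rw [← φ.fg _ h7 h8, φ.le _ _ h5 h6 h9.1 h9.2]
    apply sup_le
    · rw [← φ.le _ _ h1 h2 h9.1 h9.2, φ.fg _ h7 h8]; exact le_sup_left
    · rw [← φ.le _ _ h3 h4 h9.1 h9.2, φ.fg _ h7 h8]; exact le_sup_right
  · apply sup_le
    · rw [φ.le _ _ h1 h2 h5 h6]; exact le_sup_left
    · rw [φ.le _ _ h3 h4 h5 h6]; exact le_sup_right

/-- the identity -/
def IIso.refl (a b : L) : IIso a b a b where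
  f := id
  g := id
  fm _ h1 h2 := ⟨h1, h2⟩
  gm _ h1 h2 := ⟨h1, h2⟩
  gf _ _ _ := rfl
  fg _ _ _ := rfl
  le _ _ _ _ _ _ := Iff.rfl

/-- the automorphisms of `[p, r]` which are induced by automorphisms of `[a, b]` -/
def Ind (a b p r : L) (hap : a ≤ p) (hrb : r ≤ b) : Subgroup (Set.Icc p r ≃o Set.Icc p r) where
  carrier := {φ | ∃ g : IIso a b a b, ∀ y : Set.Icc p r, g.f y = φ y}
  one_mem' := ⟨IIso.refl a b, fun _ => rfl⟩
  mul_mem' := by
    rintro φ ψ ⟨g, hg⟩ ⟨k, hk⟩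
    refine ⟨k.trans g, fun y => ?_⟩
    show g.f (k.f y) = φ (ψ y)
    rw [hk y, hg (ψ y)]
  inv_mem' := by
    rintro φ ⟨g, hg⟩
    refine ⟨g.symm, fun y => ?_⟩
    show g.g y = φ⁻¹ y
    have h1 : g.f (φ⁻¹ y) = y := by
      rw [hg]
      exact congrArg Subtype.val (φ.apply_symm_apply y)
    exact g.g_eq (hap.trans (φ⁻¹ y).2.1) ((φ⁻¹ y).2.2.trans hrb) h1

lemma mem_ind {a b p r : L} {hap : a ≤ p} {hrb : r ≤ b} {φ : Set.Icc p r ≃o Set.Icc p r} :
    φ ∈ Ind a b p r hap hrb ↔ ∃ g : IIso a b a b, ∀ y : Set.Icc p r, g.f y = φ y := Iff.rfl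

end

/-- a descending chain of subgroups of a finite group is stationary somewhere -/
lemma stat {G : Type*} [Group G] [Finite G] (H : ℕ → Subgroup G) (hH : ∀ i, H (i + 1) ≤ H i)
    (M : ℕ) (hM : Nat.card G < 2 ^ M) : ∃ i < M, H (i + 1) = H i := by
  by_contra hcon
  push Not at hcon
  have h1 : ∀ i ≤ M, 2 ^ i * Nat.card (H i) ≤ Nat.card G := by
    intro i
    induction i with
    | zero =>
      intro _
      rw [pow_zero, one_mul]
      exact Subgroup.card_le_card_group _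
    | succ i ih =>
      intro hi
      have h2 := ih (by omega)
      have h3 : Nat.card (H (i + 1)) ∣ Nat.card (H i) := Subgroup.card_dvd_of_le (hH i)
      obtain ⟨k, hk⟩ := h3
      have h4 : 0 < Nat.card (H i) := Nat.card_pos
      have h5 : k ≠ 1 := by
        rintro rfl
        rw [mul_one] at hk
        exact hcon i (by omega) (Subgroup.eq_of_le_of_card_ge (hH i) hk.le)
      have h6 : k ≠ 0 := by
        rintro rfl
        rw [mul_zero] at hk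
        omega
      have h7 : Nat.card (H (i + 1)) * 2 ≤ Nat.card (H i) := by
        rw [hk]
        exact Nat.mul_le_mul_left _ (by omega)
      calc 2 ^ (i + 1) * Nat.card (H (i + 1)) = 2 ^ i * (Nat.card (H (i + 1)) * 2) := by ring
        _ ≤ 2 ^ i * Nat.card (H i) := Nat.mul_le_mul_left _ h7
        _ ≤ Nat.card G := h2
  have h2 := h1 M le_rfl
  have h3 : 0 < Nat.card (H M) := Nat.card_pos
  have h4 : 2 ^ M ≤ 2 ^ M * Nat.card (H M) := Nat.le_mul_of_pos_right _ h3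
  omega

section

variable [IsModularLattice L] (hF : LF L) (hSD : SD' L) (hs : IsUp s) {z t : L} (hK : Key s z t)
include hF hSD hs hK

lemma chain_sup (j : ℕ) {c : ℕ → L} {m : ℕ} (hc : Str s c m) (hm : 2 * j ≤ m) (hz : z ≤ c 0)
    (ht : s^[j] (c m) ≤ t) : c (2 * j) ⊔ s^[j] (c 0) = s^[j] (c j) := by
  have hc' : Str s c (2 * j) := by
    have := hc.tail 0 (k := 2 * j) (by omega)
    simpa using this
  have ht' : s^[j] (c (2 * j)) ≤ t := (it_mono hs j (hc.mono hm le_rfl)).trans ht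
  have h0 : c 0 ≤ c (2 * j) := hc.mono (Nat.zero_le _) hm
  have h1 : c 0 ≤ s^[j] (c (2 * j)) := h0.trans (le_it hs j _)
  obtain ⟨d⟩ := exists_anti hSD h1
  have h2 := chain_anti hF hSD hs hK j hc' hz ht' d
  have h3 := d.map_inf h0 (le_it hs j _) (le_it hs j (c 0)) (it_mono hs j h0)
  have e0 : c (2 * j) ⊓ s^[j] (c 0) = c j := by
    have := hc'.inf_it hF hs 0 j (2 * j) (by omega) le_rfl
    simpa using this
  rw [e0, (h2 j (by omega)).2, (h2 (2 * j) le_rfl).2, (h2 0 (by omega)).1, Nat.sub_self,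
    Nat.sub_zero] at h3
  have e1 : 2 * j - j = j := by omega
  rw [e1] at h3
  rw [sup_comm, ← h3]

/-- the transposition `[c j, (c 0)_j] → [c (2j), (c j)_j]` -/
lemma transp (j : ℕ) {c : ℕ → L} {m : ℕ} (hc : Str s c m) (hm : 2 * j ≤ m) (hz : z ≤ c 0)
    (ht : s^[j] (c m) ≤ t) : ∃ π : IIso (c j) (s^[j] (c 0)) (c (2 * j)) (s^[j] (c j)),
      (∀ y, π.f y = y ⊔ c (2 * j)) ∧ ∀ y, π.g y = y ⊓ s^[j] (c 0) := by
  have h1 := chain_sup hF hSD hs hK j hc hm hz ht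
  have h2 : c (2 * j) ⊓ s^[j] (c 0) = c j := by
    have := hc.inf_it hF hs 0 j (2 * j) (by omega) hm
    simpa using this
  have h3 : c j ≤ c (2 * j) := hc.mono (by omega) hm
  have h4 : c j ≤ s^[j] (c 0) := by rw [← h2]; exact inf_le_right
  have h5 : s^[j] (c 0) ≤ s^[j] (c j) := it_mono hs j (hc.mono (Nat.zero_le j) (by omega))
  have h6 : c (2 * j) ≤ s^[j] (c j) := by rw [← h1]; exact le_sup_left
  refine ⟨⟨fun y => y ⊔ c (2 * j), fun y => y ⊓ s^[j] (c 0), ?_, ?_, ?_, ?_, ?_⟩, fun _ => rfl,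
    fun _ => rfl⟩
  · intro y hy1 hy2
    exact ⟨le_sup_right, sup_le (hy2.trans h5) h6⟩
  · intro y hy1 hy2
    exact ⟨le_inf (h3.trans hy1) h4, inf_le_right⟩
  · intro y hy1 hy2
    show (y ⊔ c (2 * j)) ⊓ s^[j] (c 0) = y
    rw [sup_inf_assoc_of_le _ hy2, h2]
    exact sup_eq_left.2 hy1
  · intro y hy1 hy2
    show y ⊓ s^[j] (c 0) ⊔ c (2 * j) = y
    rw [inf_sup_assoc_of_le _ hy1, sup_comm, h1]
    exact inf_eq_left.2 hy2
  · intro y w hy1 hy2 hw1 hw2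
    show y ⊔ c (2 * j) ≤ w ⊔ c (2 * j) ↔ y ≤ w
    constructor
    · intro h
      have h7 : (y ⊔ c (2 * j)) ⊓ s^[j] (c 0) ≤ (w ⊔ c (2 * j)) ⊓ s^[j] (c 0) :=
        inf_le_inf h le_rfl
      rw [sup_inf_assoc_of_le _ hy2, sup_inf_assoc_of_le _ hw2, h2, sup_eq_left.2 hy1,
        sup_eq_left.2 hw1] at h7
      exact h7
    · intro h
      exact sup_le_sup h le_rfl

end

end Pool.Agent.RIG
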