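import Pool.Agent.RIG.Shift

set_option autoImplicit false

/-! Iterated socles. -/

namespace Pool.Agent.RIG

open Pool.Agent.Helper87.ML Pool.Agent.Helper87.ML2 OrderDual

universe u

variable {L : Type u} [Lattice L] {s : L → L}

section

variable [IsModularLattice L] (hs : IsUp s)
include hs

omit [IsModularLattice L] in
lemma le_it (i : ℕ) (x : L) : x ≤ s^[i] x := by
  induction i with
  | zero => exact le_rfl
  | succ i ih =>
    rw [Function.iterate_succ_apply']
    exact ih.trans (le_s hs _)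

lemma it_mono (i : ℕ) {x y : L} (h : x ≤ y) : s^[i] x ≤ s^[i] y := by
  induction i with
  | zero => exact h
  | succ i ih =>
    rw [Function.iterate_succ_apply', Function.iterate_succ_apply']
    exact s_mono hs ih

omit [IsModularLattice L] in
lemma it_le_it {i k : ℕ} (h : i ≤ k) (x : L) : s^[i] x ≤ s^[k] x := by
  obtain ⟨m, rfl⟩ := Nat.exists_eq_add_of_le h
  rw [add_comm, Function.iterate_add_apply]
  exact le_it hs m _

omit hs [IsModularLattice L] [Lattice L] in
lemma it_add (i k : ℕ) (x : L) : s^[i] (s^[k] x) = s^[i + k] x := by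
  rw [Function.iterate_add_apply]

end

section

variable {a b c d : L}

/-- an isomorphism of intervals maps the join of the covers below the join of the covers -/
lemma iso_s_le (hs : IsUp s) (φ : IIso a b c d) (h : s a ≤ b) (hab : a ≤ b) (hcd : c ≤ d) :
    φ.f (s a) ≤ s c := by
  have h1 := φ.fm (s a) (le_s hs a) h
  have hf : φ.f a = c := φ.bot hab hcd
  -- compare with `s c ⊓ d`
  have h2 : c ≤ s c ⊓ d := le_inf (le_s hs c) hcd
  have h3 : s c ⊓ d ≤ d := inf_le_right
  have h4 := φ.gm _ h2 h3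
  have h5 : s a ≤ φ.g (s c ⊓ d) := by
    apply s_le hs h4.1
    intro y hy
    have hyb := (cov_le_s hs hy).trans h
    have h6 := φ.cov le_rfl hyb hy
    rw [hf] at h6
    have h7 : φ.f y ≤ s c ⊓ d := le_inf (cov_le_s hs h6) (φ.fm y hy.le hyb).2
    rw [← φ.le y _ hy.le hyb h4.1 h4.2, φ.fg _ h2 h3]
    exact h7
  have h6 := (φ.le _ _ (le_s hs a) h h4.1 h4.2).2 h5
  rw [φ.fg _ h2 h3] at h6
  exact h6.trans inf_le_left

/-- an isomorphism of intervals preserves the join of the covers -/
lemma iso_s (hs : IsUp s) (φ : IIso a b c d) (h : s a ≤ b) (h' : s c ≤ d) : φ.f (s a) = s c := by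
  have hab := (le_s hs a).trans h
  have hcd := (le_s hs c).trans h'
  apply le_antisymm (iso_s_le hs φ h hab hcd)
  have h1 := iso_s_le hs φ.symm h' hcd hab
  have h2 := φ.gm (s c) (le_s hs c) h'
  have h3 := (φ.le _ _ h2.1 h2.2 (le_s hs a) h).2 h1
  rwa [φ.fg _ (le_s hs c) h'] at h3

lemma iso_it_le (hs : IsUp s) [IsModularLattice L] (φ : IIso a b c d) (i : ℕ) (h : s^[i] a ≤ b)
    (hcd : c ≤ d) : φ.f (s^[i] a) ≤ s^[i] c := by
  induction i with
  | zero => exact (φ.bot h hcd).le
  | succ i ih =>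
    rw [Function.iterate_succ_apply'] at h ⊢
    rw [Function.iterate_succ_apply']
    have h1 : s^[i] a ≤ b := (le_s hs _).trans h
    have h2 := ih h1
    have h3 := φ.fm (s^[i] a) (le_it hs i a) h1
    have hab : a ≤ b := (le_it hs i a).trans h1
    have h4 := iso_s_le hs ((φ.restr (le_it hs i a) h1 le_rfl).cast rfl rfl rfl (φ.top hab hcd)) h
      h1 h3.2
    rw [IIso.cast_f] at h4
    exact h4.trans (s_mono hs h2)

lemma iso_it (hs : IsUp s) (φ : IIso a b c d) (i : ℕ) (h : s^[i] a ≤ b) (h' : s^[i] c ≤ d) :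
    φ.f (s^[i] a) = s^[i] c := by
  induction i with
  | zero => exact φ.bot h h'
  | succ i ih =>
    rw [Function.iterate_succ_apply'] at h h' ⊢
    rw [Function.iterate_succ_apply']
    have h1 : s^[i] a ≤ b := (le_s hs _).trans h
    have h1' : s^[i] c ≤ d := (le_s hs _).trans h'
    have h2 := ih h1 h1'
    have hab : a ≤ b := (le_it hs i a).trans h1
    have hcd : c ≤ d := (le_it hs i c).trans h1'
    have h4 := iso_s hs ((φ.restr (le_it hs i a) h1 le_rfl).cast rfl rfl h2 (φ.top hab hcd)) h h'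
    rwa [IIso.cast_f] at h4

end

end Pool.Agent.RIG
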