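import Pool.Agent.RIG.Iter

set_option autoImplicit false

/-! The key lemma for blocks of constant length and for iterated socles. -/

namespace Pool.Agent.RIG

open Pool.Agent.Helper87.ML Pool.Agent.Helper87.ML2 OrderDual

universe u

variable {L : Type u} [Lattice L] {s : L → L}

/-- anti-automorphisms of `[u, v⁺]` map `u⁺` to `v`, for `z ≤ u ≤ v`, `v⁺ ≤ t` -/
def Key (s : L → L) (z t : L) : Prop :=
  ∀ u v, z ≤ u → u ≤ v → s v ≤ t → ∀ d : IAnti u (s v) u (s v), d.f (s u) = v

/-- the meet of the coatoms of `[v, v⁺]` is `v` -/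
lemma sd_meet (hSD : SD' L) (hs : IsUp s) {v x : L} (hx : v ≤ x) (hxs : x ≤ s v)
    (hm : ∀ m, v ≤ m → m ⋖ s v → x ≤ m) : x = v := by
  obtain ⟨δ⟩ := exists_anti hSD (le_s hs v)
  have hb : δ.f v = s v := δ.bot (le_s hs v) (le_s hs v)
  have ht : δ.f (s v) = v := δ.top (le_s hs v) (le_s hs v)
  have h1 := δ.gm x hx hxs
  have h2 : s v ≤ δ.g x := by
    apply s_le hs h1.1
    intro p hp
    have hps := cov_le_s hs hp
    have h3 := δ.cov le_rfl hps hp
    rw [hb] at h3
    have h4 := hm _ (δ.fm p hp.le hps).1 h3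
    rw [← δ.le (δ.g x) p h1.1 h1.2 hp.le hps, δ.fg x hx hxs]
    exact h4
  have h3 : δ.g x = s v := le_antisymm h1.2 h2
  have h4 := δ.fg x hx hxs
  rw [h3, ht] at h4
  exact h4.symm

/-- a proper extension of an interval downwards has a larger dimension -/
lemma dim_lt {r v t : L} (hrv : r < v) (hvt : v ≤ t) (n : ℕ)
    (h1 : Order.krullDim (Set.Icc v t) = n) (h2 : Order.krullDim (Set.Icc r t) = n) : False := by
  have h3 : (n : WithBot ℕ∞) ≤ Order.krullDim (Set.Icc v t) := h1.ge
  obtain ⟨p, hp⟩ := (Order.le_krullDim_iff).1 h3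
  let f : Set.Icc v t → Set.Icc r t := fun x => ⟨x, hrv.le.trans x.2.1, x.2.2⟩
  have hf : StrictMono f := fun x y h => h
  let p' := p.map f hf
  have h4 : (⟨r, le_rfl, hrv.le.trans hvt⟩ : Set.Icc r t) < p'.head := by
    show r < ((p.map f hf).head : L)
    exact hrv.trans_le (p.head.2.1)
  let p'' : LTSeries (Set.Icc r t) := p'.cons _ h4
  have h5 : p''.length = n + 1 := by
    show (p'.cons _ h4).length = n + 1
    rw [RelSeries.cons_length]
    show p.length + 1 = n + 1
    rw [hp]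
  have h6 := Order.LTSeries.length_le_krullDim p''
  rw [h5, h2] at h6
  have h7 : n + 1 ≤ n := by exact_mod_cast h6
  omega

/-- the key lemma for blocks of constant length -/
lemma key_of_dim [IsModularLattice L] (hSD : SD' L) (hs : IsUp s) {z t : L} (n : ℕ)
    (hn : ∀ y, z ≤ y → s y ≤ t → Order.krullDim (Set.Icc y (s y)) = n) : Key s z t := by
  intro u v hzu huv hvt d
  have h1 : u ≤ s u := le_s hs u
  have h2 : s u ≤ s v := s_mono hs huv
  have h3 : v ≤ s v := le_s hs v
  have hr := d.fm (s u) h1 h2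
  have h4 : ∀ m, v ≤ m → m ⋖ s v → d.f (s u) ≤ m := by
    intro m hm hmt
    have h5 := d.gm m (huv.trans hm) hmt.le
    have h6 : u ⋖ d.g m := by
      have h7 := d.symm.cov (huv.trans hm) le_rfl hmt
      have h8 := d.symm.top (huv.trans h3) (huv.trans h3)
      rw [h8] at h7
      exact h7
    have h7 := (d.le (s u) (d.g m) h1 h2 h5.1 h5.2).2 (cov_le_s hs h6)
    rwa [d.fg m (huv.trans hm) hmt.le] at h7
  have h5 : d.f (s u) ≤ v := by
    have h6 : d.f (s u) ⊔ v = v :=
      sd_meet hSD hs le_sup_right (sup_le hr.2 h3) fun m hm1 hm2 => sup_le (h4 m hm1 hm2) hm1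
    exact sup_eq_right.1 h6
  have h6 : Order.krullDim (Set.Icc (d.f (s u)) (s v)) = n := by
    have e1 : IAnti u (s u) (d.f (s u)) (d.f u) := d.restr le_rfl h1 h2
    have h7 : d.f u = s v := d.bot (huv.trans h3) (huv.trans h3)
    rw [h7] at e1
    obtain ⟨e2⟩ := iso_of_anti hSD hr.2 e1
    rw [← Order.krullDim_eq_of_orderIso e2.toIso]
    exact hn u hzu (h2.trans hvt)
  rcases eq_or_lt_of_le h5 with h | h
  · exact h
  · exact (dim_lt h h3 n (hn v (hzu.trans huv) hvt) h6).elim

section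

variable [IsModularLattice L] (hSD : SD' L) (hs : IsUp s) {z t : L} (hK : Key s z t)
include hSD hs hK

/-- anti-automorphisms of `[u, v_j]` map `u_i` to `v_(j-i)` -/
lemma keyj : ∀ (j : ℕ) (u v : L), z ≤ u → u ≤ v → s^[j] v ≤ t →
    ∀ d : IAnti u (s^[j] v) u (s^[j] v), ∀ i ≤ j, d.f (s^[i] u) = s^[j - i] v := by
  intro j
  induction j with
  | zero =>
    intro u v _ huv _ d i hi
    have h1 : i = 0 := by omega
    subst h1
    exact d.bot huv huv
  | succ j ih =>
    intro u v hzu huv hvt d i hi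
    have huv' : u ≤ s^[j + 1] v := huv.trans (le_it hs _ v)
    rcases i with _ | i
    · exact d.bot huv' huv'
    · have e0 : s^[j + 1] v = s (s^[j] v) := Function.iterate_succ_apply' s j v
      have huvj : u ≤ s^[j] v := huv.trans (le_it hs _ v)
      have h1 : d.f (s u) = s^[j] v := by
        have h2 := hK u (s^[j] v) hzu huvj (e0 ▸ hvt) (d.cast rfl e0 rfl e0)
        rwa [IAnti.cast_f] at h2
      have h2 : s u ≤ s^[j + 1] v := by
        rw [e0]; exact s_mono hs huvj
      obtain ⟨d'⟩ := exists_anti hSD huvj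
      let ψ : IIso (s u) (s^[j + 1] v) u (s^[j] v) :=
        ((d.restr (le_s hs u) h2 le_rfl).cast rfl rfl (d.top huv' huv') h1).trans d'
      have h3 : ∀ y, ψ.f y = d'.f (d.f y) := fun y => by
        simp [ψ, IAnti.trans, IAnti.restr]
      have h4 : s^[i] (s u) ≤ s^[j + 1] v := by
        rw [← Function.iterate_succ_apply]
        exact (it_mono hs _ huv).trans (it_le_it hs hi v)
      have h5 : s^[i] u ≤ s^[j] v := (it_mono hs _ huv).trans (it_le_it hs (by omega) v)
      have h6 := iso_it hs ψ i h4 h5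
      rw [h3, ← Function.iterate_succ_apply] at h6
      have h7 : s^[i + 1] u ≤ s^[j + 1] v := (it_mono hs _ huv).trans (it_le_it hs hi v)
      have h8 := d.fm (s^[i + 1] u) (le_it hs _ u) h7
      have h9 : d.f (s^[i + 1] u) ≤ s^[j] v := by
        rw [← h1, d.le _ _ (le_it hs _ u) h7 (le_s hs u) h2, Function.iterate_succ_apply]
        exact le_it hs i _
      have h10 : d'.g (s^[i] u) = d.f (s^[i + 1] u) := d'.g_eq h8.1 h9 h6
      have h11 := ih u v hzu huv ((it_le_it hs (Nat.le_succ j) v).trans hvt) d'.symm i (by omega)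
      rw [← h10]
      show d'.symm.f (s^[i] u) = _
      rw [h11]
      congr 1
      omega

lemma keyj_top (j : ℕ) {u v : L} (hzu : z ≤ u) (huv : u ≤ v) (hvt : s^[j] v ≤ t)
    (d : IAnti u (s^[j] v) u (s^[j] v)) : d.f (s^[j] u) = v := by
  have := keyj hSD hs hK j u v hzu huv hvt d j le_rfl
  rwa [Nat.sub_self] at this

lemma keyj_top' (j : ℕ) {u v : L} (hzu : z ≤ u) (huv : u ≤ v) (hvt : s^[j] v ≤ t)
    (d : IAnti u (s^[j] v) u (s^[j] v)) : d.f v = s^[j] u := by
  have h1 : d.g (s^[j] u) = v := keyj_top hSD hs hK j hzu huv hvt d.symm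
  have h2 := d.fg (s^[j] u) (le_it hs _ u) (it_mono hs _ huv)
  rwa [h1] at h2

/-- the iterated join of covers is injective on comparable elements -/
lemma it_inj (j : ℕ) {u v : L} (hzu : z ≤ u) (huv : u ≤ v) (hvt : s^[j] v ≤ t)
    (h : s^[j] u = s^[j] v) : u = v := by
  have huv' : u ≤ s^[j] v := huv.trans (le_it hs _ v)
  obtain ⟨d⟩ := exists_anti hSD huv'
  have h1 := keyj_top hSD hs hK j hzu huv hvt d
  have h2 := d.top huv' huv'
  rw [h] at h1
  exact h2.symm.trans h1

lemma it_lt (j : ℕ) {u v : L} (hzu : z ≤ u) (huv : u < v) (hvt : s^[j] v ≤ t) :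
    s^[j] u < s^[j] v :=
  lt_of_le_of_ne (it_mono hs j huv.le) fun h => huv.ne (it_inj hSD hs hK j hzu huv.le hvt h)

/-- `[u, u_j]` and `[v, v_j]` are isomorphic -/
lemma cube_iso (j : ℕ) {u v : L} (hzu : z ≤ u) (huv : u ≤ v) (hvt : s^[j] v ≤ t) :
    Nonempty (IIso u (s^[j] u) v (s^[j] v)) := by
  have huv' : u ≤ s^[j] v := huv.trans (le_it hs _ v)
  obtain ⟨d⟩ := exists_anti hSD huv'
  have h1 := (d.restr le_rfl (le_it hs j u) (it_mono hs j huv)).cast rfl rfl
    (keyj_top hSD hs hK j hzu huv hvt d) (d.bot huv' huv')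
  exact iso_of_anti hSD (le_it hs j v) h1

/-- `s` reflects the order above `z` -/
lemma s_refl {a b : L} (ha : z ≤ a) (hb : z ≤ b) (hat : s a ≤ t) (hbt : s b ≤ t)
    (h : s a ≤ s b) : a ≤ b := by
  have hza : z ≤ s a := ha.trans (le_s hs a)
  have hzb : z ≤ s b := hb.trans (le_s hs b)
  obtain ⟨d⟩ := exists_anti hSD hza
  obtain ⟨e⟩ := exists_anti hSD hzb
  have h1 := hK z a le_rfl ha hat d
  have h2 := hK z b le_rfl hb hbt e
  have hsz : s z ≤ s a := s_mono hs ha
  have hszb : s z ≤ s b := s_mono hs hb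
  have hab : a ≤ s b := (le_s hs a).trans h
  -- the preimage of `a` under `e` is above all covers of `z`
  have h3 := e.gm a ha hab
  have h4 : s z ≤ e.g a := by
    apply s_le hs h3.1
    intro p hp
    have hpb : p ≤ s b := (cov_le_s hs hp).trans hszb
    rw [← e.le _ _ h3.1 h3.2 hp.le hpb, e.fg a ha hab]
    -- `e.f p` is a coatom of `[z, s b]`
    have h5 := e.cov le_rfl hpb hp
    have h6 : e.f z = s b := e.bot hzb hzb
    rw [h6] at h5
    have h7 := e.fm p hp.le hpb
    -- its meet with `s a`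
    by_cases h8 : s a ≤ e.f p
    · exact (le_s hs a).trans h8
    · have h9 : s a ⊓ e.f p ⋖ s a := by
        apply inf_covBy_of_covBy_sup_right
        have h10 : s a ⊔ e.f p = s b := by
          have h11 : e.f p < s a ⊔ e.f p := lt_of_le_of_ne le_sup_right fun h12 => h8 (by
            rw [h12]; exact le_sup_left)
          rcases eq_or_lt_of_le (sup_le h h7.2) with h12 | h12
          · exact h12
          · exact absurd h12 (h5.2 h11)
        rw [h10]; exact h5
      have h10 : z ≤ s a ⊓ e.f p := le_inf hza h7.1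
      have h11 := d.symm.cov h10 le_rfl h9
      have h12 : d.symm.f (s a) = z := d.symm.top hza hza
      rw [h12] at h11
      have h13 := d.gm (s a ⊓ e.f p) h10 inf_le_left
      have h14 := (d.le (s z) (d.g (s a ⊓ e.f p)) (le_s hs z) hsz h13.1 h13.2).2
        (cov_le_s hs h11)
      rw [h1, d.fg _ h10 inf_le_left] at h14
      exact h14.trans inf_le_right
  have h5 := (e.le _ _ h3.1 h3.2 (le_s hs z) hszb).2 h4
  rw [h2, e.fg a ha hab] at h5
  exact h5

lemma it_refl (j : ℕ) {a b : L} (ha : z ≤ a) (hb : z ≤ b) (hat : s^[j] a ≤ t) (hbt : s^[j] b ≤ t)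
    (h : s^[j] a ≤ s^[j] b) : a ≤ b := by
  induction j with
  | zero => exact h
  | succ j ih =>
    have ea : s^[j + 1] a = s (s^[j] a) := Function.iterate_succ_apply' s j a
    have eb : s^[j + 1] b = s (s^[j] b) := Function.iterate_succ_apply' s j b
    have h1 := s_refl hSD hs hK (ha.trans (le_it hs j a)) (hb.trans (le_it hs j b)) (ea ▸ hat)
      (eb ▸ hbt) (by rw [← ea, ← eb]; exact h)
    exact ih ((it_le_it hs (Nat.le_succ j) a).trans hat) ((it_le_it hs (Nat.le_succ j) b).trans hbt)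
      h1

end

end Pool.Agent.RIG
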