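import Pool.Agent.RIG.Basic

set_option autoImplicit false

/-! Elementary facts on intervals which are projective planes. -/

namespace Pool.Agent.RIG

open Pool.Agent.Helper87.ML Pool.Agent.Helper87.ML2 OrderDual

universe u

variable {L : Type u} [Lattice L]

/-- a plane contains a chain `v ⋖ p < m ⋖ t` -/
lemma plane_chain4 {v t : L} (h : IsPlane v t) : ∃ p m, v ⋖ p ∧ p < m ∧ m ⋖ t := by
  obtain ⟨-, h2, -, h4, p, q, r, ⟨hp, hq, hr⟩, ⟨hpt, hqt, hrt⟩, ⟨hpq, hpr, hqr⟩, hno⟩ := h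
  obtain ⟨m, ⟨⟨hm, hmt⟩, hpm, hqm⟩, -⟩ := h2 p q hp hpt hq hqt hpq
  refine ⟨p, m, hp, lt_of_le_of_ne hpm ?_, hmt⟩
  rintro rfl
  have h5 : q = p := by
    rcases eq_or_lt_of_le hqm with h6 | h6
    · exact h6
    · exact absurd h6 (hp.2 hq.lt)
  exact hpq h5.symm

/-- a plane is not properly contained in a plane with the same top -/
lemma plane_bot_eq {r v t : L} (hr : IsPlane r t) (hrv : r ≤ v) (hv : IsPlane v t) : v = r := by
  obtain ⟨p, m, hp, hpm, hm⟩ := plane_chain4 hv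
  by_contra hne
  have h1 : r < v := lt_of_le_of_ne hrv (Ne.symm hne)
  have hpt : p < t := hpm.trans hm.lt
  rcases hr.1 p (h1.le.trans hp.le) hpt.le with h | h | h | h
  · rw [h] at hp; exact absurd (h1.trans hp.lt) (lt_irrefl _)
  · exact h.2 h1 hp.lt
  · exact h.2 hpm hm.lt
  · rw [h] at hpt; exact lt_irrefl _ hpt

/-- a plane is not properly contained in a plane with the same bottom -/
lemma plane_top_eq {v s t : L} (hs : IsPlane v s) (hst : s ≤ t) (ht : IsPlane v t) : s = t := by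
  obtain ⟨p, m, hp, hpm, hm⟩ := plane_chain4 hs
  by_contra hne
  have h1 : s < t := lt_of_le_of_ne hst hne
  rcases ht.1 m (hp.le.trans hpm.le) (hm.le.trans hst) with h | h | h | h
  · rw [h] at hpm; exact absurd (hp.lt.trans hpm) (lt_irrefl _)
  · exact h.2 hp.lt hpm
  · exact h.2 hm.lt h1
  · rw [h] at hm; exact absurd (hm.lt.trans h1) (lt_irrefl _)

/-- for every point there is a line which does not contain it -/
lemma plane_line_off {v t p : L} (h : IsPlane v t) (hp : v ⋖ p) (hpt : p ≤ t) :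
    ∃ m, v ≤ m ∧ m ⋖ t ∧ ¬ p ≤ m := by
  obtain ⟨-, h2, h3, -, a, b, c, ⟨ha, hb, hc⟩, ⟨hat, hbt, hct⟩, ⟨hab, hac, hbc⟩, hno⟩ := h
  by_contra hcon
  push Not at hcon
  obtain ⟨k, ⟨⟨hk, hkt⟩, hak, hbk⟩, -⟩ := h2 a b ha hat hb hbt hab
  obtain ⟨l, ⟨⟨hl, hlt⟩, hal, hcl⟩, -⟩ := h2 a c ha hat hc hct hac
  obtain ⟨m, ⟨⟨hm, hmt⟩, hbm, hcm⟩, -⟩ := h2 b c hb hbt hc hct hbc
  have hkl : k ≠ l := fun e => hno k hk hkt ⟨hak, hbk, e ▸ hcl⟩
  have hkm : k ≠ m := fun e => hno k hk hkt ⟨hak, hbk, e ▸ hcm⟩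
  obtain ⟨x, -, hx⟩ := h3 k l hk hkt hl hlt hkl
  obtain ⟨y, -, hy⟩ := h3 k m hk hkt hm hmt hkm
  have e1 : p = a := by
    rw [hx p ⟨⟨hp, hpt⟩, hcon k hk hkt, hcon l hl hlt⟩, hx a ⟨⟨ha, hat⟩, hak, hal⟩]
  have e2 : p = b := by
    rw [hy p ⟨⟨hp, hpt⟩, hcon k hk hkt, hcon m hm hmt⟩, hy b ⟨⟨hb, hbt⟩, hbk, hbm⟩]
  exact hab (e1.symm.trans e2)

/-- the meet of all lines of a plane is the bottom -/
lemma plane_meet (hF : LF L) {v t x : L} (h : IsPlane v t) (hx : v ≤ x) (hxt : x ≤ t)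
    (hm : ∀ m, v ≤ m → m ⋖ t → x ≤ m) : x = v := by
  by_contra hne
  obtain ⟨p, hp, hpx⟩ := lf_cov hF (lt_of_le_of_ne hx (Ne.symm hne))
  obtain ⟨m, h1, h2, h3⟩ := plane_line_off h hp (hpx.trans hxt)
  exact h3 (hpx.trans (hm m h1 h2))

/-- every point of a plane lies on a line -/
lemma plane_line_on {v t p : L} (h : IsPlane v t) (hp : v ⋖ p) (hpt : p ≤ t) :
    ∃ m, p ≤ m ∧ m ⋖ t := by
  obtain ⟨-, h2, -, -, a, b, c, ⟨ha, hb, hc⟩, ⟨hat, hbt, hct⟩, ⟨hab, hac, hbc⟩, -⟩ := h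
  by_cases e : p = a
  · obtain ⟨m, ⟨⟨-, hmt⟩, hpm, -⟩, -⟩ := h2 p b hp hpt hb hbt (by rw [e]; exact hab)
    exact ⟨m, hpm, hmt⟩
  · obtain ⟨m, ⟨⟨-, hmt⟩, hpm, -⟩, -⟩ := h2 p a hp hpt ha hat e
    exact ⟨m, hpm, hmt⟩

/-- a point is not a coatom -/
lemma plane_point_lt {v t p m : L} (h : IsPlane v t) (hp : v ⋖ p) (hm : m ⋖ t) (hpm : p ≤ m) :
    p < m := by
  refine lt_of_le_of_ne hpm ?_
  rintro rfl
  obtain ⟨a, b, c, ⟨ha, hb, hc⟩, ⟨hap, hbp, hcp⟩, hab, -, -⟩ := h.2.2.2.1 p hp.le hm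
  have h1 : a = p := by
    rcases eq_or_lt_of_le hap with h | h
    · exact h
    · exact absurd h (hp.2 ha.lt)
  have h2 : b = p := by
    rcases eq_or_lt_of_le hbp with h | h
    · exact h
    · exact absurd h (hp.2 hb.lt)
  exact hab (h1.trans h2.symm)

/-- a point is not covered by the top -/
lemma plane_point_not_coatom {v t p : L} (h : IsPlane v t) (hp : v ⋖ p) : ¬ p ⋖ t :=
  fun hm => lt_irrefl _ (plane_point_lt h hp hm le_rfl)

/-- for any two points there is a line which contains neither -/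
lemma plane_line_off2 {v t p q : L} (h : IsPlane v t) (hp : v ⋖ p) (hpt : p ≤ t) (hq : v ⋖ q)
    (hqt : q ≤ t) : ∃ m, v ≤ m ∧ m ⋖ t ∧ ¬ p ≤ m ∧ ¬ q ≤ m := by
  by_cases hpq : p = q
  · subst hpq
    obtain ⟨m, h1, h2, h3⟩ := plane_line_off h hp hpt
    exact ⟨m, h1, h2, h3, h3⟩
  obtain ⟨k, ⟨⟨hk, hkt⟩, hpk, hqk⟩, -⟩ := h.2.1 p q hp hpt hq hqt hpq
  -- a third point of the line `k`
  obtain ⟨c, hc, hck, hcp, hcq⟩ : ∃ c, v ⋖ c ∧ c ≤ k ∧ c ≠ p ∧ c ≠ q := by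
    obtain ⟨a, b, c, ⟨ha, hb, hc⟩, ⟨hak, hbk, hck⟩, hab, hac, hbc⟩ := h.2.2.2.1 k hk hkt
    by_cases c1 : a = p ∨ a = q
    · by_cases c2 : b = p ∨ b = q
      · refine ⟨c, hc, hck, ?_, ?_⟩
        · rintro rfl
          rcases c1 with c1 | c1 <;> rcases c2 with c2 | c2
          · exact hab (c1.trans c2.symm)
          · exact hac c1
          · exact hbc c2
          · exact hab (c1.trans c2.symm)
        · rintro rfl
          rcases c1 with c1 | c1 <;> rcases c2 with c2 | c2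
          · exact hab (c1.trans c2.symm)
          · exact hbc c2
          · exact hac c1
          · exact hac c1
      · push Not at c2
        exact ⟨b, hb, hbk, c2.1, c2.2⟩
    · push Not at c1
      exact ⟨a, ha, hak, c1.1, c1.2⟩
  -- a point off `k`
  obtain ⟨e, he, het, hek⟩ : ∃ e, v ⋖ e ∧ e ≤ t ∧ ¬ e ≤ k := by
    obtain ⟨-, -, -, -, a, b, c, ⟨ha, hb, hc⟩, ⟨hat, hbt, hct⟩, -, hno⟩ := h
    by_contra hcon
    push Not at hcon
    exact hno k hk hkt ⟨hcon a ha hat, hcon b hb hbt, hcon c hc hct⟩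
  have hce : c ≠ e := fun h1 => hek (h1 ▸ hck)
  obtain ⟨m, ⟨⟨hm, hmt⟩, hcm, hem⟩, -⟩ := h.2.1 c e hc (hck.trans hkt.le) he het hce
  have hmk : m ≠ k := fun h1 => hek (h1 ▸ hem)
  obtain ⟨x, -, hx⟩ := h.2.2.1 m k hm hmt hk hkt hmk
  have e0 := hx c ⟨⟨hc, hck.trans hkt.le⟩, hcm, hck⟩
  refine ⟨m, hm, hmt, fun h1 => ?_, fun h1 => ?_⟩
  · exact hcp (e0.trans (hx p ⟨⟨hp, hpt⟩, h1, hpk⟩).symm)
  · exact hcq (e0.trans (hx q ⟨⟨hq, hqt⟩, h1, hqk⟩).symm)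

end Pool.Agent.RIG
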