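import Pool.Agent.RIG.Plane

set_option autoImplicit false

/-! The key lemma (an anti-automorphism of `[u, v⁺]` exchanges `u⁺` and `v`) and the shifts. Here
`s x` is the join of `x` and all covers of `x`. -/

namespace Pool.Agent.RIG

open Pool.Agent.Helper87.ML Pool.Agent.Helper87.ML2 OrderDual

universe u

variable {L : Type u} [Lattice L]

/-- `s x` is the join of `x` and its covers -/
def IsUp (s : L → L) : Prop := ∀ x, IsLUB (insert x {y | x ⋖ y}) (s x)

variable {s : L → L}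

lemma le_s (hs : IsUp s) (x : L) : x ≤ s x := (hs x).1 (Set.mem_insert _ _)

lemma cov_le_s (hs : IsUp s) {x y : L} (h : x ⋖ y) : y ≤ s x := (hs x).1 (Set.mem_insert_of_mem _ h)

lemma s_le (hs : IsUp s) {x t : L} (h1 : x ≤ t) (h2 : ∀ y, x ⋖ y → y ≤ t) : s x ≤ t := by
  apply (hs x).2
  rintro y (rfl | hy)
  · exact h1
  · exact h2 y hy

lemma s_mono [IsModularLattice L] (hs : IsUp s) {x y : L} (h : x ≤ y) : s x ≤ s y := by
  apply s_le hs (h.trans (le_s hs y))
  intro c hc
  by_cases h1 : c ≤ y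
  · exact h1.trans (le_s hs y)
  · have h2 : c ⊓ y = x := by
      have h3 : x ≤ c ⊓ y := le_inf hc.le h
      rcases eq_or_lt_of_le h3 with h4 | h4
      · exact h4.symm
      · exfalso
        rcases eq_or_lt_of_le (inf_le_left : c ⊓ y ≤ c) with h5 | h5
        · exact h1 (inf_eq_left.1 h5)
        · exact hc.2 h4 h5
    have h3 : y ⋖ c ⊔ y := by
      apply covBy_sup_of_inf_covBy_left
      rw [h2]; exact hc
    exact le_sup_left.trans (cov_le_s hs h3)

/-- an anti-automorphism of `[u, v⁺]` exchanges `u⁺` and `v` -/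
lemma key1 [IsModularLattice L] (hF : LF L) (hSD : SD' L) (hs : IsUp s) {u v : L} (huv : u ≤ v)
    (hu : IsPlane u (s u)) (hv : IsPlane v (s v)) (d : IAnti u (s v) u (s v)) :
    d.f (s u) = v := by
  have h1 : u ≤ s u := le_s hs u
  have h2 : s u ≤ s v := s_mono hs huv
  have h3 : v ≤ s v := le_s hs v
  have hr := d.fm (s u) h1 h2
  -- below all lines
  have h4 : ∀ m, v ≤ m → m ⋖ s v → d.f (s u) ≤ m := by
    intro m hm hmt
    have h5 := d.gm m (huv.trans hm) hmt.le
    have h6 : u ⋖ d.g m := by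
      have h7 := d.symm.cov (huv.trans hm) le_rfl hmt
      have h8 := d.symm.top (huv.trans h3) (huv.trans h3)
      rw [h8] at h7
      exact h7
    have h7 := (d.le (s u) (d.g m) h1 h2 h5.1 h5.2).2 (cov_le_s hs h6)
    rwa [d.fg m (huv.trans hm) hmt.le] at h7
  have h5 : d.f (s u) ≤ v := by
    have h6 : d.f (s u) ⊔ v = v := by
      obtain ⟨-, m, -, -, hm⟩ := plane_chain4 hv
      apply plane_meet hF hv le_sup_right (sup_le hr.2 h3)
      intro m hm1 hm2
      exact sup_le (h4 m hm1 hm2) hm1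
    exact sup_eq_right.1 h6
  have h6 : IsPlane (d.f (s u)) (s v) := by
    have e1 : IAnti u (s u) (d.f (s u)) (d.f u) := d.restr le_rfl h1 h2
    have h7 : d.f u = s v := d.bot (huv.trans h3) (huv.trans h3)
    rw [h7] at e1
    obtain ⟨e2⟩ := iso_of_anti hSD hr.2 e1
    exact isPlane_iiso h1 e2 hu
  exact (plane_bot_eq h6 h5 hv).symm

lemma key2 [IsModularLattice L] (hF : LF L) (hSD : SD' L) (hs : IsUp s) {u v : L} (huv : u ≤ v)
    (hu : IsPlane u (s u)) (hv : IsPlane v (s v)) (d : IAnti u (s v) u (s v)) :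
    d.f v = s u := by
  have h1 := key1 hF hSD hs huv hu hv d.symm
  have h2 := d.fg (s u) (le_s hs u) (s_mono hs huv)
  rw [← h2]
  show d.f v = d.f (d.symm.f (s u))
  rw [h1]

/-- the planes `[u, u⁺]` and `[v, v⁺]` are isomorphic -/
lemma block_iso [IsModularLattice L] (hF : LF L) (hSD : SD' L) (hs : IsUp s) {u v : L}
    (huv : u ≤ v) (hu : IsPlane u (s u)) (hv : IsPlane v (s v)) :
    Nonempty (IIso u (s u) v (s v)) := by
  obtain ⟨d⟩ := exists_anti hSD (huv.trans (le_s hs v))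
  have h1 := d.restr le_rfl (le_s hs u) (s_mono hs huv)
  rw [key1 hF hSD hs huv hu hv d, d.bot (huv.trans (le_s hs v)) (huv.trans (le_s hs v))] at h1
  exact iso_of_anti hSD (le_s hs v) h1

/-- two covers in a row -/
lemma icc2 [IsModularLattice L] (hF : LF L) (hs : IsUp s) {u w x z : L} (h1 : u ⋖ w) (h2 : w ⋖ x)
    (h3 : ¬ x ≤ s u) (hz : u ≤ z) (hzx : z ≤ x) : z = u ∨ z = w ∨ z = x := by
  rcases eq_or_lt_of_le hz with h | h
  · exact Or.inl h.symm
  obtain ⟨a, ha, haz⟩ := lf_cov hF h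
  by_cases haw : a = w
  · subst haw
    rcases eq_or_lt_of_le haz with h4 | h4
    · exact Or.inr (Or.inl h4.symm)
    · rcases eq_or_lt_of_le hzx with h5 | h5
      · exact Or.inr (Or.inr h5)
      · exact absurd h5 (h2.2 h4)
  · exfalso
    apply h3
    have h4 : w < a ⊔ w := by
      apply lt_of_le_of_ne le_sup_right
      intro h5
      have h6 : a ≤ w := by rw [h5]; exact le_sup_left
      rcases eq_or_lt_of_le h6 with h7 | h7
      · exact haw h7
      · exact h1.2 ha.lt h7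
    have h5 : a ⊔ w ≤ x := sup_le (haz.trans hzx) h2.le
    have h6 : a ⊔ w = x := by
      rcases eq_or_lt_of_le h5 with h7 | h7
      · exact h7
      · exact absurd h7 (h2.2 h4)
    rw [← h6]
    exact sup_le (cov_le_s hs ha) (cov_le_s hs h1)

/-- three covers in a row -/
lemma icc3 [IsModularLattice L] (hF : LF L) (hs : IsUp s) {u w x e z : L} (h1 : u ⋖ w)
    (h2 : w ⋖ x) (h3 : ¬ x ≤ s u) (h4 : x ⋖ e) (h5 : ¬ e ≤ s w) (hz : u ≤ z) (hze : z ≤ e) :
    z = u ∨ z = w ∨ z = x ∨ z = e := by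
  rcases eq_or_lt_of_le hz with h | h
  · exact Or.inl h.symm
  obtain ⟨a, ha, haz⟩ := lf_cov hF h
  by_cases haw : a = w
  · subst haw
    rcases icc2 hF hs h2 h4 h5 haz hze with h6 | h6 | h6
    · exact Or.inr (Or.inl h6)
    · exact Or.inr (Or.inr (Or.inl h6))
    · exact Or.inr (Or.inr (Or.inr h6))
  · exfalso
    apply h3
    have h7 : w < a ⊔ w := by
      apply lt_of_le_of_ne le_sup_right
      intro h5
      have h6 : a ≤ w := by rw [h5]; exact le_sup_left
      rcases eq_or_lt_of_le h6 with h7 | h7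
      · exact haw h7
      · exact h1.2 ha.lt h7
    have h8 : w ⋖ a ⊔ w := by
      apply covBy_sup_of_inf_covBy_left
      have h9 : a ⊓ w = u := by
        have h10 : u ≤ a ⊓ w := le_inf ha.le h1.le
        rcases eq_or_lt_of_le h10 with h11 | h11
        · exact h11.symm
        · exfalso
          rcases eq_or_lt_of_le (inf_le_left : a ⊓ w ≤ a) with h12 | h12
          · have h13 : a ≤ w := inf_eq_left.1 h12
            rcases eq_or_lt_of_le h13 with h14 | h14
            · exact haw h14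
            · exact h1.2 ha.lt h14
          · exact ha.2 h11 h12
      rw [h9]; exact ha
    have h9 : a ⊔ w ≤ e := sup_le (haz.trans hze) (h2.le.trans h4.le)
    rcases icc2 hF hs h2 h4 h5 le_sup_right h9 with h10 | h10 | h10
    · exact absurd h10 h7.ne'
    · rw [← h10]
      exact sup_le (cov_le_s hs ha) (cov_le_s hs h1)
    · exfalso
      rw [h10] at h8
      exact h8.2 h2.lt h4.lt

/-- strict monotonicity of `s` on the region of planes -/
lemma s_lt [IsModularLattice L] (hs : IsUp s) {u v : L} (huv : u < v) (hu : IsPlane u (s u))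
    (hv : IsPlane v (s v)) : s u < s v := by
  apply lt_of_le_of_ne (s_mono hs huv.le)
  intro h
  rw [← h] at hv
  exact huv.ne' (plane_bot_eq hu huv.le hv)

/-- the shift along two covers -/
lemma shift2 [IsModularLattice L] (hF : LF L) (hSD : SD' L) (hs : IsUp s) {w x e : L}
    (h2 : w ⋖ x) (h4 : x ⋖ e) (h5 : ¬ e ≤ s w) (hw : IsPlane w (s w)) (hx : IsPlane x (s x))
    (he : IsPlane e (s e)) (d : IAnti w (s e) w (s e)) : d.f x = s x ∧ d.f (s x) = x := by
  have hwe : w ≤ e := h2.le.trans h4.le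
  have hee := le_s hs e
  have hwt := hwe.trans hee
  have hb : d.f w = s e := d.bot hwt hwt
  have ht : d.f (s e) = w := d.top hwt hwt
  have k1 := key1 hF hSD hs hwe hw he d
  have k2 := key2 hF hSD hs hwe hw he d
  have m1 : s w < s x := s_lt hs h2.lt hw hx
  have m2 : s x < s e := s_lt hs h4.lt hx he
  have hxm : w ≤ s x := h2.le.trans (le_s hs x)
  -- the preimage of `s x`
  obtain ⟨p1, p2⟩ := d.gm (s x) hxm m2.le
  have h7 := d.fg (s x) hxm m2.le
  have h8 : d.g (s x) ≤ e := by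
    refine (d.le e (d.g (s x)) hwe hee p1 p2).1 ?_
    rw [h7, k2]; exact m1.le
  -- the image of `s x`
  obtain ⟨q1, q2⟩ := d.fm (s x) hxm m2.le
  have h12 : d.f (s x) ≤ e :=
    ((d.le (s x) (s w) hxm m2.le (le_s hs w) (m1.trans m2).le).2 m1.le).trans k1.le
  constructor
  · rcases icc2 hF hs h2 h4 h5 p1 h8 with h | h | h
    · rw [h, hb] at h7; exact absurd h7 m2.ne'
    · rw [h] at h7; exact h7
    · rw [h, k2] at h7; exact absurd h7 m1.ne
  · rcases icc2 hF hs h2 h4 h5 q1 h12 with h | h | h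
    · exact absurd (d.inj hxm m2.le hwt le_rfl (h.trans ht.symm)) m2.ne
    · exact h
    · exact absurd (d.inj hxm m2.le (le_s hs w) (m1.trans m2).le (h.trans k1.symm)) m1.ne'

/-- the shift along three covers -/
lemma shift3 [IsModularLattice L] (hF : LF L) (hSD : SD' L) (hs : IsUp s) {u w x e : L}
    (h1 : u ⋖ w) (h2 : w ⋖ x) (h3 : ¬ x ≤ s u) (h4 : x ⋖ e) (h5 : ¬ e ≤ s w)
    (hu : IsPlane u (s u)) (hw : IsPlane w (s w)) (hx : IsPlane x (s x))
    (he : IsPlane e (s e)) (d : IAnti u (s e) u (s e)) :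
    d.f w = s x ∧ d.f x = s w ∧ d.f (s w) = x ∧ d.f (s x) = w := by
  have hwe : w ≤ e := h2.le.trans h4.le
  have hue : u ≤ e := h1.le.trans hwe
  have hee := le_s hs e
  have hut := hue.trans hee
  have hb : d.f u = s e := d.bot hut hut
  have ht : d.f (s e) = u := d.top hut hut
  have k1 := key1 hF hSD hs hue hu he d
  have k2 := key2 hF hSD hs hue hu he d
  have m0 : s u < s w := s_lt hs h1.lt hu hw
  have m1 : s w < s x := s_lt hs h2.lt hw hx
  have m2 : s x < s e := s_lt hs h4.lt hx he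
  have huw : u ≤ s w := h1.le.trans (le_s hs w)
  have hux : u ≤ s x := huw.trans m1.le
  have hwb : s w ≤ s e := (m1.trans m2).le
  have hxb : s x ≤ s e := m2.le
  -- the preimages
  obtain ⟨p1, p2⟩ := d.gm (s w) huw hwb
  obtain ⟨r1, r2⟩ := d.gm (s x) hux hxb
  have fw := d.fg (s w) huw hwb
  have fx := d.fg (s x) hux hxb
  have e1 : d.g (s w) ≤ e := by
    refine (d.le e (d.g (s w)) hue hee p1 p2).1 ?_
    rw [fw, k2]; exact m0.le
  have e2 : d.g (s x) ≤ e := by
    refine (d.le e (d.g (s x)) hue hee r1 r2).1 ?_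
    rw [fx, k2]; exact (m0.trans m1).le
  have e3 : d.g (s x) < d.g (s w) := by
    rw [← d.lt p1 p2 r1 r2, fw, fx]; exact m1
  have a1 : d.g (s w) ≠ e := by
    intro h; rw [h, k2] at fw; exact m0.ne fw
  have a2 : d.g (s x) ≠ u := by
    intro h; rw [h, hb] at fx; exact m2.ne' fx
  -- the images
  obtain ⟨q1, q2⟩ := d.fm (s w) huw hwb
  obtain ⟨t1, t2⟩ := d.fm (s x) hux hxb
  have g1 : d.f (s w) ≤ e :=
    ((d.le (s w) (s u) huw hwb (le_s hs u) (m0.le.trans hwb)).2 m0.le).trans k1.le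
  have g2 : d.f (s x) ≤ e :=
    ((d.le (s x) (s u) hux hxb (le_s hs u) (m0.le.trans hwb)).2 (m0.trans m1).le).trans k1.le
  have g3 : d.f (s x) < d.f (s w) := (d.lt hux hxb huw hwb).2 m1
  have b1 : d.f (s w) ≠ e := fun h =>
    m0.ne' (d.inj huw hwb (le_s hs u) (m0.le.trans hwb) (h.trans k1.symm))
  have b2 : d.f (s x) ≠ u := fun h => m2.ne (d.inj hux hxb hut le_rfl (h.trans ht.symm))
  have l1 := h1.lt
  have l2 := h2.lt
  have l4 := h4.lt
  constructor
  · rcases icc3 hF hs h1 h2 h3 h4 h5 r1 e2 with h | h | h | h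
    · exact absurd h a2
    · rw [h] at fx; exact fx
    · exfalso
      rw [h] at e3
      rcases icc3 hF hs h1 h2 h3 h4 h5 p1 e1 with h' | h' | h' | h'
      · rw [h'] at e3; exact absurd (e3.trans (l1.trans l2)) (lt_irrefl _)
      · rw [h'] at e3; exact absurd (e3.trans l2) (lt_irrefl _)
      · rw [h'] at e3; exact lt_irrefl _ e3
      · exact a1 h'
    · exfalso
      rw [h] at e3
      exact absurd (e3.trans_le e1) (lt_irrefl _)
  constructor
  · rcases icc3 hF hs h1 h2 h3 h4 h5 p1 e1 with h | h | h | h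
    · rw [h] at e3; exact absurd (e3.trans_le r1) (lt_irrefl _)
    · exfalso
      rw [h] at e3
      rcases icc3 hF hs h1 h2 h3 h4 h5 r1 e2 with h' | h' | h' | h'
      · exact a2 h'
      · rw [h'] at e3; exact lt_irrefl _ e3
      · rw [h'] at e3; exact absurd (e3.trans l2) (lt_irrefl _)
      · rw [h'] at e3; exact absurd (e3.trans (l2.trans l4)) (lt_irrefl _)
    · rw [h] at fw; exact fw
    · exact absurd h a1
  constructor
  · rcases icc3 hF hs h1 h2 h3 h4 h5 q1 g1 with h | h | h | h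
    · rw [h] at g3; exact absurd (g3.trans_le t1) (lt_irrefl _)
    · exfalso
      rw [h] at g3
      rcases icc3 hF hs h1 h2 h3 h4 h5 t1 g2 with h' | h' | h' | h'
      · exact b2 h'
      · rw [h'] at g3; exact lt_irrefl _ g3
      · rw [h'] at g3; exact absurd (g3.trans l2) (lt_irrefl _)
      · rw [h'] at g3; exact absurd (g3.trans (l2.trans l4)) (lt_irrefl _)
    · exact h
    · exact absurd h b1
  · rcases icc3 hF hs h1 h2 h3 h4 h5 t1 g2 with h | h | h | h
    · exact absurd h b2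
    · exact h
    · exfalso
      rw [h] at g3
      rcases icc3 hF hs h1 h2 h3 h4 h5 q1 g1 with h' | h' | h' | h'
      · rw [h'] at g3; exact absurd (g3.trans (l1.trans l2)) (lt_irrefl _)
      · rw [h'] at g3; exact absurd (g3.trans l2) (lt_irrefl _)
      · rw [h'] at g3; exact lt_irrefl _ g3
      · exact b1 h'
    · exfalso
      rw [h] at g3
      exact absurd (g3.trans_le g1) (lt_irrefl _)

/-- an automorphism of the plane over `x` moves `e` to `e'`, if both are not below `w⁺` -/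
lemma move2 [IsModularLattice L] (hF : LF L) (hSD : SD' L) (hs : IsUp s) {w x e e' : L}
    (h2 : w ⋖ x) (h4 : x ⋖ e) (h5 : ¬ e ≤ s w) (h4' : x ⋖ e') (h5' : ¬ e' ≤ s w)
    (hw : IsPlane w (s w)) (hx : IsPlane x (s x)) (he : IsPlane e (s e)) (he' : IsPlane e' (s e')) :
    ∃ φ : IIso x (s x) x (s x), φ.f e = e' := by
  have hwx := h2.le
  have hxe := h4.le
  have hxe' := h4'.le
  have hwt : w ≤ s x := hwx.trans (le_s hs x)
  have hxb : s x ≤ s e := s_mono hs hxe
  have hxb' : s x ≤ s e' := s_mono hs hxe'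
  have hwe := hwt.trans hxb
  have hwe' := hwt.trans hxb'
  obtain ⟨d0⟩ := exists_anti hSD hwt
  obtain ⟨d⟩ := exists_anti hSD hwe
  obtain ⟨d'⟩ := exists_anti hSD hwe'
  have a1 := key1 hF hSD hs hwx hw hx d0
  have a2 := key2 hF hSD hs hwx hw hx d0
  have a3 : d0.f w = s x := d0.bot hwt hwt
  have a4 : d0.f (s x) = w := d0.top hwt hwt
  have b1 := key1 hF hSD hs (hwx.trans hxe) hw he d
  have b2 : d.f (s e) = w := d.top hwe hwe
  have b3 : d.f w = s e := d.bot hwe hwe
  obtain ⟨b4, b5⟩ := shift2 hF hSD hs h2 h4 h5 hw hx he d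
  have c1 := key1 hF hSD hs (hwx.trans hxe') hw he' d'
  have c3 : d'.f w = s e' := d'.bot hwe' hwe'
  obtain ⟨c4, c5⟩ := shift2 hF hSD hs h2 h4' h5' hw hx he' d'
  -- the two shifts `[w, x⁺] → [x, e⁺]`
  let T : IIso w (s x) x (s e) :=
    (d0.trans ((d.restr le_rfl hwt hxb).cast rfl rfl b5 b3))
  let T' : IIso w (s x) x (s e') :=
    (d0.trans ((d'.restr le_rfl hwt hxb').cast rfl rfl c5 c3))
  have t1 : ∀ z, T.f z = d.f (d0.f z) := fun z => by simp [T, IAnti.trans, IAnti.restr]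
  have t1' : ∀ z, T'.f z = d'.f (d0.f z) := fun z => by simp [T', IAnti.trans, IAnti.restr]
  have t2 : T.f x = e := by rw [t1, a2, b1]
  have t3 : T.f (s w) = s x := by rw [t1, a1, b4]
  have t2' : T'.f x = e' := by rw [t1', a2, c1]
  have t3' : T'.f (s w) = s x := by rw [t1', a1, c4]
  have t4 : T.g e = x := T.g_eq hwx (le_s hs x) t2
  have t5 : T.g (s x) = s w := T.g_eq (le_s hs w) (s_mono hs hwx) t3
  have t6 : T.g x = w := T.symm.bot (hxe.trans (le_s hs e)) hwt
  have t6' : T'.f w = x := T'.bot hwt (hxe'.trans (le_s hs e'))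
  let h := T.symm.trans T'
  have u1 : ∀ z, h.f z = T'.f (T.g z) := fun z => rfl
  refine ⟨(h.restr le_rfl (le_s hs x) hxb).cast rfl rfl ?_ ?_, ?_⟩
  · rw [u1, t6, t6']
  · rw [u1, t5, t3']
  · rw [IIso.cast_f]
    show h.f e = e'
    rw [u1, t4, t2']

/-- an automorphism of the plane over `x` fixes the line `w⁺` and moves `e` to `e'`, if both are
not below `w⁺` -/
lemma move3 [IsModularLattice L] (hF : LF L) (hSD : SD' L) (hs : IsUp s) {u w x e e' : L}
    (h1 : u ⋖ w) (h2 : w ⋖ x) (h3 : ¬ x ≤ s u) (h4 : x ⋖ e) (h5 : ¬ e ≤ s w) (h4' : x ⋖ e')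
    (h5' : ¬ e' ≤ s w) (hu : IsPlane u (s u)) (hw : IsPlane w (s w)) (hx : IsPlane x (s x))
    (he : IsPlane e (s e)) (he' : IsPlane e' (s e')) :
    ∃ φ : IIso x (s x) x (s x), φ.f e = e' ∧ φ.f (s w) = s w := by
  have huw := h1.le
  have hwx := h2.le
  have hxe := h4.le
  have hxe' := h4'.le
  have hux := huw.trans hwx
  have hut : u ≤ s x := hux.trans (le_s hs x)
  have hxb : s x ≤ s e := s_mono hs hxe
  have hxb' : s x ≤ s e' := s_mono hs hxe'
  have hue := hut.trans hxb
  have hue' := hut.trans hxb'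
  obtain ⟨d0⟩ := exists_anti hSD hut
  obtain ⟨d⟩ := exists_anti hSD hue
  obtain ⟨d'⟩ := exists_anti hSD hue'
  have a1 := key1 hF hSD hs hux hu hx d0
  have a2 := key2 hF hSD hs hux hu hx d0
  have a3 : d0.f u = s x := d0.bot hut hut
  have a4 : d0.f (s x) = u := d0.top hut hut
  obtain ⟨a5, a6⟩ := shift2 hF hSD hs h1 h2 h3 hu hw hx d0
  have b1 := key1 hF hSD hs (hux.trans hxe) hu he d
  have b3 : d.f u = s e := d.bot hue hue
  obtain ⟨b4, b5, b6, b7⟩ := shift3 hF hSD hs h1 h2 h3 h4 h5 hu hw hx he d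
  have c1 := key1 hF hSD hs (hux.trans hxe') hu he' d'
  have c3 : d'.f u = s e' := d'.bot hue' hue'
  obtain ⟨c4, c5, c6, c7⟩ := shift3 hF hSD hs h1 h2 h3 h4' h5' hu hw hx he' d'
  -- the two shifts `[u, x⁺] → [w, e⁺]`
  let T : IIso u (s x) w (s e) :=
    (d0.trans ((d.restr le_rfl hut hxb).cast rfl rfl b7 b3))
  let T' : IIso u (s x) w (s e') :=
    (d0.trans ((d'.restr le_rfl hut hxb').cast rfl rfl c7 c3))
  have t1 : ∀ z, T.f z = d.f (d0.f z) := fun z => by simp [T, IAnti.trans, IAnti.restr]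
  have t1' : ∀ z, T'.f z = d'.f (d0.f z) := fun z => by simp [T', IAnti.trans, IAnti.restr]
  have t2 : T.f x = e := by rw [t1, a2, b1]
  have t3 : T.f (s w) = s x := by rw [t1, a6, b4]
  have t4 : T.f w = x := by rw [t1, a5, b6]
  have t5 : T.f (s u) = s w := by rw [t1, a1, b5]
  have t2' : T'.f x = e' := by rw [t1', a2, c1]
  have t3' : T'.f (s w) = s x := by rw [t1', a6, c4]
  have t4' : T'.f w = x := by rw [t1', a5, c6]
  have t5' : T'.f (s u) = s w := by rw [t1', a1, c5]
  have s2 : T.g e = x := T.g_eq hux (le_s hs x) t2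
  have s3 : T.g (s x) = s w := T.g_eq (huw.trans (le_s hs w)) (s_mono hs hwx) t3
  have s4 : T.g x = w := T.g_eq huw (hwx.trans (le_s hs x)) t4
  have s5 : T.g (s w) = s u := T.g_eq (le_s hs u) (s_mono hs hux) t5
  let h := T.symm.trans T'
  have u1 : ∀ z, h.f z = T'.f (T.g z) := fun z => rfl
  refine ⟨(h.restr hwx (le_s hs x) hxb).cast rfl rfl ?_ ?_, ?_, ?_⟩
  · rw [u1, s4, t4']
  · rw [u1, s3, t3']
  · rw [IIso.cast_f]
    show h.f e = e'
    rw [u1, s2, t2']
  · rw [IIso.cast_f]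
    show h.f (s w) = s w
    rw [u1, s5, t5']

end Pool.Agent.RIG
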