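import Pool.Agent.RIG.Group

set_option autoImplicit false

/-! Automorphisms of `[x, x_j]` which fix `[c, x_j]` pointwise. -/

namespace Pool.Agent.RIG

open Pool.Agent.Helper87.ML Pool.Agent.Helper87.ML2 OrderDual

universe u

variable {L : Type u} [Lattice L] {s : L → L}

section

variable [IsModularLattice L] (hF : LF L) (hSD : SD' L) (hs : IsUp s) {z t : L} (hK : Key s z t)
include hF hSD hs hK

/-- Two straight chains `c, c'` which agree from the index `j` on: some isomorphism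
`[c 0, (c n)_j] → [c' 0, (c n)_j]` maps `c i` to `c' i` and `(c i)_j` to `(c' i)_j`. -/
lemma exists_h (j n : ℕ) (hjn : j ≤ n) {c c' : ℕ → L} (hc : Str s c (n + j))
    (hc' : Str s c' (n + j)) (hcc : ∀ i, j ≤ i → c i = c' i) (hz : z ≤ c 0) (hz' : z ≤ c' 0)
    (ht : s^[j] (c (n + j)) ≤ t) :
    ∃ h : IIso (c 0) (s^[j] (c n)) (c' 0) (s^[j] (c n)),
      ∀ i ≤ n, h.f (c i) = c' i ∧ h.f (s^[j] (c i)) = s^[j] (c' i) := by
  have h0 : c 0 ≤ c (n + j) := hc.mono (Nat.zero_le _) le_rfl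
  have h0' : c' 0 ≤ c' (n + j) := hc'.mono (Nat.zero_le _) le_rfl
  have hj : c 0 ≤ c j := hc.mono (Nat.zero_le _) (by omega)
  have hj' : c' 0 ≤ c' j := hc'.mono (Nat.zero_le _) (by omega)
  have hjt : c j ≤ s^[j] (c (n + j)) := (hc.mono (by omega) le_rfl).trans (le_it hs j _)
  have hjt' : c' j ≤ s^[j] (c' (n + j)) := (hc'.mono (by omega) le_rfl).trans (le_it hs j _)
  have ht' : s^[j] (c' (n + j)) ≤ t := by rw [← hcc (n + j) (by omega)]; exact ht
  obtain ⟨d⟩ := exists_anti hSD (h0.trans (le_it hs j _))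
  obtain ⟨d'⟩ := exists_anti hSD (h0'.trans (le_it hs j _))
  have k := chain_anti hF hSD hs hK j hc hz ht d
  have k' := chain_anti hF hSD hs hK j hc' hz' ht' d'
  have e1 : n + j - j = n := by omega
  have a1 : d.f (s^[j] (c (n + j))) = c 0 := by
    have := (k (n + j) le_rfl).1
    rwa [Nat.sub_self] at this
  have a2 : d.f (c j) = s^[j] (c n) := by
    have := (k j (by omega)).2
    rwa [e1] at this
  have b1 : d'.f (s^[j] (c' (n + j))) = c' 0 := by
    have := (k' (n + j) le_rfl).1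
    rwa [Nat.sub_self] at this
  have b2 : d'.f (c' j) = s^[j] (c n) := by
    have := (k' j (by omega)).2
    rwa [e1, ← hcc n hjn] at this
  let r : IAnti (c j) (s^[j] (c (n + j))) (c 0) (s^[j] (c n)) :=
    (d.restr hj hjt le_rfl).cast rfl rfl a1 a2
  let r' : IAnti (c j) (s^[j] (c (n + j))) (c' 0) (s^[j] (c n)) :=
    (d'.restr hj' hjt' le_rfl).cast (hcc j le_rfl).symm
      (by rw [hcc (n + j) (by omega)]) b1 b2
  have hr : ∀ y, r.f y = d.f y := fun y => by simp [r, IAnti.restr]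
  have hr' : ∀ y, r'.f y = d'.f y := fun y => by simp [r', IAnti.restr]
  refine ⟨r.symm.trans r', fun i hi => ?_⟩
  have hle : ∀ i, j ≤ i → i ≤ n + j → c j ≤ s^[j] (c i) ∧ s^[j] (c i) ≤ s^[j] (c (n + j)) :=
    fun i h1 h2 => ⟨(hc.mono h1 h2).trans (le_it hs j _), it_mono hs j (hc.mono h2 le_rfl)⟩
  have hle2 : ∀ i, j ≤ i → i ≤ n + j → c j ≤ c i ∧ c i ≤ s^[j] (c (n + j)) :=
    fun i h1 h2 => ⟨hc.mono h1 h2, (hc.mono h2 le_rfl).trans (le_it hs j _)⟩
  have e2 : n + j - (n + j - i) = i := by omega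
  constructor
  · have h1 : r.f (s^[j] (c (n + j - i))) = c i := by
      rw [hr, (k (n + j - i) (by omega)).1, e2]
    have h2 := hle (n + j - i) (by omega) (by omega)
    have h3 : r.g (c i) = s^[j] (c (n + j - i)) := r.g_eq h2.1 h2.2 h1
    show r'.f (r.g (c i)) = c' i
    rw [h3, hr', hcc (n + j - i) (by omega), (k' (n + j - i) (by omega)).1, e2]
  · have h1 : r.f (c (n + j - i)) = s^[j] (c i) := by
      rw [hr, (k (n + j - i) (by omega)).2, e2]
    have h2 := hle2 (n + j - i) (by omega) (by omega)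
    have h3 : r.g (s^[j] (c i)) = c (n + j - i) := r.g_eq h2.1 h2.2 h1
    show r'.f (r.g (s^[j] (c i))) = s^[j] (c' i)
    rw [h3, hr', hcc (n + j - i) (by omega), (k' (n + j - i) (by omega)).2, e2]

/-- the shift `[c j, (c (n + j))_j] → [c 0, (c n)_j]` -/
lemma exists_shift (j n : ℕ) {c : ℕ → L} (hc : Str s c (n + j)) (hz : z ≤ c 0)
    (ht : s^[j] (c (n + j)) ≤ t) :
    ∃ θ : IIso (c j) (s^[j] (c (n + j))) (c 0) (s^[j] (c n)),
      ∀ i ≤ n, θ.f (c (j + i)) = c i ∧ θ.f (s^[j] (c (j + i))) = s^[j] (c i) := by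
  have h0 : c 0 ≤ c (n + j) := hc.mono (Nat.zero_le _) le_rfl
  have hj : c 0 ≤ c j := hc.mono (Nat.zero_le _) (by omega)
  have hjn : c j ≤ c (n + j) := hc.mono (by omega) le_rfl
  have hjt : c j ≤ s^[j] (c (n + j)) := hjn.trans (le_it hs j _)
  obtain ⟨d⟩ := exists_anti hSD (h0.trans (le_it hs j _))
  obtain ⟨d0⟩ := exists_anti hSD hjt
  have k := chain_anti hF hSD hs hK j hc hz ht d
  have hc0 : Str s (fun i => c (j + i)) n := hc.tail j (by omega)
  have e0 : c (j + n) = c (n + j) := by rw [add_comm]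
  have k0 := chain_anti hF hSD hs hK j hc0 (hz.trans hj)
    (by show s^[j] (c (j + n)) ≤ t; rw [e0]; exact ht)
    (d0.cast rfl (by show _ = s^[j] (c (j + n)); rw [e0]) rfl
      (by show _ = s^[j] (c (j + n)); rw [e0]))
  simp only [IAnti.cast_f] at k0
  have e1 : n + j - j = n := by omega
  have a1 : d.f (s^[j] (c (n + j))) = c 0 := by
    have := (k (n + j) le_rfl).1
    rwa [Nat.sub_self] at this
  have a2 : d.f (c j) = s^[j] (c n) := by
    have := (k j (by omega)).2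
    rwa [e1] at this
  let r : IAnti (c j) (s^[j] (c (n + j))) (c 0) (s^[j] (c n)) :=
    (d.restr hj hjt le_rfl).cast rfl rfl a1 a2
  have hr : ∀ y, r.f y = d.f y := fun y => by simp [r, IAnti.restr]
  refine ⟨d0.trans r, fun i hi => ?_⟩
  have e2 : n + j - (j + (n - i)) = i := by omega
  constructor
  · show r.f (d0.f (c (j + i))) = c i
    rw [(k0 i hi).2, hr, (k (j + (n - i)) (by omega)).1, e2]
  · show r.f (d0.f (s^[j] (c (j + i)))) = s^[j] (c i)
    rw [(k0 i hi).1, hr, (k (j + (n - i)) (by omega)).2, e2]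

/-- equality of the groups induced on `[c (2j), (c j)_j]` -/
lemma ind_eq (j n : ℕ) (hjn : 2 * j ≤ n) {c : ℕ → L} (hc : Str s c (n + j)) (hz : z ≤ c 0)
    (ht : s^[j] (c (n + j)) ≤ t)
    (h1 : c j ≤ c (2 * j)) (h2 : s^[j] (c j) ≤ s^[j] (c (n + j)))
    (h3 : s^[j] (c j) ≤ s^[j] (c n)) (h4 : c 0 ≤ c (2 * j))
    (heq : Ind (c j) (s^[j] (c (n + j))) (c (2 * j)) (s^[j] (c j)) h1 h2 =
      Ind (c j) (s^[j] (c n)) (c (2 * j)) (s^[j] (c j)) h1 h3) :
    Ind (c j) (s^[j] (c n)) (c (2 * j)) (s^[j] (c j)) h1 h3 ≤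
      Ind (c 0) (s^[j] (c n)) (c (2 * j)) (s^[j] (c j)) h4 h3 := by
  have hcn : Str s c n := by
    have := hc.tail 0 (k := n) (by omega)
    simpa using this
  have htn : s^[j] (c n) ≤ t := (it_mono hs j (hc.mono (by omega) le_rfl)).trans ht
  obtain ⟨θ, hθ⟩ := exists_shift hF hSD hs hK j n hc hz ht
  obtain ⟨π, hπ, hπ'⟩ := transp hF hSD hs hK j hcn hjn hz htn
  have e2 : j + j = 2 * j := by ring
  have θ1 : θ.f (c (2 * j)) = c j := by rw [← e2]; exact (hθ j (by omega)).1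
  have θ2 : θ.f (s^[j] (c j)) = s^[j] (c 0) := (hθ 0 (by omega)).2
  have hcj : c (2 * j) ≤ s^[j] (c j) := by
    rw [← e2]; exact hc.le_it' hs j j (by omega)
  -- `κ`
  let κ : IIso (c (2 * j)) (s^[j] (c j)) (c (2 * j)) (s^[j] (c j)) :=
    ((θ.restr h1 hcj h2).cast rfl rfl θ1 θ2).trans π
  have hκ : ∀ y, κ.f y = θ.f y ⊔ c (2 * j) := fun y => by
    show π.f _ = _
    rw [hπ, IIso.cast_f]
    rfl
  let K : Set.Icc (c (2 * j)) (s^[j] (c j)) ≃o Set.Icc (c (2 * j)) (s^[j] (c j)) := κ.toIso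
  -- conjugation maps the one group into the other
  have hconj : ∀ φ ∈ Ind (c j) (s^[j] (c (n + j))) (c (2 * j)) (s^[j] (c j)) h1 h2,
      K * φ * K⁻¹ ∈ Ind (c 0) (s^[j] (c n)) (c (2 * j)) (s^[j] (c j)) h4 h3 := by
    rintro φ ⟨g, hg⟩
    let g' : IIso (c 0) (s^[j] (c n)) (c 0) (s^[j] (c n)) := (θ.symm.trans g).trans θ
    have hg' : ∀ y, g'.f y = θ.f (g.f (θ.g y)) := fun y => rfl
    have hfix := chain_auto hF hSD hs hK j hcn hz htn g' (2 * j) hjn
    refine ⟨g', ?_⟩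
    intro y
    -- write `y = K x`
    obtain ⟨x, rfl⟩ := K.surjective y
    have hx1 : c j ≤ (x : L) := h1.trans x.2.1
    have hx2 : (x : L) ≤ s^[j] (c (n + j)) := x.2.2.trans h2
    have e3 : ((K x : Set.Icc (c (2 * j)) (s^[j] (c j))) : L) = θ.f x ⊔ c (2 * j) := hκ x
    have e4 : (K * φ * K⁻¹) (K x) = K (φ x) := by
      show K (φ (K⁻¹ (K x))) = K (φ x)
      have : K⁻¹ (K x) = x := K.symm_apply_apply x
      rw [this]
    rw [e4, e3]
    have e5 : ((K (φ x) : Set.Icc (c (2 * j)) (s^[j] (c j))) : L) = θ.f (φ x) ⊔ c (2 * j) :=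
      hκ (φ x)
    rw [e5]
    have hθx := θ.fm x hx1 hx2
    have hc2 : c (2 * j) ≤ s^[j] (c n) := hcj.trans h3
    rw [g'.map_sup hθx.1 hθx.2 h4 hc2, hfix.2, hg', θ.gf x hx1 hx2, hg x]
  -- counting
  have hle : Ind (c 0) (s^[j] (c n)) (c (2 * j)) (s^[j] (c j)) h4 h3 ≤
      Ind (c j) (s^[j] (c n)) (c (2 * j)) (s^[j] (c j)) h1 h3 := by
    rintro φ ⟨g, hg⟩
    have hfix := chain_auto hF hSD hs hK j hcn hz htn g
    have h0j : c 0 ≤ c j := hc.mono (Nat.zero_le j) (by omega)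
    have hjt : c j ≤ s^[j] (c n) := (hc.mono (by omega) (by omega)).trans (le_it hs j (c n))
    refine ⟨(g.restr h0j hjt le_rfl).cast rfl rfl (hfix j (by omega)).2 (hfix n le_rfl).1, ?_⟩
    intro y
    rw [IIso.cast_f]
    exact hg y
  have _fin : Finite (Set.Icc (c (2 * j)) (s^[j] (c j))) := (hF _ _).to_subtype
  have _fin2 : Finite (Set.Icc (c (2 * j)) (s^[j] (c j)) ≃o Set.Icc (c (2 * j)) (s^[j] (c j))) :=
    Finite.of_injective (fun e => (e : _ → _)) (fun e e' h => by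
      ext x
      exact congrArg Subtype.val (congrFun h x))
  have hcard : Nat.card (Ind (c j) (s^[j] (c n)) (c (2 * j)) (s^[j] (c j)) h1 h3) ≤
      Nat.card (Ind (c 0) (s^[j] (c n)) (c (2 * j)) (s^[j] (c j)) h4 h3) := by
    rw [← heq]
    apply Nat.card_le_card_of_injective
      (f := fun φ : Ind (c j) (s^[j] (c (n + j))) (c (2 * j)) (s^[j] (c j)) h1 h2 =>
        (⟨K * φ * K⁻¹, hconj φ φ.2⟩ :
          Ind (c 0) (s^[j] (c n)) (c (2 * j)) (s^[j] (c j)) h4 h3))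
    intro φ ψ h
    have h5 : K * φ.1 * K⁻¹ = K * ψ.1 * K⁻¹ := congrArg Subtype.val h
    apply Subtype.ext
    exact mul_left_cancel (mul_right_cancel h5)
  exact (Subgroup.eq_of_le_of_card_ge hle hcard).ge

end

end Pool.Agent.RIG
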